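import Pool.Agent.TH719.ED.Defs

/-!
# A nonconstant Lipschitz harmonic function on an infinite group of polynomial growth

(Job H719-1 for helper719, by helper541.)
-/

set_option autoImplicit false

namespace Pool.Agent.TH719.ED.H541

open scoped Pointwise
open Filter Topology

noncomputable section

section abstract

variable {G : Type} [Group G] {H : Type} [NormedAddCommGroup H] [InnerProductSpace ℝ H]

/-- the averaging operator of a finite set -/
def Av (S : Finset G) (τ : G →* (H ≃ₗᵢ[ℝ] H)) (u : H) : H := (S.card : ℝ)⁻¹ • ∑ s ∈ S, τ s u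

theorem Av_sub (S : Finset G) (τ : G →* (H ≃ₗᵢ[ℝ] H)) (u v : H) :
    Av S τ (u - v) = Av S τ u - Av S τ v := by
  simp [Av, Finset.sum_sub_distrib, smul_sub]

theorem Av_smul (S : Finset G) (τ : G →* (H ≃ₗᵢ[ℝ] H)) (c : ℝ) (u : H) :
    Av S τ (c • u) = c • Av S τ u := by
  simp only [Av, map_smul, ← Finset.smul_sum]
  rw [smul_comm]

theorem tau_mul (τ : G →* (H ≃ₗᵢ[ℝ] H)) (x y : G) (u : H) : τ (x * y) u = τ x (τ y u) := by
  rw [map_mul]
  rfl

theorem tau_one (τ : G →* (H ≃ₗᵢ[ℝ] H)) (u : H) : τ 1 u = u := by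
  rw [map_one]
  rfl

theorem tau_inv (τ : G →* (H ≃ₗᵢ[ℝ] H)) (x : G) (u v : H) :
    inner ℝ (τ x u) v = inner ℝ u (τ x⁻¹ v) := by
  have h : v = τ x (τ x⁻¹ v) := by
    rw [← tau_mul, mul_inv_cancel, tau_one]
  conv_lhs => rw [h]
  exact LinearIsometryEquiv.inner_map_map _ _ _

theorem Av_symm (S : Finset G) (hS : ∀ x ∈ S, x⁻¹ ∈ S) (τ : G →* (H ≃ₗᵢ[ℝ] H)) (u v : H) :
    inner ℝ (Av S τ u) v = inner ℝ u (Av S τ v) := by
  simp only [Av, inner_smul_left, inner_smul_right, sum_inner, inner_sum]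
  congr 1
  have h1 : ∑ s ∈ S, inner ℝ (τ s u) v = ∑ s ∈ S, inner ℝ u (τ s⁻¹ v) :=
    Finset.sum_congr rfl fun s _ => tau_inv τ s u v
  rw [h1]
  refine Finset.sum_nbij' (fun s => s⁻¹) (fun s => s⁻¹) ?_ ?_ ?_ ?_ ?_
  · intro s hs; exact hS s hs
  · intro s hs; exact hS s hs
  · intro s _; simp
  · intro s _; simp
  · intro s _; rfl

theorem norm_sq_tau_sub (τ : G →* (H ≃ₗᵢ[ℝ] H)) (s : G) (u : H) :
    ‖τ s u - u‖ ^ 2 = 2 * inner ℝ u u - 2 * inner ℝ (τ s u) u := by
  rw [norm_sub_sq_real, LinearIsometryEquiv.norm_map, real_inner_self_eq_norm_sq]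
  ring

/-- the energy -/
def en (S : Finset G) (τ : G →* (H ≃ₗᵢ[ℝ] H)) (u : H) : ℝ := inner ℝ (u - Av S τ u) u

theorem en_eq (S : Finset G) (hne : S.Nonempty) (τ : G →* (H ≃ₗᵢ[ℝ] H)) (u : H) :
    ∑ s ∈ S, ‖τ s u - u‖ ^ 2 = 2 * S.card * en S τ u := by
  have hN : (S.card : ℝ) ≠ 0 := by
    have := hne.card_pos
    positivity
  simp only [norm_sq_tau_sub, Finset.sum_sub_distrib, en, inner_sub_left, Av, inner_smul_left,
    sum_inner, Finset.sum_const, nsmul_eq_mul, ← Finset.mul_sum]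
  simp only [conj_trivial]
  field_simp

theorem en_smul (S : Finset G) (τ : G →* (H ≃ₗᵢ[ℝ] H)) (c : ℝ) (u : H) :
    en S τ (c • u) = c ^ 2 * en S τ u := by
  simp only [en, Av_smul, ← smul_sub, inner_smul_left, inner_smul_right, conj_trivial]
  ring

theorem en_nonneg (S : Finset G) (hne : S.Nonempty) (τ : G →* (H ≃ₗᵢ[ℝ] H)) (u : H) :
    0 ≤ en S τ u := by
  have h1 := en_eq S hne τ u
  have h2 : 0 ≤ ∑ s ∈ S, ‖τ s u - u‖ ^ 2 := Finset.sum_nonneg fun s _ => by positivity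
  have hN : 0 < (S.card : ℝ) := by exact_mod_cast hne.card_pos
  rw [h1] at h2
  by_contra hcon
  push Not at hcon
  have : 2 * (S.card : ℝ) * en S τ u < 0 := mul_neg_of_pos_of_neg (by positivity) hcon
  linarith

theorem two_le (S : Finset G) (h1 : (1 : G) ∈ S) (τ : G →* (H ≃ₗᵢ[ℝ] H)) (u : H) :
    2 / (S.card : ℝ) * ‖u‖ ^ 2 ≤ inner ℝ u u + inner ℝ (Av S τ u) u := by
  classical
  have hN : 0 < (S.card : ℝ) := by
    have : S.Nonempty := ⟨1, h1⟩
    exact_mod_cast this.card_pos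
  have h2 : (S.card : ℝ) * inner ℝ (Av S τ u) u = ∑ s ∈ S, inner ℝ (τ s u) u := by
    rw [Av, inner_smul_left, sum_inner, conj_trivial, ← mul_assoc, mul_inv_cancel₀ hN.ne', one_mul]
  have h3 : ∑ s ∈ S, inner ℝ (τ s u) u = inner ℝ u u + ∑ s ∈ S.erase 1, inner ℝ (τ s u) u := by
    rw [← Finset.add_sum_erase S _ h1, tau_one]
  have h4 : -(((S.card : ℝ) - 1) * ‖u‖ ^ 2) ≤ ∑ s ∈ S.erase 1, inner ℝ (τ s u) u := by
    have h5 : ∑ s ∈ S.erase 1, -(‖u‖ ^ 2) ≤ ∑ s ∈ S.erase 1, inner ℝ (τ s u) u := by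
      apply Finset.sum_le_sum
      intro s _
      have := abs_real_inner_le_norm (τ s u) u
      rw [LinearIsometryEquiv.norm_map, ← sq] at this
      exact (abs_le.1 this).1
    rw [Finset.sum_const, nsmul_eq_mul, Finset.card_erase_of_mem h1] at h5
    have h6 : ((S.card - 1 : ℕ) : ℝ) = (S.card : ℝ) - 1 := by
      rw [Nat.cast_sub (Finset.card_pos.2 ⟨1, h1⟩)]
      simp
    rw [h6] at h5
    linarith
  rw [real_inner_self_eq_norm_sq] at h3 ⊢
  rw [div_mul_eq_mul_div, div_le_iff₀ hN]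
  nlinarith

theorem en_Av (S : Finset G) (h1 : (1 : G) ∈ S) (hS : ∀ x ∈ S, x⁻¹ ∈ S)
    (τ : G →* (H ≃ₗᵢ[ℝ] H)) (p : H) :
    en S τ (Av S τ p) + 2 / (S.card : ℝ) * ‖p - Av S τ p‖ ^ 2 ≤ en S τ p := by
  have h2 := two_le S h1 τ (p - Av S τ p)
  have h3 : en S τ p - en S τ (Av S τ p) = inner ℝ (p - Av S τ p) (p - Av S τ p)
      + inner ℝ (Av S τ (p - Av S τ p)) (p - Av S τ p) := by
    simp only [en, Av_sub, inner_sub_left, inner_sub_right]
    rw [Av_symm S hS τ (Av S τ p) p, Av_symm S hS τ p p]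
    ring
  linarith

theorem norm_tau_mul_sub (τ : G →* (H ≃ₗᵢ[ℝ] H)) (x y : G) (u : H) :
    ‖τ (x * y) u - u‖ ≤ ‖τ x u - u‖ + ‖τ y u - u‖ := by
  have h : τ (x * y) u - u = τ x (τ y u - u) + (τ x u - u) := by
    rw [tau_mul, map_sub]
    abel
  rw [h]
  refine (norm_add_le _ _).trans ?_
  rw [LinearIsometryEquiv.norm_map]
  linarith

theorem norm_tau_inv_sub (τ : G →* (H ≃ₗᵢ[ℝ] H)) (x : G) (u : H) :
    ‖τ x⁻¹ u - u‖ = ‖τ x u - u‖ := by
  rw [← LinearIsometryEquiv.norm_map (τ x) (τ x⁻¹ u - u), map_sub,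
    ← tau_mul, mul_inv_cancel, tau_one, norm_sub_rev]

theorem exists_bound (S : Finset G) (hgen : Subgroup.closure (S : Set G) = ⊤)
    (τ : G →* (H ≃ₗᵢ[ℝ] H)) (F : ℕ → H) (B : ℝ)
    (hB : ∀ n, ∀ s ∈ S, ‖τ s (F n) - F n‖ ≤ B) (x : G) :
    ∃ M : ℝ, ∀ n, ‖τ x (F n) - F n‖ ≤ M := by
  have hx : x ∈ Subgroup.closure (S : Set G) := by rw [hgen]; trivial
  induction hx using Subgroup.closure_induction with
  | mem s hs => exact ⟨B, fun n => hB n s hs⟩
  | one => exact ⟨0, fun n => by simp⟩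
  | mul x y _ _ ihx ihy =>
    obtain ⟨M, hM⟩ := ihx
    obtain ⟨M', hM'⟩ := ihy
    exact ⟨M + M', fun n => (norm_tau_mul_sub τ x y (F n)).trans (add_le_add (hM n) (hM' n))⟩
  | inv x _ ih =>
    obtain ⟨M, hM⟩ := ih
    exact ⟨M, fun n => by rw [norm_tau_inv_sub]; exact hM n⟩

theorem exists_of_approx (S : Finset G) (h1 : (1 : G) ∈ S)
    (hgen : Subgroup.closure (S : Set G) = ⊤) (τ : G →* (H ≃ₗᵢ[ℝ] H))
    (h : ∀ δ : ℝ, 0 < δ → ∃ u : H, 0 < en S τ u ∧ ‖u - Av S τ u‖ ^ 2 ≤ δ * en S τ u) :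
    ∃ (f : G → ℝ) (L : ℝ), (∀ x, ∑ s ∈ S, f (x * s) = S.card * f x) ∧
      (∀ x, ∀ s ∈ S, |f (x * s) - f x| ≤ L) ∧ ∃ x, f x ≠ f 1 := by
  have hne : S.Nonempty := ⟨1, h1⟩
  have hN : 0 < (S.card : ℝ) := by exact_mod_cast hne.card_pos
  -- normalised vectors
  have h2 : ∀ n : ℕ, ∃ F : H, en S τ F = 1 ∧ ‖F - Av S τ F‖ ^ 2 ≤ 1 / ((n : ℝ) + 1) := by
    intro n
    obtain ⟨u, hu, hu2⟩ := h (1 / ((n : ℝ) + 1)) (by positivity)
    have hs : 0 < Real.sqrt (en S τ u) := Real.sqrt_pos.2 hu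
    have hs2 : Real.sqrt (en S τ u) ^ 2 = en S τ u := Real.sq_sqrt hu.le
    refine ⟨(Real.sqrt (en S τ u))⁻¹ • u, ?_, ?_⟩
    · rw [en_smul, inv_pow, hs2, inv_mul_cancel₀ hu.ne']
    · rw [Av_smul, ← smul_sub, norm_smul, mul_pow, Real.norm_eq_abs, sq_abs, inv_pow, hs2,
        inv_mul_le_iff₀ hu, mul_comm]
      exact hu2
  choose F hF hF2 using h2
  have hsum : ∀ n, ∑ s ∈ S, ‖τ s (F n) - F n‖ ^ 2 = 2 * S.card := by
    intro n
    rw [en_eq S hne, hF, mul_one]
  have hle : ∀ n, ∀ s ∈ S, ‖τ s (F n) - F n‖ ≤ Real.sqrt (2 * S.card) := by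
    intro n s hs
    apply Real.le_sqrt_of_sq_le
    rw [← hsum n]
    exact Finset.single_le_sum (f := fun s => ‖τ s (F n) - F n‖ ^ 2) (fun i _ => by positivity) hs
  have hbig : ∀ n, ∃ s ∈ S, (2 : ℝ) ≤ ‖τ s (F n) - F n‖ ^ 2 := by
    intro n
    apply Finset.exists_le_of_sum_le hne
    rw [hsum n, Finset.sum_const, nsmul_eq_mul, mul_comm]
  choose s hs hs2 using hbig
  have hs1 : ∀ n, (1 : ℝ) ≤ ‖τ (s n) (F n) - F n‖ := by
    intro n
    nlinarith [hs2 n, norm_nonneg (τ (s n) (F n) - F n)]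
  set hh : ℕ → H := fun n => (‖τ (s n) (F n) - F n‖)⁻¹ • (τ (s n) (F n) - F n) with hhdef
  have hh1 : ∀ n, ‖hh n‖ = 1 := by
    intro n
    have := hs1 n
    rw [hhdef]
    simp only [norm_smul, norm_inv, norm_norm]
    exact inv_mul_cancel₀ (by linarith)
  set φ : ℕ → G → ℝ := fun n x => inner ℝ (τ x (F n) - F n) (hh n) with hφ
  have hφb : ∀ n x, |φ n x| ≤ ‖τ x (F n) - F n‖ := by
    intro n x
    have := abs_real_inner_le_norm (τ x (F n) - F n) (hh n)
    rwa [hh1, mul_one] at this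
  choose M hM using fun x => exists_bound S hgen τ F _ hle x
  -- the limit
  have hcomp : IsCompact (Set.pi Set.univ fun x => Set.Icc (-(M x)) (M x)) :=
    isCompact_univ_pi fun x => isCompact_Icc
  let U : Ultrafilter ℕ := hyperfilter ℕ
  have hmem : (U.map φ : Filter (G → ℝ)) ≤ 𝓟 (Set.pi Set.univ fun x => Set.Icc (-(M x)) (M x)) := by
    rw [le_principal_iff]
    have : φ ⁻¹' (Set.pi Set.univ fun x => Set.Icc (-(M x)) (M x)) ∈ (U : Filter ℕ) := by
      refine Filter.mem_of_superset Filter.univ_mem ?_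
      intro n _ x _
      exact abs_le.1 ((hφb n x).trans (hM x n))
    exact this
  obtain ⟨f, -, hf⟩ := hcomp.ultrafilter_le_nhds (U.map φ) hmem
  have hf' : Tendsto φ (U : Filter ℕ) (𝓝 f) := hf
  have hlim : ∀ x, Tendsto (fun n => φ n x) (U : Filter ℕ) (𝓝 (f x)) :=
    fun x => (tendsto_pi_nhds.1 hf') x
  have hUtop : (U : Filter ℕ) ≤ atTop := by
    rw [← Nat.cofinite_eq_atTop]
    exact hyperfilter_le_cofinite
  have hdiff : ∀ n x y, φ n (x * y) - φ n x = inner ℝ (τ x (τ y (F n) - F n)) (hh n) := by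
    intro n x y
    simp only [hφ]
    rw [← inner_sub_left]
    congr 1
    rw [tau_mul, map_sub]
    abel
  refine ⟨f, Real.sqrt (2 * S.card), ?_, ?_, ?_⟩
  · intro x
    have h3 : Tendsto (fun n => ∑ s ∈ S, φ n (x * s) - S.card * φ n x) (U : Filter ℕ)
        (𝓝 (∑ s ∈ S, f (x * s) - S.card * f x)) :=
      (tendsto_finsetSum _ fun s _ => hlim (x * s)).sub ((hlim x).const_mul _)
    have h4 : Tendsto (fun n => ∑ s ∈ S, φ n (x * s) - S.card * φ n x) (U : Filter ℕ) (𝓝 0) := by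
      have h5 : ∀ n : ℕ, ∑ s ∈ S, φ n (x * s) - S.card * φ n x
          = - (S.card * inner ℝ (τ x (F n - Av S τ (F n))) (hh n)) := by
        intro n
        have h6 : ∑ s ∈ S, φ n (x * s) - S.card * φ n x = ∑ s ∈ S, (φ n (x * s) - φ n x) := by
          rw [Finset.sum_sub_distrib, Finset.sum_const, nsmul_eq_mul]
        rw [h6, Finset.sum_congr rfl fun s _ => hdiff n x s, ← sum_inner, ← map_sum,
          Finset.sum_sub_distrib, Finset.sum_const]
        have h7 : ∑ s ∈ S, τ s (F n) - S.card • F n = -((S.card : ℝ) • (F n - Av S τ (F n))) := by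
          rw [Av, smul_sub, smul_smul, mul_inv_cancel₀ hN.ne', one_smul, neg_sub,
            Nat.cast_smul_eq_nsmul]
        rw [h7, map_neg, inner_neg_left, map_smul, inner_smul_left]
        simp
      have h8 : Tendsto (fun n : ℕ => (S.card : ℝ) * Real.sqrt (1 / ((n : ℝ) + 1))) atTop
          (𝓝 0) := by
        have h9 : Tendsto (fun n : ℕ => Real.sqrt (1 / ((n : ℝ) + 1))) atTop (𝓝 0) := by
          have := (Real.continuous_sqrt.tendsto 0).comp
            (tendsto_one_div_add_atTop_nhds_zero_nat (𝕜 := ℝ))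
          rw [Real.sqrt_zero] at this
          exact this
        simpa using h9.const_mul (S.card : ℝ)
      refine squeeze_zero_norm (fun n => ?_) (h8.mono_left hUtop)
      rw [h5 n, norm_neg, norm_mul, Real.norm_eq_abs, abs_of_pos hN]
      refine mul_le_mul_of_nonneg_left ?_ hN.le
      have h10 := abs_real_inner_le_norm (τ x (F n - Av S τ (F n))) (hh n)
      rw [hh1, mul_one, LinearIsometryEquiv.norm_map] at h10
      exact h10.trans (Real.le_sqrt_of_sq_le (hF2 n))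
    have := tendsto_nhds_unique h3 h4
    linarith
  · intro x s hs
    have h3 : Tendsto (fun n => |φ n (x * s) - φ n x|) (U : Filter ℕ)
        (𝓝 |f (x * s) - f x|) := ((hlim (x * s)).sub (hlim x)).abs
    refine le_of_tendsto h3 (Eventually.of_forall fun n => ?_)
    rw [hdiff]
    have h10 := abs_real_inner_le_norm (τ x (τ s (F n) - F n)) (hh n)
    rw [hh1, mul_one, LinearIsometryEquiv.norm_map] at h10
    exact h10.trans (hle n s hs)
  · by_contra hcon
    push Not at hcon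
    have hf1 : f 1 = 0 := by
      have h3 : Tendsto (fun n => φ n 1) (U : Filter ℕ) (𝓝 0) := by
        have : (fun n => φ n 1) = fun _ => 0 := by
          funext n
          simp [hφ]
        rw [this]
        exact tendsto_const_nhds
      exact tendsto_nhds_unique (hlim 1) h3
    have h3 : Tendsto (fun n => ∑ s ∈ S, |φ n s|) (U : Filter ℕ) (𝓝 (∑ s ∈ S, |f s|)) :=
      tendsto_finsetSum _ fun s _ => (hlim s).abs
    have h4 : (1 : ℝ) ≤ ∑ s ∈ S, |f s| := by
      refine ge_of_tendsto h3 (Eventually.of_forall fun n => ?_)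
      have h5 : φ n (s n) = ‖τ (s n) (F n) - F n‖ := by
        simp only [hφ, hhdef, inner_smul_right, real_inner_self_eq_norm_sq]
        have := hs1 n
        field_simp
      have h6 : |φ n (s n)| ≤ ∑ s ∈ S, |φ n s| :=
        Finset.single_le_sum (f := fun s => |φ n s|) (fun i _ => abs_nonneg _) (hs n)
      rw [h5, abs_of_nonneg (norm_nonneg _)] at h6
      exact (hs1 n).trans h6
    have h5 : ∑ s ∈ S, |f s| = 0 := by
      apply Finset.sum_eq_zero
      intro s _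
      rw [hcon s, hf1, abs_zero]
    linarith

end abstract

section concrete

variable {G : Type} [Group G]

/-- square summable functions -/
abbrev L2 (G : Type) : Type := lp (fun _ : G => ℝ) 2

theorem memTr (x : G) (f : L2 G) : Memℓp (fun y => f (x⁻¹ * y)) 2 := by
  have h2 : (0 : ℝ) < (2 : ENNReal).toReal := by norm_num
  rw [memℓp_gen_iff h2]
  have h3 := (memℓp_gen_iff h2).1 (lp.memℓp f)
  exact (Equiv.mulLeft x⁻¹).summable_iff.2 h3

/-- left translation as a function -/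
def trF (x : G) (f : L2 G) : L2 G := ⟨fun y => f (x⁻¹ * y), memTr x f⟩

theorem trF_apply (x : G) (f : L2 G) (y : G) : trF x f y = f (x⁻¹ * y) := rfl

theorem norm_trF (x : G) (f : L2 G) : ‖trF x f‖ = ‖f‖ := by
  have h2 : (0 : ℝ) < (2 : ENNReal).toReal := by norm_num
  rw [lp.norm_eq_tsum_rpow h2, lp.norm_eq_tsum_rpow h2]
  congr 1
  exact (Equiv.mulLeft x⁻¹).tsum_eq (fun y => ‖f y‖ ^ (2 : ENNReal).toReal)

/-- left translation as a linear isometry equivalence -/
def trE (x : G) : L2 G ≃ₗᵢ[ℝ] L2 G where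
  toFun f := trF x f
  invFun f := trF x⁻¹ f
  map_add' f g := by
    ext y
    rfl
  map_smul' c f := by
    ext y
    rfl
  left_inv f := by
    ext y
    simp [trF_apply, ← mul_assoc]
  right_inv f := by
    ext y
    simp [trF_apply, ← mul_assoc]
  norm_map' f := norm_trF x f

/-- left translation as a representation -/
def tr : G →* (L2 G ≃ₗᵢ[ℝ] L2 G) where
  toFun x := trE x
  map_one' := by
    ext f y
    change f (1⁻¹ * y) = f y
    simp
  map_mul' x z := by
    ext f y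
    change f ((x * z)⁻¹ * y) = f (z⁻¹ * (x⁻¹ * y))
    rw [mul_inv_rev, mul_assoc]

theorem tr_apply (x : G) (f : L2 G) (y : G) : tr x f y = f (x⁻¹ * y) := rfl

theorem Av_apply (S : Finset G) (f : L2 G) (y : G) :
    Av S tr f y = (S.card : ℝ)⁻¹ * ∑ s ∈ S, f (s⁻¹ * y) := by
  rw [Av, lp.coeFn_smul, Pi.smul_apply, smul_eq_mul, lp.coeFn_sum, Finset.sum_apply]
  rfl

open Classical in
/-- the distribution of the random walk -/
def pk (S : Finset G) : ℕ → L2 G
  | 0 => lp.single 2 1 (1 : ℝ)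
  | k + 1 => Av S tr (pk S k)

open Classical in
theorem pk_zero_apply (S : Finset G) (y : G) :
    pk S 0 y = if y = 1 then 1 else 0 := by
  rw [pk, lp.single_apply, Pi.single_apply]

theorem pk_hasSum (S : Finset G) (hne : S.Nonempty) (k : ℕ) : HasSum (fun y => pk S k y) 1 := by
  classical
  induction k with
  | zero =>
    have : (fun y => pk S 0 y) = fun y => if y = 1 then (1 : ℝ) else 0 := by
      funext y
      exact pk_zero_apply S y
    rw [this]
    exact hasSum_ite_eq 1 1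
  | succ k ih =>
    have hN : (S.card : ℝ) ≠ 0 := by
      have := hne.card_pos
      positivity
    have h1 : ∀ s ∈ S, HasSum (fun y => pk S k (s⁻¹ * y)) 1 := fun s _ =>
      (Equiv.mulLeft s⁻¹).hasSum_iff.2 ih
    have h2 := (hasSum_sum h1).mul_left (S.card : ℝ)⁻¹
    rw [Finset.sum_const, nsmul_eq_mul, mul_one, inv_mul_cancel₀ hN] at h2
    have : (fun y => pk S (k + 1) y) = fun y => (S.card : ℝ)⁻¹ * ∑ s ∈ S, pk S k (s⁻¹ * y) := by
      funext y
      rw [pk, Av_apply]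
    rw [this]
    exact h2

theorem pk_supp (S : Finset G) (k : ℕ) (y : G) (hy : y ∉ (S : Set G) ^ k) : pk S k y = 0 := by
  classical
  induction k generalizing y with
  | zero =>
    rw [pk_zero_apply, if_neg]
    simpa using hy
  | succ k ih =>
    rw [pk, Av_apply]
    have : ∑ s ∈ S, pk S k (s⁻¹ * y) = 0 := by
      apply Finset.sum_eq_zero
      intro s hs
      apply ih
      intro hc
      apply hy
      rw [pow_succ']
      exact ⟨s, hs, s⁻¹ * y, hc, by simp⟩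
    rw [this, mul_zero]

theorem pk_inner (S : Finset G) (hS : ∀ x ∈ S, x⁻¹ ∈ S) (i j : ℕ) :
    inner ℝ (pk S i) (pk S j) = pk S (i + j) 1 := by
  classical
  induction j generalizing i with
  | zero =>
    have h := lp.inner_single_right (𝕜 := ℝ) (G := fun _ : G => ℝ) (1 : G) (1 : ℝ) (pk S i)
    have h2 : pk S 0 = lp.single 2 (1 : G) (1 : ℝ) := rfl
    rw [h2]
    rw [h]
    simp
  | succ j ih =>
    have h : pk S (j + 1) = Av S tr (pk S j) := rfl
    rw [h, ← Av_symm S hS, show Av S tr (pk S i) = pk S (i + 1) from rfl, ih,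
      show i + 1 + j = i + (j + 1) by omega]

theorem pk_diff (S : Finset G) (hne : S.Nonempty) (k : ℕ) (s : G) (hs : s ∈ S) (y : G) :
    |pk S k (s⁻¹ * y) - pk S k y| ≤ Real.sqrt (2 * S.card * en S tr (pk S k)) := by
  have h1 : |pk S k (s⁻¹ * y) - pk S k y| ≤ ‖tr s (pk S k) - pk S k‖ := by
    have := lp.norm_apply_le_norm (p := 2) (by norm_num) (tr s (pk S k) - pk S k) y
    rw [lp.coeFn_sub, Pi.sub_apply, tr_apply, Real.norm_eq_abs] at this
    exact this
  refine h1.trans (Real.le_sqrt_of_sq_le ?_)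
  rw [← en_eq S hne]
  exact Finset.single_le_sum (f := fun s => ‖tr s (pk S k) - pk S k‖ ^ 2)
    (fun i _ => by positivity) hs

theorem pk_diff' (S : Finset G) (hne : S.Nonempty) (k j : ℕ) (y : G) (hy : y ∈ (S : Set G) ^ j) :
    |pk S k y - pk S k 1| ≤ j * Real.sqrt (2 * S.card * en S tr (pk S k)) := by
  induction j generalizing y with
  | zero =>
    rw [pow_zero, Set.mem_one] at hy
    rw [hy]
    simp
  | succ j ih =>
    rw [pow_succ'] at hy
    obtain ⟨s, hs, z, hz, rfl⟩ := hy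
    have h1 := ih z hz
    have h2 := pk_diff S hne k s hs (s * z)
    rw [inv_mul_cancel_left] at h2
    have h3 : pk S k (s * z) - pk S k 1
        = -(pk S k z - pk S k (s * z)) + (pk S k z - pk S k 1) := by ring
    simp only
    rw [h3]
    refine (abs_add_le _ _).trans ?_
    rw [abs_neg]
    push_cast
    linarith

theorem pow_subset_succ (S : Finset G) (h1 : (1 : G) ∈ S) (k : ℕ) :
    (S : Set G) ^ k ⊆ (S : Set G) ^ (k + 1) := by
  intro y hy
  rw [pow_succ']
  exact ⟨1, h1, y, hy, by simp⟩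

theorem pow_finite (S : Finset G) (k : ℕ) : ((S : Set G) ^ k).Finite := by
  classical
  rw [← Finset.coe_pow]
  exact Finset.finite_toSet _

theorem exists_new [Infinite G] (S : Finset G) (h1 : (1 : G) ∈ S)
    (hS : ∀ x ∈ S, x⁻¹ ∈ S) (hgen : Subgroup.closure (S : Set G) = ⊤) (k : ℕ) :
    ∃ y ∈ (S : Set G) ^ (k + 1), y ∉ (S : Set G) ^ k := by
  by_contra hcon
  push Not at hcon
  have hall : ∀ x : G, x ∈ (S : Set G) ^ k := by
    intro x
    have hx : x ∈ Subgroup.closure (S : Set G) := by rw [hgen]; trivial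
    induction hx using Subgroup.closure_induction_left with
    | one =>
      clear hcon
      induction k with
      | zero => simp
      | succ k ih => exact pow_subset_succ S h1 k ih
    | mul_left s hs y _ ih =>
      apply hcon
      rw [pow_succ']
      exact ⟨s, hs, y, ih, rfl⟩
    | inv_mul_cancel s hs y _ ih =>
      apply hcon
      rw [pow_succ']
      exact ⟨s⁻¹, hS s hs, y, ih, rfl⟩
  have hfin : (Set.univ : Set G).Finite := (pow_finite S k).subset fun x _ => hall x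
  exact Set.infinite_univ hfin

theorem pk_one_le [Infinite G] (S : Finset G) (h1 : (1 : G) ∈ S)
    (hS : ∀ x ∈ S, x⁻¹ ∈ S) (hgen : Subgroup.closure (S : Set G) = ⊤) (k : ℕ) :
    pk S k 1 ≤ (k + 1) * Real.sqrt (2 * S.card * en S tr (pk S k)) := by
  obtain ⟨y, hy, hy2⟩ := exists_new S h1 hS hgen k
  have h2 := pk_diff' S ⟨1, h1⟩ k (k + 1) y hy
  rw [pk_supp S k y hy2] at h2
  have h3 := neg_abs_le (0 - pk S k 1)
  push_cast at h2
  linarith

theorem pk_lower (S : Finset G) (h1 : (1 : G) ∈ S) (hS : ∀ x ∈ S, x⁻¹ ∈ S) (j : ℕ) :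
    1 ≤ (((S : Set G) ^ j).ncard : ℝ) * pk S (j + j) 1 := by
  classical
  have h2 := pk_hasSum S ⟨1, h1⟩ j
  set A := (pow_finite S j).toFinset with hA
  have h3 : HasSum (fun y => pk S j y) (∑ y ∈ A, pk S j y) := by
    apply hasSum_sum_of_ne_finset_zero
    intro y hy
    apply pk_supp
    simpa [hA] using hy
  have h4 : ∑ y ∈ A, pk S j y = 1 := h3.unique h2
  have h5 : (∑ y ∈ A, pk S j y) ^ 2 ≤ A.card * ∑ y ∈ A, pk S j y ^ 2 := sq_sum_le_card_mul_sum_sq
  have h6 : ∑ y ∈ A, pk S j y ^ 2 ≤ inner ℝ (pk S j) (pk S j) := by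
    have h7 := lp.hasSum_inner (𝕜 := ℝ) (pk S j) (pk S j)
    have h8 := sum_le_hasSum A (fun y _ => by
      change (0 : ℝ) ≤ inner ℝ (pk S j y) (pk S j y)
      exact real_inner_self_nonneg) h7
    refine le_trans (le_of_eq ?_) h8
    apply Finset.sum_congr rfl
    intro y _
    rw [real_inner_self_eq_norm_sq, Real.norm_eq_abs, sq_abs]
  rw [pk_inner S hS] at h6
  rw [h4, one_pow] at h5
  have h7 : A.card = ((S : Set G) ^ j).ncard := (Set.ncard_eq_toFinset_card _ (pow_finite S j)).symm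
  rw [← h7]
  calc (1 : ℝ) ≤ _ := h5
    _ ≤ _ := mul_le_mul_of_nonneg_left h6 (by positivity)

end concrete

end

end Pool.Agent.TH719.ED.H541

namespace Pool.Agent.TH719.ED

open scoped Pointwise
open H541 Filter Topology

theorem exists_harmonic {G : Type} [Group G] [Infinite G] (S : Finset G) (h1 : (1 : G) ∈ S)
    (hS : ∀ x ∈ S, x⁻¹ ∈ S) (hgen : Subgroup.closure (S : Set G) = ⊤)
    (hpoly : ∃ C d : ℕ, ∀ n : ℕ, ((S : Set G) ^ n).ncard ≤ C * (n + 1) ^ d) :
    ∃ (f : G → ℝ) (L : ℝ), (∀ x, ∑ s ∈ S, f (x * s) = S.card * f x) ∧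
      (∀ x, ∀ s ∈ S, |f (x * s) - f x| ≤ L) ∧ ∃ x, f x ≠ f 1 := by
  have hne : S.Nonempty := ⟨1, h1⟩
  have hN : 0 < (S.card : ℝ) := by exact_mod_cast hne.card_pos
  apply exists_of_approx S h1 hgen (tr : G →* (L2 G ≃ₗᵢ[ℝ] L2 G))
  by_contra hcon
  push Not at hcon
  obtain ⟨δ, hδ, hcon⟩ := hcon
  obtain ⟨C, d, hC⟩ := hpoly
  set e : ℕ → ℝ := fun k => en S tr (pk S k) with he
  have he0 : ∀ k, 0 ≤ e k := fun k => en_nonneg S hne tr (pk S k)
  set ρ : ℝ := max (1 - 2 / (S.card : ℝ) * δ) (1 / 2) with hρ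
  have hρ0 : 0 < ρ := lt_of_lt_of_le (by norm_num) (le_max_right _ _)
  have hρ1 : ρ < 1 := by
    apply max_lt
    · have : 0 < 2 / (S.card : ℝ) * δ := by positivity
      linarith
    · norm_num
  have hstep : ∀ k, e (k + 1) ≤ ρ * e k := by
    intro k
    have h2 : e (k + 1) + 2 / (S.card : ℝ) * ‖pk S k - Av S tr (pk S k)‖ ^ 2 ≤ e k :=
      en_Av S h1 hS tr (pk S k)
    have h3 : δ * e k ≤ ‖pk S k - Av S tr (pk S k)‖ ^ 2 := by
      rcases (he0 k).lt_or_eq with h | h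
      · exact (hcon (pk S k) h).le
      · rw [← h, mul_zero]
        positivity
    have h4 : 2 / (S.card : ℝ) * (δ * e k)
        ≤ 2 / (S.card : ℝ) * ‖pk S k - Av S tr (pk S k)‖ ^ 2 :=
      mul_le_mul_of_nonneg_left h3 (by positivity)
    have h5 : (1 - 2 / (S.card : ℝ) * δ) * e k ≤ ρ * e k :=
      mul_le_mul_of_nonneg_right (le_max_left _ _) (he0 k)
    nlinarith
  have hpow : ∀ k, e k ≤ ρ ^ k * e 0 := by
    intro k
    induction k with
    | zero => simp
    | succ k ih =>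
      refine (hstep k).trans ?_
      rw [pow_succ']
      rw [mul_assoc]
      exact mul_le_mul_of_nonneg_left ih hρ0.le
  have hmain : ∀ j : ℕ, (1 : ℝ) ≤ (2 * C * Real.sqrt (2 * S.card * e 0) * ρ⁻¹)
      * (((j + 1 : ℕ) : ℝ) ^ (d + 1) * ρ ^ (j + 1)) := by
    intro j
    have h2 := pk_lower S h1 hS j
    have h3 := pk_one_le S h1 hS hgen (j + j)
    have h4 : Real.sqrt (2 * S.card * en S tr (pk S (j + j)))
        ≤ Real.sqrt (2 * S.card * e 0) * ρ ^ j := by
      apply Real.sqrt_le_iff.2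
      refine ⟨by positivity, ?_⟩
      have h5 : 0 ≤ 2 * (S.card : ℝ) * e 0 := by
        have := he0 0
        positivity
      rw [mul_pow, Real.sq_sqrt h5]
      have h6 := hpow (j + j)
      have h7 : ρ ^ (j + j) = (ρ ^ j) ^ 2 := by rw [pow_add, sq]
      rw [h7] at h6
      calc 2 * (S.card : ℝ) * e (j + j) ≤ 2 * (S.card : ℝ) * ((ρ ^ j) ^ 2 * e 0) :=
            mul_le_mul_of_nonneg_left h6 (by positivity)
        _ = _ := by ring
    have h5 : ((((S : Set G) ^ j).ncard : ℕ) : ℝ) ≤ C * ((j : ℝ) + 1) ^ d := by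
      exact_mod_cast hC j
    have h6 : (0 : ℝ) ≤ Real.sqrt (2 * S.card * e 0) * ρ ^ j := by positivity
    calc (1 : ℝ) ≤ (((S : Set G) ^ j).ncard : ℝ) * pk S (j + j) 1 := h2
      _ ≤ (((S : Set G) ^ j).ncard : ℝ)
          * ((((j + j : ℕ) : ℝ) + 1) * (Real.sqrt (2 * S.card * e 0) * ρ ^ j)) := by
        refine mul_le_mul_of_nonneg_left (h3.trans ?_) (by positivity)
        exact mul_le_mul_of_nonneg_left h4 (by positivity)
      _ ≤ (C * ((j : ℝ) + 1) ^ d)
          * ((((j + j : ℕ) : ℝ) + 1) * (Real.sqrt (2 * S.card * e 0) * ρ ^ j)) :=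
        mul_le_mul_of_nonneg_right h5 (by positivity)
      _ ≤ (C * ((j : ℝ) + 1) ^ d)
          * ((2 * ((j : ℝ) + 1)) * (Real.sqrt (2 * S.card * e 0) * ρ ^ j)) := by
        refine mul_le_mul_of_nonneg_left (mul_le_mul_of_nonneg_right ?_ h6) (by positivity)
        push_cast
        linarith
      _ = _ := by
        push_cast
        field_simp
        ring
  have hlim : Tendsto (fun j : ℕ => (2 * C * Real.sqrt (2 * S.card * e 0) * ρ⁻¹)
      * (((j + 1 : ℕ) : ℝ) ^ (d + 1) * ρ ^ (j + 1))) atTop (𝓝 0) := by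
    have h2 := tendsto_pow_const_mul_const_pow_of_abs_lt_one (d + 1)
      (r := ρ) (by rw [abs_of_pos hρ0]; exact hρ1)
    have h3 := (h2.comp (tendsto_add_atTop_nat 1)).const_mul
      (2 * C * Real.sqrt (2 * S.card * e 0) * ρ⁻¹)
    rw [mul_zero] at h3
    exact h3
  have := ge_of_tendsto' hlim hmain
  linarith

end Pool.Agent.TH719.ED
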