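import Pool.Agent.TH948.HT.Defs
import Pool.Agent.TH757.HT.LP

set_option autoImplicit false
set_option linter.unusedSectionVars false

/-!
# From the L1 inequality to a fractional decomposition (job HT-5 of helper948, written by helper541)
-/

namespace Pool.Agent.TH541.HT5

open Finset
open scoped Classical
open Pool.Agent.TH965.Spread Pool.Agent.TH948.KK Pool.Agent.TH948.BD Pool.Agent.TH948.HT

/-- the statement of `lp_dual` -/
def LPD : Prop := ∀ (X Y : Type) (F : Finset X) (E : Finset Y) (A : X → Y → ℝ) (b : X → ℝ)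
  (w0 : Y → ℝ), (∀ e, 0 ≤ w0 e) →
  (∀ y : X → ℝ, ∑ f ∈ F, y f * (b f - ∑ e ∈ E, A f e * w0 e) ≤
    ∑ e ∈ E, w0 e * |∑ f ∈ F, A f e * y f|) →
  ∃ w : Y → ℝ, (∀ e ∈ E, 0 ≤ w e ∧ w e ≤ 2 * w0 e) ∧ ∀ f ∈ F, ∑ e ∈ E, A f e * w e = b f

theorem two_choices {n k : ℕ} (hk : 2 ≤ k) {h E : Finset (Fin n)} (hh : h.card = k - 1)
    (hE : E.card = k) (hn : ¬ h ⊆ E) (S : Finset (Finset (Fin n)))
    (hS : ∀ e ∈ S, e.card = k ∧ h ⊆ e ∧ k - 1 ≤ (e ∩ E).card) : S.card ≤ 2 := by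
  rcases S.eq_empty_or_nonempty with rfl | ⟨e0, he0⟩
  · simp
  have hlt : (h ∩ E).card < h.card := by
    apply Finset.card_lt_card
    refine ⟨Finset.inter_subset_left, fun hsub => hn fun x hx => (Finset.mem_inter.1 (hsub hx)).2⟩
  have key : ∀ e ∈ S, ∃ x ∈ E \ h, insert x h = e ∧ k - 1 ≤ (h ∩ E).card + 1 := by
    intro e he
    obtain ⟨h1, h2, h3⟩ := hS e he
    have hc : (e \ h).card = 1 := by
      rw [Finset.card_sdiff_of_subset h2, h1, hh]; omega
    obtain ⟨x, hx⟩ := Finset.card_eq_one.1 hc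
    have hxe : x ∈ e \ h := by rw [hx]; exact Finset.mem_singleton_self x
    have hins : insert x h = e := by
      rw [Finset.insert_eq, ← hx, Finset.sdiff_union_of_subset h2]
    have hxE : x ∈ E := by
      by_contra hxE
      have : e ∩ E = h ∩ E := by rw [← hins, Finset.insert_inter_of_notMem hxE]
      rw [this] at h3
      omega
    refine ⟨x, Finset.mem_sdiff.2 ⟨hxE, (Finset.mem_sdiff.1 hxe).2⟩, hins, ?_⟩
    have : e ∩ E = insert x (h ∩ E) := by rw [← hins, Finset.insert_inter_of_mem hxE]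
    rw [this] at h3
    exact h3.trans (Finset.card_insert_le _ _)
  have hcard : (E \ h).card ≤ 2 := by
    obtain ⟨x, _, _, h3⟩ := key e0 he0
    rw [Finset.card_sdiff, hE]
    omega
  calc S.card ≤ ((E \ h).image (fun x => insert x h)).card := by
        apply Finset.card_le_card
        intro e he
        obtain ⟨x, hx, hx2, _⟩ := key e he
        exact Finset.mem_image.2 ⟨x, hx, hx2⟩
    _ ≤ (E \ h).card := Finset.card_image_le
    _ ≤ 2 := hcard

theorem mem_facets {n k : ℕ} {f : Finset (Fin n)} : f ∈ facets n k ↔ f.card = k - 1 := by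
  simp [facets]

theorem mem_edges {n k : ℕ} {f : Finset (Fin n)} : f ∈ edges n k ↔ f.card = k := by
  simp [edges]

theorem deg_mono {n : ℕ} {A B : Finset (Finset (Fin n))} (h : A ⊆ B) (f : Finset (Fin n)) :
    deg A f ≤ deg B f :=
  Finset.card_le_card (Finset.filter_subset_filter _ h)

noncomputable section

/-- the bad facets -/
def Bd (n k : ℕ) (H₁ : Finset (Finset (Fin n))) : Finset (Finset (Fin n)) :=
  (facets n k).filter (fun f => (deg H₁ f : ℝ) < 1 / 20 * Real.log n)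

/-- the facets of the chosen edges at bad facets -/
def F1 (n k : ℕ) (H₁ : Finset (Finset (Fin n))) (E : Finset (Fin n) → Finset (Fin n)) :
    Finset (Finset (Fin n)) :=
  (facets n k).filter (fun g => ∃ f ∈ Bd n k H₁, g ⊆ E f)

/-- the other facets -/
def Fp (n k : ℕ) (H₁ : Finset (Finset (Fin n))) (E : Finset (Fin n) → Finset (Fin n)) :
    Finset (Finset (Fin n)) :=
  (facets n k).filter (fun g => g ∉ F1 n k H₁ E)

/-- the edges without facets in `F1` -/
def Hp (n k : ℕ) (H₁ H : Finset (Finset (Fin n))) (E : Finset (Fin n) → Finset (Fin n)) :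
    Finset (Finset (Fin n)) :=
  H.filter (fun e => ∀ g ∈ F1 n k H₁ E, ¬ g ⊆ e)

end

section comb

variable {n k : ℕ} {H₁ H H₂ : Finset (Finset (Fin n))} {E : Finset (Fin n) → Finset (Fin n)}

theorem chain (hH2 : H ⊆ H₂) (hQ2 : Q2 k (1 / 20) H₁ H₂)
    (hE : ∀ f ∈ facets n k, E f ∈ H ∧ f ⊆ E f) {f f' : Finset (Fin n)} (hf : f ∈ Bd n k H₁)
    (hf' : f' ∈ Bd n k H₁) {e₂ e₃ : Finset (Fin n)} (h2 : e₂ ∈ H₂) (h3 : e₃ ∈ H₂)
    (a : k - 1 ≤ (E f ∩ e₂).card) (b : k - 1 ≤ (e₂ ∩ e₃).card) (c : k - 1 ≤ (e₃ ∩ E f').card) :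
    f = f' := by
  obtain ⟨hf1, hf2⟩ := Finset.mem_filter.1 hf
  obtain ⟨hf1', hf2'⟩ := Finset.mem_filter.1 hf'
  exact hQ2 f hf1 f' hf1' hf2 hf2' (E f) (hH2 (hE f hf1).1) e₂ h2 e₃ h3 (E f')
    (hH2 (hE f' hf1').1) (hE f hf1).2 a b c (hE f' hf1').2

theorem card_inter_ge {g a b : Finset (Fin n)} (hg : g.card = k - 1) (ha : g ⊆ a) (hb : g ⊆ b) :
    k - 1 ≤ (a ∩ b).card := by
  rw [← hg]
  exact Finset.card_le_card (Finset.subset_inter ha hb)

theorem uniq (hH2 : H ⊆ H₂) (hQ2 : Q2 k (1 / 20) H₁ H₂)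
    (hE : ∀ f ∈ facets n k, E f ∈ H ∧ f ⊆ E f) {f f' g : Finset (Fin n)} (hf : f ∈ Bd n k H₁)
    (hf' : f' ∈ Bd n k H₁) (hg : g.card = k - 1) (h1 : g ⊆ E f) (h2 : g ⊆ E f') : f = f' := by
  have hf1' := (Finset.mem_filter.1 hf').1
  exact chain hH2 hQ2 hE hf hf' (hH2 (hE f' hf1').1) (hH2 (hE f' hf1').1)
    (card_inter_ge hg h1 h2) (card_inter_ge hg h2 h2) (card_inter_ge hg h2 h2)

theorem few (hk : 2 ≤ k) (hH2 : H ⊆ H₂) (hH2e : H₂ ⊆ edges n k) (hQ2 : Q2 k (1 / 20) H₁ H₂)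
    (hE : ∀ f ∈ facets n k, E f ∈ H ∧ f ⊆ E f) {h : Finset (Fin n)} (hh : h ∈ Fp n k H₁ E) :
    (H.filter (fun e => h ⊆ e ∧ ∃ g ∈ F1 n k H₁ E, g ⊆ e)).card ≤ 2 := by
  obtain ⟨hh1, hh2⟩ := Finset.mem_filter.1 hh
  have hhc := mem_facets.1 hh1
  rcases (H.filter (fun e => h ⊆ e ∧ ∃ g ∈ F1 n k H₁ E, g ⊆ e)).eq_empty_or_nonempty with h0 | ⟨e0, he0⟩
  · rw [h0]; simp
  obtain ⟨h1, h2, g0, hg0, hg0e⟩ := Finset.mem_filter.1 he0
  obtain ⟨hg1, f, hf, hgf⟩ := Finset.mem_filter.1 hg0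
  have hgc := mem_facets.1 hg1
  have hfF := (Finset.mem_filter.1 hf).1
  refine two_choices (E := E f) hk hhc (mem_edges.1 (hH2e (hH2 (hE f hfF).1))) ?_ _ ?_
  · intro hsub
    exact hh2 (Finset.mem_filter.2 ⟨hh1, f, hf, hsub⟩)
  · intro e he
    obtain ⟨k1, k2, g, hg, hge⟩ := Finset.mem_filter.1 he
    obtain ⟨hg1', f', hf', hgf'⟩ := Finset.mem_filter.1 hg
    have hgc' := mem_facets.1 hg1'
    have heq : f = f' := chain hH2 hQ2 hE hf hf' (hH2 h1) (hH2 k1) (card_inter_ge hgc hgf hg0e)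
      (card_inter_ge hhc h2 k2) (card_inter_ge hgc' hge hgf')
    subst heq
    exact ⟨mem_edges.1 (hH2e (hH2 k1)), k2, card_inter_ge hgc' hge hgf'⟩

theorem deg_Hp (hk : 2 ≤ k) (hH2 : H ⊆ H₂) (hH2e : H₂ ⊆ edges n k)
    (hQ2 : Q2 k (1 / 20) H₁ H₂)
    (hE : ∀ f ∈ facets n k, E f ∈ H ∧ f ⊆ E f) {h : Finset (Fin n)} (hh : h ∈ Fp n k H₁ E) :
    deg H h ≤ deg (Hp n k H₁ H E) h + 2 := by
  have h1 := few hk hH2 hH2e hQ2 hE hh
  have h2 : H.filter (fun e => h ⊆ e) ⊆ (Hp n k H₁ H E).filter (fun e => h ⊆ e) ∪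
      H.filter (fun e => h ⊆ e ∧ ∃ g ∈ F1 n k H₁ E, g ⊆ e) := by
    intro e he
    obtain ⟨k1, k2⟩ := Finset.mem_filter.1 he
    by_cases hx : ∃ g ∈ F1 n k H₁ E, g ⊆ e
    · exact Finset.mem_union_right _ (Finset.mem_filter.2 ⟨k1, k2, hx⟩)
    · refine Finset.mem_union_left _ (Finset.mem_filter.2 ⟨Finset.mem_filter.2 ⟨k1, ?_⟩, k2⟩)
      intro g hg hge
      exact hx ⟨g, hg, hge⟩
  have h3 := (Finset.card_le_card h2).trans (Finset.card_union_le _ _)
  unfold deg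
  omega

theorem diff_Hp (hk : 2 ≤ k) (h1H : H₁ ⊆ H) (hH2 : H ⊆ H₂) (hH2e : H₂ ⊆ edges n k)
    (hQ2 : Q2 k (1 / 20) H₁ H₂)
    (hE : ∀ f ∈ facets n k, E f ∈ H ∧ f ⊆ E f) {h : Finset (Fin n)} (hh : h ∈ Fp n k H₁ E) :
    ((H₁.filter (fun e => h ⊆ e)) \ Hp n k H₁ H E).card ≤ 2 := by
  refine (Finset.card_le_card ?_).trans (few hk hH2 hH2e hQ2 hE hh)
  intro e he
  obtain ⟨k1, k2⟩ := Finset.mem_sdiff.1 he
  obtain ⟨k3, k4⟩ := Finset.mem_filter.1 k1
  refine Finset.mem_filter.2 ⟨h1H k3, k4, ?_⟩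
  by_contra hx
  push Not at hx
  exact k2 (Finset.mem_filter.2 ⟨h1H k3, hx⟩)

end comb

section weight

variable {n k : ℕ}

/-- the factor of a facet -/
noncomputable def ph (d : ℝ) (T : Finset (Fin n) → Prop) (H' : Finset (Finset (Fin n)))
    (g : Finset (Fin n)) : ℝ :=
  if T g then 1 else d / deg H' g

/-- the initial weight -/
noncomputable def w0 (k : ℕ) (d : ℝ) (T : Finset (Fin n) → Prop) (H' : Finset (Finset (Fin n)))
    (e : Finset (Fin n)) : ℝ :=
  1 / d * ∏ g ∈ e.powersetCard (k - 1), ph d T H' g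

theorem ph_nonneg {d : ℝ} (hd : 0 < d) (T : Finset (Fin n) → Prop)
    (H' : Finset (Finset (Fin n))) (g : Finset (Fin n)) : 0 ≤ ph d T H' g := by
  unfold ph; split_ifs
  · norm_num
  · positivity

theorem w0_nonneg {d : ℝ} (hd : 0 < d) (T : Finset (Fin n) → Prop)
    (H' : Finset (Finset (Fin n))) (e : Finset (Fin n)) : 0 ≤ w0 k d T H' e := by
  unfold w0
  exact mul_nonneg (by positivity) (Finset.prod_nonneg fun g _ => ph_nonneg hd T H' g)

theorem card_pc (hk : 2 ≤ k) {e : Finset (Fin n)} (he : e.card = k) :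
    (e.powersetCard (k - 1)).card = k := by
  obtain ⟨m, rfl⟩ : ∃ m, k = m + 1 := ⟨k - 1, by omega⟩
  rw [Finset.card_powersetCard, he, Nat.add_sub_cancel, Nat.choose_succ_self_right]

theorem w0_ge (hk : 2 ≤ k) {d lo : ℝ} (hd : 0 < d) (hlo : 0 ≤ lo) (T : Finset (Fin n) → Prop)
    (H' : Finset (Finset (Fin n))) {e : Finset (Fin n)} (he : e.card = k)
    (hph : ∀ g ∈ e.powersetCard (k - 1), lo ≤ ph d T H' g) :
    1 / d * lo ^ k ≤ w0 k d T H' e := by
  unfold w0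
  apply mul_le_mul_of_nonneg_left _ (by positivity)
  calc lo ^ k = ∏ _g ∈ e.powersetCard (k - 1), lo := by rw [Finset.prod_const, card_pc hk he]
    _ ≤ _ := Finset.prod_le_prod (fun _ _ => hlo) hph

theorem w0_le (hk : 2 ≤ k) {d hi : ℝ} (hd : 0 < d) (T : Finset (Fin n) → Prop)
    (H' : Finset (Finset (Fin n))) {e : Finset (Fin n)} (he : e.card = k)
    (hph : ∀ g ∈ e.powersetCard (k - 1), ph d T H' g ≤ hi) :
    w0 k d T H' e ≤ 1 / d * hi ^ k := by
  unfold w0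
  apply mul_le_mul_of_nonneg_left _ (by positivity)
  calc _ ≤ ∏ _g ∈ e.powersetCard (k - 1), hi :=
        Finset.prod_le_prod (fun g _ => ph_nonneg hd T H' g) hph
    _ = hi ^ k := by rw [Finset.prod_const, card_pc hk he]

theorem sum_w0 (hk : 2 ≤ k) {d δ : ℝ} {K : ℕ} (T : Finset (Fin n) → Prop)
    (H' : Finset (Finset (Fin n))) (hHe : H' ⊆ edges n k) (hd : 0 < d) (hδ : 0 ≤ δ)
    {h : Finset (Fin n)} (hh : h.card = k - 1)
    (hφ : ∀ g, g.card = k - 1 → (∃ e ∈ H', g ⊆ e) → ph d T H' g ≤ 40 * k)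
    (hK : (H'.filter (fun e => h ⊆ e ∧ ∃ g ∈ facets n k, g ≠ h ∧ g ⊆ e ∧ ¬ T g)).card ≤ K)
    (htyp : T h → |(deg H' h : ℝ) / d - 1| ≤ 4 * δ + 2 / d) (hdeg : 0 < deg H' h) :
    |∑ e ∈ H'.filter (fun e => h ⊆ e), w0 k d T H' e - 1| ≤
      4 * δ + 2 / d + K * ((40 * k) ^ k / d) := by
  set D := H'.filter (fun e => h ⊆ e ∧ ∃ g ∈ facets n k, g ≠ h ∧ g ⊆ e ∧ ¬ T g) with hD
  set M : ℝ := (40 * (k : ℝ)) ^ k with hM
  have hk' : (2 : ℝ) ≤ k := by exact_mod_cast hk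
  have hM1 : 40 * (k : ℝ) ≤ M := le_self_pow₀ (by linarith) (by omega)
  have hMd : 0 ≤ M / d := div_nonneg (by linarith) hd.le
  have hne : ∃ e ∈ H', h ⊆ e := by
    unfold deg at hdeg
    obtain ⟨e, he⟩ := Finset.card_pos.1 hdeg
    exact ⟨e, (Finset.mem_filter.1 he).1, (Finset.mem_filter.1 he).2⟩
  have hφh : ph d T H' h ≤ 40 * k := hφ h hh hne
  have hφh0 := ph_nonneg hd T H' h
  have h1 : |∑ e ∈ H'.filter (fun e => h ⊆ e), (w0 k d T H' e - ph d T H' h / d)| ≤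
      K * (M / d) := by
    refine (Finset.abs_sum_le_sum_abs _ _).trans ?_
    have h2 : ∀ e ∈ H'.filter (fun e => h ⊆ e), |w0 k d T H' e - ph d T H' h / d| ≤
        if e ∈ D then M / d else 0 := by
      intro e he
      obtain ⟨k1, k2⟩ := Finset.mem_filter.1 he
      have hec := mem_edges.1 (hHe k1)
      split_ifs with heD
      · have a1 : w0 k d T H' e ≤ M / d := by
          have := w0_le hk hd T H' hec (hi := 40 * k) (fun g hg => by
            obtain ⟨g1, g2⟩ := Finset.mem_powersetCard.1 hg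
            exact hφ g g2 ⟨e, k1, g1⟩)
          calc _ ≤ _ := this
            _ = M / d := by rw [hM]; ring
        have a2 := w0_nonneg (k := k) hd T H' e
        have a3 : ph d T H' h / d ≤ M / d := by
          apply div_le_div_of_nonneg_right _ hd.le
          linarith
        have a4 : 0 ≤ ph d T H' h / d := div_nonneg hφh0 hd.le
        rw [abs_le]; constructor <;> linarith
      · have : w0 k d T H' e = ph d T H' h / d := by
          unfold w0
          rw [Finset.prod_eq_single h]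
          · ring
          · intro g hg hgh
            obtain ⟨g1, g2⟩ := Finset.mem_powersetCard.1 hg
            have hT : T g := by
              by_contra hT
              exact heD (Finset.mem_filter.2 ⟨k1, k2, g, mem_facets.2 g2, hgh, g1, hT⟩)
            unfold ph
            rw [if_pos hT]
          · intro hx
            exact absurd (Finset.mem_powersetCard.2 ⟨k2, hh⟩) hx
        rw [this, sub_self, abs_zero]
    refine (Finset.sum_le_sum h2).trans ?_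
    rw [← Finset.sum_filter, Finset.sum_const, nsmul_eq_mul]
    apply mul_le_mul_of_nonneg_right _ hMd
    have : ((H'.filter (fun e => h ⊆ e)).filter (fun e => e ∈ D)).card ≤ D.card :=
      Finset.card_le_card fun e he => (Finset.mem_filter.1 he).2
    exact_mod_cast this.trans hK
  have h3 : |(deg H' h : ℝ) * (ph d T H' h / d) - 1| ≤ 4 * δ + 2 / d := by
    by_cases hT : T h
    · have : ph d T H' h = 1 := by unfold ph; rw [if_pos hT]
      rw [this]
      have := htyp hT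
      rwa [mul_one_div]
    · have h4 : ph d T H' h = d / deg H' h := by unfold ph; rw [if_neg hT]
      have h5 : (deg H' h : ℝ) ≠ 0 := by exact_mod_cast hdeg.ne'
      have h6 : (deg H' h : ℝ) * (ph d T H' h / d) = 1 := by
        rw [h4]; field_simp
      rw [h6, sub_self, abs_zero]
      positivity
  have h7 : ∑ e ∈ H'.filter (fun e => h ⊆ e), w0 k d T H' e - 1 =
      ∑ e ∈ H'.filter (fun e => h ⊆ e), (w0 k d T H' e - ph d T H' h / d) +
        ((deg H' h : ℝ) * (ph d T H' h / d) - 1) := by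
    rw [Finset.sum_sub_distrib, Finset.sum_const, nsmul_eq_mul]
    unfold deg
    ring
  rw [h7]
  calc _ ≤ _ := abs_add_le _ _
    _ ≤ K * (M / d) + (4 * δ + 2 / d) := add_le_add h1 h3
    _ = _ := by ring

end weight

section main

variable {n k : ℕ} {H₁ H H₂ : Finset (Finset (Fin n))} {E : Finset (Fin n) → Finset (Fin n)}

theorem Hp_subset : Hp n k H₁ H E ⊆ H := Finset.filter_subset _ _

theorem Fp_subset : Fp n k H₁ E ⊆ facets n k := Finset.filter_subset _ _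

theorem mem_Fp_of_Hp {e g : Finset (Fin n)} (he : e ∈ Hp n k H₁ H E) (hg : g.card = k - 1)
    (hge : g ⊆ e) : g ∈ Fp n k H₁ E :=
  Finset.mem_filter.2 ⟨mem_facets.2 hg, fun h => (Finset.mem_filter.1 he).2 g h hge⟩

/-- the final assembly of the weights -/
theorem frac_of (hH2 : H ⊆ H₂) (hQ2 : Q2 k (1 / 20) H₁ H₂)
    (hE : ∀ f ∈ facets n k, E f ∈ H ∧ f ⊆ E f) (w : Finset (Fin n) → ℝ)
    (hw : ∀ e ∈ Hp n k H₁ H E, 0 ≤ w e ∧ w e ≤ 1)
    (hs : ∀ f ∈ Fp n k H₁ E, ∑ e ∈ (Hp n k H₁ H E).filter (fun e => f ⊆ e), w e = 1) :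
    Frac k H := by
  refine ⟨fun e => if e ∈ Hp n k H₁ H E then w e else
    if ∃ f ∈ Bd n k H₁, E f = e then 1 else 0, ?_, ?_⟩
  · intro e
    dsimp only
    split_ifs with h1 h2
    · exact hw e h1
    · norm_num
    · norm_num
  · intro f hf
    have hfc := mem_facets.1 hf
    by_cases hf1 : f ∈ F1 n k H₁ E
    · obtain ⟨_, f0, hf0, hff0⟩ := Finset.mem_filter.1 hf1
      have hf0F := (Finset.mem_filter.1 hf0).1
      have hout : ∀ e, f ⊆ e → e ∉ Hp n k H₁ H E := fun e hfe he =>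
        (Finset.mem_filter.1 he).2 f hf1 hfe
      rw [Finset.sum_eq_single (E f0)]
      · rw [if_neg (hout _ hff0), if_pos ⟨f0, hf0, rfl⟩]
      · intro e he hne
        obtain ⟨k1, k2⟩ := Finset.mem_filter.1 he
        rw [if_neg (hout _ k2), if_neg]
        rintro ⟨f1, hf1, rfl⟩
        apply hne
        rw [uniq hH2 hQ2 hE hf1 hf0 hfc k2 hff0]
      · intro hx
        exact absurd (Finset.mem_filter.2 ⟨(hE f0 hf0F).1, hff0⟩) hx
    · have hfp : f ∈ Fp n k H₁ E := Finset.mem_filter.2 ⟨hf, hf1⟩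
      rw [← hs f hfp]
      symm
      have hsub : (Hp n k H₁ H E).filter (fun e => f ⊆ e) ⊆ H.filter (fun e => f ⊆ e) :=
        Finset.filter_subset_filter _ Hp_subset
      rw [← Finset.sum_subset hsub]
      · refine Finset.sum_congr rfl fun e he => ?_
        rw [if_pos (Finset.mem_filter.1 he).1]
      · intro e he hne
        obtain ⟨k1, k2⟩ := Finset.mem_filter.1 he
        have h1 : e ∉ Hp n k H₁ H E := fun h => hne (Finset.mem_filter.2 ⟨h, k2⟩)
        rw [if_neg h1, if_neg]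
        rintro ⟨f1, hf1', rfl⟩
        exact hf1 (Finset.mem_filter.2 ⟨hf, f1, hf1', k2⟩)

theorem det (hlp : LPD) (hk : 2 ≤ k) {c δ : ℝ} {K : ℕ} (hc : 0 < c) (hδ0 : 0 < δ)
    (hδ : 5 * δ * (((k : ℝ) - 1) * 10 ^ k) ≤ c) (hl80 : 80 ≤ Real.log n)
    (hbig : 2 + K * (40 * (k : ℝ)) ^ k ≤ δ * (((k : ℝ) - 1) * Real.log n))
    (hbig2 : 2 * (40 * (k : ℝ)) ^ k ≤ ((k : ℝ) - 1) * Real.log n)
    (h1H : H₁ ⊆ H) (hH2 : H ⊆ H₂) (hH2e : H₂ ⊆ edges n k) (hQ1 : Q1 k (5 * k) H₂)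
    (hQ2 : Q2 k (1 / 20) H₁ H₂) (hQ3 : Q3 k (4 * δ) K H₁ H₂)
    (hcore : ∀ F' ⊆ facets n k, ∀ H' ⊆ H, (∀ f ∈ F', (1 / 40 : ℝ) * Real.log n ≤ deg H' f) →
        (∀ f ∈ F', ((H₁.filter (fun e => f ⊆ e)) \ H').card ≤ 2) →
        ∀ y : Finset (Fin n) → ℝ, (∀ f, y f ≠ 0 → f ∈ F') →
          c * Real.log n * ∑ f ∈ facets n k, |y f| ≤ ∑ e ∈ H', |fs k y e|)
    (hCov : Cov k H) : Frac k H := by
  have hk' : (2 : ℝ) ≤ k := by exact_mod_cast hk
  have hk1 : (1 : ℝ) ≤ (k : ℝ) - 1 := by linarith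
  set ℓ : ℝ := Real.log n with hℓ
  set d : ℝ := ((k : ℝ) - 1) * ℓ with hd'
  have hd : 0 < d := by positivity
  have hdℓ : ℓ ≤ d := by nlinarith
  choose! E hE using hCov
  -- degrees
  have hdegHp : ∀ f ∈ Fp n k H₁ E, (deg H₁ f : ℝ) - 2 ≤ deg (Hp n k H₁ H E) f := by
    intro f hf
    have a1 := deg_Hp hk hH2 hH2e hQ2 hE hf
    have a2 := deg_mono h1H f
    have : (deg H₁ f : ℝ) ≤ deg (Hp n k H₁ H E) f + 2 := by exact_mod_cast a2.trans a1
    linarith
  have hnb : ∀ f ∈ Fp n k H₁ E, 1 / 20 * ℓ ≤ (deg H₁ f : ℝ) := by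
    intro f hf
    by_contra hx
    push Not at hx
    have hfF := Fp_subset hf
    have hfB : f ∈ Bd n k H₁ := Finset.mem_filter.2 ⟨hfF, hx⟩
    exact (Finset.mem_filter.1 hf).2 (Finset.mem_filter.2 ⟨hfF, f, hfB, (hE f hfF).2⟩)
  have hdeg40 : ∀ f ∈ Fp n k H₁ E, (1 / 40 : ℝ) * ℓ ≤ deg (Hp n k H₁ H E) f := by
    intro f hf
    have a1 := hdegHp f hf
    have a2 := hnb f hf
    linarith
  have hdegUp : ∀ f ∈ facets n k, (deg (Hp n k H₁ H E) f : ℝ) ≤ 5 * k * ℓ := by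
    intro f hf
    have a1 : deg (Hp n k H₁ H E) f ≤ deg H₂ f := deg_mono (Hp_subset.trans hH2) f
    exact le_trans (by exact_mod_cast a1) (hQ1 f hf)
  have hcore' := hcore (Fp n k H₁ E) Fp_subset (Hp n k H₁ H E) Hp_subset hdeg40
    (fun f hf => diff_Hp hk h1H hH2 hH2e hQ2 hE hf)
  -- typical facets
  obtain ⟨T, hT⟩ : ∃ T : Finset (Fin n) → Prop, ∀ g, T g ↔ ((1 - 4 * δ) * d ≤ (deg H₁ g : ℝ) ∧
    (deg H₂ g : ℝ) ≤ (1 + 4 * δ) * d) := ⟨_, fun _ => Iff.rfl⟩
  set H' := Hp n k H₁ H E with hH'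
  have hH'e : H' ⊆ edges n k := Hp_subset.trans (hH2.trans hH2e)
  have hφ : ∀ g, g.card = k - 1 → (∃ e ∈ H', g ⊆ e) →
      1 / 10 ≤ ph d T H' g ∧ ph d T H' g ≤ 40 * k := by
    rintro g hg ⟨e, he, hge⟩
    have hgF := mem_Fp_of_Hp he hg hge
    unfold ph
    split_ifs with h
    · constructor
      · norm_num
      · linarith
    · have b1 := hdeg40 g hgF
      have b2 := hdegUp g (Fp_subset hgF)
      have b3 : (0 : ℝ) < deg H' g := by
        have : (0 : ℝ) < 1 / 40 * ℓ := by positivity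
        linarith
      constructor
      · rw [le_div_iff₀ b3]
        have : (1 : ℝ) / 10 * (5 * k * ℓ) ≤ d := by
          rw [hd']; nlinarith
        nlinarith
      · rw [div_le_iff₀ b3]
        have : d ≤ 40 * k * (1 / 40 * ℓ) := by
          rw [hd']; nlinarith
        have h40 : (0 : ℝ) ≤ 40 * k := by positivity
        nlinarith [mul_le_mul_of_nonneg_left b1 h40]
  -- the sums of the initial weights
  have hsum : ∀ f ∈ Fp n k H₁ E,
      |∑ e ∈ H'.filter (fun e => f ⊆ e), w0 k d T H' e - 1| ≤ 5 * δ := by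
    intro f hf
    have hfF := Fp_subset hf
    have hfc := mem_facets.1 hfF
    have b1 := hdeg40 f hf
    have hpos : 0 < deg H' f := by
      have : (0 : ℝ) < deg H' f := by
        have : (0 : ℝ) < 1 / 40 * ℓ := by positivity
        linarith
      exact_mod_cast this
    have hKf : (H'.filter (fun e => f ⊆ e ∧ ∃ g ∈ facets n k, g ≠ f ∧ g ⊆ e ∧ ¬ T g)).card ≤ K := by
      refine le_trans (Finset.card_le_card ?_) (hQ3 f hfF)
      intro e he
      obtain ⟨k1, k2, g, g1, g2, g3, g4⟩ := Finset.mem_filter.1 he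
      refine Finset.mem_filter.2 ⟨hH2 (Hp_subset k1), k2, g, g1, g2, g3, ?_⟩
      rw [hT g, not_and_or, not_le, not_le] at g4
      exact g4
    have htyp : T f → |(deg H' f : ℝ) / d - 1| ≤ 4 * δ + 2 / d := by
      intro ht
      obtain ⟨t1, t2⟩ := (hT f).1 ht
      have a1 := hdegHp f hf
      have a2 : (deg H' f : ℝ) ≤ deg H₂ f := by
        exact_mod_cast deg_mono (Hp_subset.trans hH2) f
      have h2d : 0 ≤ 2 / d := by positivity
      rw [abs_le]
      constructor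
      · have : (1 - 4 * δ) * d - 2 ≤ deg H' f := by linarith
        have h3 : ((1 - 4 * δ) * d - 2) / d ≤ (deg H' f : ℝ) / d :=
          div_le_div_of_nonneg_right this hd.le
        have h4 : ((1 - 4 * δ) * d - 2) / d = 1 - 4 * δ - 2 / d := by field_simp
        linarith
      · have : (deg H' f : ℝ) ≤ (1 + 4 * δ) * d := by linarith
        have h3 : (deg H' f : ℝ) / d ≤ (1 + 4 * δ) := by
          rw [div_le_iff₀ hd]; exact this
        linarith
    have := sum_w0 hk T H' hH'e hd hδ0.le hfc (fun g g1 g2 => (hφ g g1 g2).2) hKf htyp hpos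
    refine this.trans ?_
    have h5 : 2 / d + K * ((40 * (k : ℝ)) ^ k / d) ≤ δ := by
      have : 2 / d + K * ((40 * (k : ℝ)) ^ k / d) = (2 + K * (40 * (k : ℝ)) ^ k) / d := by ring
      rw [this, div_le_iff₀ hd]
      exact hbig
    linarith
  -- bounds for the initial weights
  have hw0lo : ∀ e ∈ H', 1 / d * (1 / 10) ^ k ≤ w0 k d T H' e := by
    intro e he
    refine w0_ge hk hd (by norm_num) T H' (mem_edges.1 (hH'e he)) fun g hg => ?_
    obtain ⟨g1, g2⟩ := Finset.mem_powersetCard.1 hg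
    exact (hφ g g2 ⟨e, he, g1⟩).1
  have hw0hi : ∀ e ∈ H', 2 * w0 k d T H' e ≤ 1 := by
    intro e he
    have := w0_le hk hd T H' (mem_edges.1 (hH'e he)) (hi := 40 * k) (fun g hg => by
      obtain ⟨g1, g2⟩ := Finset.mem_powersetCard.1 hg
      exact (hφ g g2 ⟨e, he, g1⟩).2)
    have h2 : 2 * (1 / d * (40 * (k : ℝ)) ^ k) ≤ 1 := by
      have : 2 * (1 / d * (40 * (k : ℝ)) ^ k) = 2 * (40 * (k : ℝ)) ^ k / d := by ring
      rw [this, div_le_one hd]
      exact hbig2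
    linarith
  -- linear programming
  obtain ⟨w, hw1, hw2⟩ := hlp _ _ (Fp n k H₁ E) H'
    (fun f e => if f ⊆ e then (1 : ℝ) else 0) (fun _ => 1) (w0 k d T H')
    (fun e => w0_nonneg hd T H' e) (by
      intro y
      set y' : Finset (Fin n) → ℝ := fun f => if f ∈ Fp n k H₁ E then y f else 0 with hy'
      have e1 : ∀ f ∈ Fp n k H₁ E, ∑ e ∈ H', (if f ⊆ e then (1 : ℝ) else 0) * w0 k d T H' e =
          ∑ e ∈ H'.filter (fun e => f ⊆ e), w0 k d T H' e := by
        intro f _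
        rw [Finset.sum_filter]
        refine Finset.sum_congr rfl fun e _ => ?_
        split_ifs <;> simp
      have e2 : ∀ e, ∑ f ∈ Fp n k H₁ E, (if f ⊆ e then (1 : ℝ) else 0) * y f = fs k y' e := by
        intro e
        unfold fs
        have c1 : ∑ f ∈ Fp n k H₁ E, (if f ⊆ e then (1 : ℝ) else 0) * y f =
            ∑ f ∈ (Fp n k H₁ E).filter (fun f => f ⊆ e), y f := by
          rw [Finset.sum_filter]
          refine Finset.sum_congr rfl fun f _ => ?_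
          split_ifs <;> simp
        have c2 : ∑ f ∈ e.powersetCard (k - 1), y' f =
            ∑ f ∈ (e.powersetCard (k - 1)).filter (fun f => f ∈ Fp n k H₁ E), y f := by
          rw [Finset.sum_filter]
        rw [c1, c2]
        apply Finset.sum_congr _ fun _ _ => rfl
        ext f
        simp only [Finset.mem_filter, Finset.mem_powersetCard]
        constructor
        · rintro ⟨a, b⟩
          exact ⟨⟨b, mem_facets.1 (Fp_subset a)⟩, a⟩
        · rintro ⟨⟨a, _⟩, b⟩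
          exact ⟨b, a⟩
      have e3 : ∑ f ∈ facets n k, |y' f| = ∑ f ∈ Fp n k H₁ E, |y f| := by
        symm
        rw [← Finset.sum_subset (Fp_subset (n := n) (k := k) (H₁ := H₁) (E := E))]
        · refine Finset.sum_congr rfl fun f hf => ?_
          simp only [hy']
          rw [if_pos hf]
        · intro f _ hf
          simp only [hy']
          rw [if_neg hf, abs_zero]
      have e4 := hcore' y' (by
        intro f hf
        by_contra hx
        apply hf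
        simp only [hy']
        rw [if_neg hx])
      rw [e3] at e4
      have hY : 0 ≤ ∑ f ∈ Fp n k H₁ E, |y f| := Finset.sum_nonneg fun _ _ => abs_nonneg _
      calc ∑ f ∈ Fp n k H₁ E, y f * (1 - ∑ e ∈ H', (if f ⊆ e then (1 : ℝ) else 0) * w0 k d T H' e)
          ≤ ∑ f ∈ Fp n k H₁ E, |y f| * (5 * δ) := by
            refine Finset.sum_le_sum fun f hf => ?_
            rw [e1 f hf]
            refine (le_abs_self _).trans ?_
            rw [abs_mul]
            apply mul_le_mul_of_nonneg_left _ (abs_nonneg _)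
            rw [abs_sub_comm]
            exact hsum f hf
        _ = (5 * δ) * ∑ f ∈ Fp n k H₁ E, |y f| := by rw [← Finset.sum_mul, mul_comm]
        _ ≤ (1 / d * (1 / 10) ^ k) * (c * ℓ * ∑ f ∈ Fp n k H₁ E, |y f|) := by
            rw [← mul_assoc]
            apply mul_le_mul_of_nonneg_right _ hY
            have h10 : (0 : ℝ) < 10 ^ k := by positivity
            have : 1 / d * (1 / 10 : ℝ) ^ k * (c * ℓ) = c / (((k : ℝ) - 1) * 10 ^ k) := by
              rw [hd', one_div_pow]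
              have : ℓ ≠ 0 := by positivity
              have : (k : ℝ) - 1 ≠ 0 := by positivity
              field_simp
            rw [this, le_div_iff₀ (by positivity)]
            exact hδ
        _ ≤ (1 / d * (1 / 10) ^ k) * ∑ e ∈ H', |fs k y' e| :=
            mul_le_mul_of_nonneg_left e4 (by positivity)
        _ = ∑ e ∈ H', (1 / d * (1 / 10) ^ k) * |fs k y' e| := Finset.mul_sum _ _ _
        _ ≤ ∑ e ∈ H', w0 k d T H' e *
              |∑ f ∈ Fp n k H₁ E, (if f ⊆ e then (1 : ℝ) else 0) * y f| := by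
            refine Finset.sum_le_sum fun e he => ?_
            rw [e2 e]
            exact mul_le_mul_of_nonneg_right (hw0lo e he) (abs_nonneg _))
  refine frac_of hH2 hQ2 hE w (fun e he => ⟨(hw1 e he).1, ?_⟩) fun f hf => ?_
  · exact (hw1 e he).2.trans (hw0hi e he)
  · rw [← hw2 f hf, Finset.sum_filter]
    refine Finset.sum_congr rfl fun e _ => ?_
    split_ifs <;> simp

end main

/-- the statement of `dt_of_core` from `lp_dual` -/
theorem dt_of_core_of (hlp : LPD) {k : ℕ} (hk : 2 ≤ k) (c : ℝ) (hc : 0 < c) :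
    ∃ δ : ℝ, 0 < δ ∧ δ ≤ 1 / 8 ∧
    ∀ K : ℕ, ∀ᶠ n : ℕ in Filter.atTop, ∀ H₁ H H₂ : Finset (Finset (Fin n)), H₁ ⊆ H → H ⊆ H₂ →
      H₂ ⊆ edges n k → Q1 k (5 * k) H₂ → Q2 k (1 / 20) H₁ H₂ → Q3 k (4 * δ) K H₁ H₂ →
      (∀ F' ⊆ facets n k, ∀ H' ⊆ H, (∀ f ∈ F', (1 / 40 : ℝ) * Real.log n ≤ deg H' f) →
        (∀ f ∈ F', ((H₁.filter (fun e => f ⊆ e)) \ H').card ≤ 2) →
        ∀ y : Finset (Fin n) → ℝ, (∀ f, y f ≠ 0 → f ∈ F') →
          c * Real.log n * ∑ f ∈ facets n k, |y f| ≤ ∑ e ∈ H', |fs k y e|) →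
      Cov k H → Frac k H := by
  have hk' : (2 : ℝ) ≤ k := by exact_mod_cast hk
  have hk1 : (1 : ℝ) ≤ (k : ℝ) - 1 := by linarith
  have hP : (0 : ℝ) < ((k : ℝ) - 1) * 10 ^ k := by positivity
  refine ⟨min (1 / 8) (c / (5 * (((k : ℝ) - 1) * 10 ^ k))), by positivity, min_le_left _ _, ?_⟩
  intro K
  set δ := min (1 / 8) (c / (5 * (((k : ℝ) - 1) * 10 ^ k))) with hδd
  have hδ0 : 0 < δ := by positivity
  have hδ : 5 * δ * (((k : ℝ) - 1) * 10 ^ k) ≤ c := by
    have := min_le_right (1 / 8) (c / (5 * (((k : ℝ) - 1) * 10 ^ k)))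
    rw [← hδd, le_div_iff₀ (by positivity)] at this
    linarith
  have hlog : Filter.Tendsto (fun n : ℕ => Real.log (n : ℝ)) Filter.atTop Filter.atTop :=
    Real.tendsto_log_atTop.comp tendsto_natCast_atTop_atTop
  filter_upwards [hlog.eventually_ge_atTop 80,
    hlog.eventually_ge_atTop ((2 + K * (40 * (k : ℝ)) ^ k) / δ),
    hlog.eventually_ge_atTop (2 * (40 * (k : ℝ)) ^ k)] with n h1 h2 h3
  intro H₁ H H₂ a1 a2 a3 a4 a5 a6 a7 a8
  refine det hlp hk hc hδ0 hδ h1 ?_ ?_ a1 a2 a3 a4 a5 a6 a7 a8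
  · rw [div_le_iff₀ hδ0] at h2
    refine h2.trans ?_
    have : Real.log n ≤ ((k : ℝ) - 1) * Real.log n := by nlinarith
    nlinarith
  · refine h3.trans ?_
    nlinarith

end Pool.Agent.TH541.HT5

namespace Pool.Agent.TH948.HT

open Finset
open scoped Classical
open Pool.Agent.TH965.Spread Pool.Agent.TH948.KK Pool.Agent.TH948.BD

theorem dt_of_core {k : ℕ} (hk : 2 ≤ k) (c : ℝ) (hc : 0 < c) : ∃ δ : ℝ, 0 < δ ∧ δ ≤ 1 / 8 ∧
    ∀ K : ℕ, ∀ᶠ n : ℕ in Filter.atTop, ∀ H₁ H H₂ : Finset (Finset (Fin n)), H₁ ⊆ H → H ⊆ H₂ →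
      H₂ ⊆ edges n k → Q1 k (5 * k) H₂ → Q2 k (1 / 20) H₁ H₂ → Q3 k (4 * δ) K H₁ H₂ →
      (∀ F' ⊆ facets n k, ∀ H' ⊆ H, (∀ f ∈ F', (1 / 40 : ℝ) * Real.log n ≤ deg H' f) →
        (∀ f ∈ F', ((H₁.filter (fun e => f ⊆ e)) \ H').card ≤ 2) →
        ∀ y : Finset (Fin n) → ℝ, (∀ f, y f ≠ 0 → f ∈ F') →
          c * Real.log n * ∑ f ∈ facets n k, |y f| ≤ ∑ e ∈ H', |fs k y e|) →
      Cov k H → Frac k H :=
  Pool.Agent.TH541.HT5.dt_of_core_of
    (fun _ _ F E A b w0 h1 h2 => lp_dual F E A b w0 h1 h2) hk c hc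

end Pool.Agent.TH948.HT
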