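import Pool.Agent.TH171.EN.Defs

/-!
Conjugates of the elementary subgroup of the square of an ideal.
-/

set_option autoImplicit false

namespace Pool.Agent.TH541.J601

open Matrix Pool.Agent.TH171.EN

variable {n : ℕ} {T : Type} [Ring T]

/-- conjugation -/
abbrev cj (g : GLn n T) : GLn n T →* GLn n T := (MulAut.conj g).toMonoidHom

lemma cj_apply (g x : GLn n T) : cj g x = g * x * g⁻¹ := rfl

lemma c1 (i j k : Fin n) (hij : i ≠ j) (hjk : j ≠ k) (hik : i ≠ k) (a b : T) :
    cj (tv i j hij a) (tv j k hjk b) = tv i k hik (a * b) * tv j k hjk b := by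
  rw [cj_apply, tv_comm i j k hij hjk hik, mul_assoc, mul_assoc, mul_inv_cancel, mul_one]

lemma c2 (i j k : Fin n) (hij : i ≠ j) (hjk : j ≠ k) (hik : i ≠ k) (a b : T) :
    cj (tv j k hjk b) (tv i j hij a) = tv i k hik (-(a * b)) * tv i j hij a := by
  rw [cj_apply, mul_inv_eq_iff_eq_mul, mul_assoc, tv_comm i j k hij hjk hik, ← mul_assoc, tv_mul,
    neg_add_cancel, tv_zero, one_mul]

lemma c3 (i j k l : Fin n) (hij : i ≠ j) (hkl : k ≠ l) (hjk : j ≠ k) (hli : l ≠ i) (a b : T) :
    cj (tv i j hij a) (tv k l hkl b) = tv k l hkl b := by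
  rw [cj_apply, tv_commute i j k l hij hkl hjk hli, mul_assoc, mul_inv_cancel, mul_one]

/-- the element `t_ji(x) t_ij(a) t_ji(-x)` -/
def zz (i j : Fin n) (h : i ≠ j) (a x : T) : GLn n T := cj (tv j i h.symm x) (tv i j h a)

lemma zz_zero (i j : Fin n) (h : i ≠ j) (a : T) : zz i j h a 0 = tv i j h a := by
  unfold zz
  rw [cj_apply, tv_zero, one_mul, inv_one, mul_one]

/-- the subgroup generated by the `z_ij(a, x)` -/
def HH (A : AddSubgroup T) : Subgroup (GLn n T) :=
  Subgroup.closure {g | ∃ (i j : Fin n) (h : i ≠ j) (a x : T), a ∈ A ∧ g = zz i j h a x}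

variable {A : AddSubgroup T}

lemma zz_mem (i j : Fin n) (h : i ≠ j) {a : T} (x : T) (ha : a ∈ A) : zz i j h a x ∈ HH A :=
  Subgroup.subset_closure ⟨i, j, h, a, x, ha, rfl⟩

lemma tvA_mem (i j : Fin n) (h : i ≠ j) {a : T} (ha : a ∈ A) : tv i j h a ∈ HH A := by
  rw [← zz_zero]
  exact zz_mem i j h 0 ha

lemma case4 (hA : TwoSided A) (i j h : Fin n) (hij : i ≠ j) (hi : h ≠ i) (hj : h ≠ j) {a : T}
    (x y : T) (ha : a ∈ A) : cj (tv j h hj.symm y) (zz i j hij a x) ∈ HH A := by
  have e : cj (tv j h hj.symm y) (zz i j hij a x) =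
      (tv j h hj.symm (x * -(a * y)) * tv i h hi.symm (-(a * y))) * zz i j hij a x := by
    have e1 : cj (tv j h hj.symm y) (zz i j hij a x) =
        cj (cj (tv j h hj.symm y) (tv j i hij.symm x)) (cj (tv j h hj.symm y) (tv i j hij a)) := by
      unfold zz
      simp only [cj_apply]
      group
    rw [e1, c3 j h j i _ _ hj hij, c2 i j h hij hj.symm hi.symm, map_mul,
      c1 j i h hij.symm hi.symm hj.symm]
    rfl
  rw [e]
  have h1 : -(a * y) ∈ A := neg_mem (hA y a ha).2
  exact mul_mem (mul_mem (tvA_mem _ _ _ (hA x _ h1).1) (tvA_mem _ _ _ h1)) (zz_mem _ _ _ _ ha)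

lemma case3 (hA : TwoSided A) (i j h : Fin n) (hij : i ≠ j) (hi : h ≠ i) (hj : h ≠ j) {a : T}
    (x y : T) (ha : a ∈ A) : cj (tv i h hi.symm y) (zz i j hij a x) ∈ HH A := by
  have e : cj (tv i h hi.symm y) (zz i j hij a x) =
      cj (tv j h hj.symm (-(x * y))) (zz i j hij a x) := by
    have e1 : cj (tv i h hi.symm y) (zz i j hij a x) =
        cj (cj (tv i h hi.symm y) (tv j i hij.symm x)) (cj (tv i h hi.symm y) (tv i j hij a)) := by
      unfold zz
      simp only [cj_apply]
      group
    rw [e1, c3 i h i j _ _ hi hij.symm, c2 j i h hij.symm hi.symm hj.symm]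
    unfold zz
    simp only [cj_apply]
    group
  rw [e]
  exact case4 hA i j h hij hi hj x _ ha

lemma case5 (hA : TwoSided A) (i j h : Fin n) (hij : i ≠ j) (hi : h ≠ i) (hj : h ≠ j) {a : T}
    (x y : T) (ha : a ∈ A) : cj (tv h i hi y) (zz i j hij a x) ∈ HH A := by
  have e : cj (tv h i hi y) (zz i j hij a x) =
      (tv h i hi (-((y * a) * x)) * tv h j hj (y * a)) * zz i j hij a x := by
    have e1 : cj (tv h i hi y) (zz i j hij a x) =
        cj (cj (tv h i hi y) (tv j i hij.symm x)) (cj (tv h i hi y) (tv i j hij a)) := by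
      unfold zz
      simp only [cj_apply]
      group
    rw [e1, c3 h i j i _ _ hij hi.symm, c1 h i j hi hij hj, map_mul, c2 h j i hj hij.symm hi]
    rfl
  rw [e]
  have h1 : y * a ∈ A := (hA y a ha).1
  exact mul_mem (mul_mem (tvA_mem _ _ _ (neg_mem (hA x _ h1).2)) (tvA_mem _ _ _ h1))
    (zz_mem _ _ _ _ ha)

lemma case6 (hA : TwoSided A) (i j h : Fin n) (hij : i ≠ j) (hi : h ≠ i) (hj : h ≠ j) {a : T}
    (x y : T) (ha : a ∈ A) : cj (tv h j hj y) (zz i j hij a x) ∈ HH A := by
  have e : cj (tv h j hj y) (zz i j hij a x) =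
      cj (tv h i hi (y * x)) (zz i j hij a x) := by
    have e1 : cj (tv h j hj y) (zz i j hij a x) =
        cj (cj (tv h j hj y) (tv j i hij.symm x)) (cj (tv h j hj y) (tv i j hij a)) := by
      unfold zz
      simp only [cj_apply]
      group
    rw [e1, c3 h j i j _ _ hij.symm hj.symm, c1 h j i hj hij.symm hi]
    unfold zz
    simp only [cj_apply]
    group
  rw [e]
  exact case5 hA i j h hij hi hj x _ ha

lemma case7 (hA : TwoSided A) (i j h : Fin n) (hij : i ≠ j) (hi : h ≠ i) (hj : h ≠ j) {a : T}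
    (x y : T) (ha : a ∈ A) : cj (tv i j hij y) (zz i j hij a x) ∈ HH A := by
  have hX : cj (tv j i hij.symm x) (tv i h hi.symm a) =
      tv j h hj.symm (x * a) * tv i h hi.symm a := c1 _ _ _ _ _ _ _ _
  have hY : cj (tv j i hij.symm x) (tv h j hj 1) = tv h i hi (-(1 * x)) * tv h j hj 1 :=
    c2 _ _ _ _ _ _ _ _
  have hz : zz i j hij a x = (tv j h hj.symm (x * a) * tv i h hi.symm a) *
      (cj (tv h i hi (-(1 * x)) * tv h j hj 1)
        ((tv j h hj.symm (x * a) * tv i h hi.symm a)⁻¹)) := by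
    have h1 : tv i j hij a = tv i h hi.symm a * (cj (tv h j hj 1) ((tv i h hi.symm a)⁻¹)) := by
      have := tv_commutator i h j hi.symm hj hij a 1
      rw [mul_one, commutatorElement_def] at this
      rw [← this, cj_apply]
      group
    unfold zz
    rw [h1, map_mul, hX, ← hX, ← hY]
    simp only [cj_apply]
    group
  set X := tv j h hj.symm (x * a) * tv i h hi.symm a with hXd
  set Y := tv h i hi (-(1 * x)) * tv h j hj 1 with hYd
  have hX' : cj (tv i j hij y) X = (tv i h hi.symm (y * (x * a)) * tv j h hj.symm (x * a)) *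
      tv i h hi.symm a := by
    rw [hXd, map_mul, c1 i j h hij hj.symm hi.symm, c3 i j i h _ _ hij.symm hi]
  have hY' : cj (tv i j hij y) Y = tv h i hi (-(1 * x)) * tv h j hj (1 + x * y) := by
    rw [hYd, map_mul, c2 h i j hi hij hj, c3 i j h j _ _ hj.symm hij.symm, mul_assoc,
      tv_commute h i h j hi hj hi.symm hj.symm _ 1, tv_commute h i h j hi hj hi.symm hj.symm,
      ← mul_assoc, tv_mul]
    congr 2
    noncomm_ring
  rw [hz, map_mul]
  have h2 : cj (tv i j hij y) (cj Y X⁻¹) = cj (cj (tv i j hij y) Y) (cj (tv i j hij y) X)⁻¹ := by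
    simp only [cj_apply]
    group
  rw [h2, hX', hY']
  have hxa : x * a ∈ A := (hA x a ha).1
  have hyxa : y * (x * a) ∈ A := (hA y _ hxa).1
  have w1 : ∀ b ∈ A, ∀ u c : T, tv i h hi.symm b ∈
      (HH A).comap (cj (tv h i hi u * tv h j hj c)) := by
    intro b hb u c
    rw [Subgroup.mem_comap]
    have e : cj (tv h i hi u * tv h j hj c) (tv i h hi.symm b) =
        cj (tv h i hi u) (cj (tv h j hj c) (tv i h hi.symm b)) := by
      simp only [cj_apply]
      group
    rw [e, c2 i h j hi.symm hj hij, map_mul, c1 h i j hi hij hj]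
    have h3 : -(b * c) ∈ A := neg_mem (hA c b hb).2
    exact mul_mem (mul_mem (tvA_mem _ _ _ (hA u _ h3).1) (tvA_mem _ _ _ h3))
      (zz_mem i h hi.symm u hb)
  have w2 : ∀ b ∈ A, ∀ u c : T, tv j h hj.symm b ∈
      (HH A).comap (cj (tv h i hi u * tv h j hj c)) := by
    intro b hb u c
    rw [Subgroup.mem_comap]
    have e : cj (tv h i hi u * tv h j hj c) (tv j h hj.symm b) =
        cj (tv h i hi u) (zz j h hj.symm b c) := by
      unfold zz
      simp only [cj_apply]
      group
    rw [e]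
    exact case4 hA j h i hj.symm hij hi.symm c u hb
  refine mul_mem (mul_mem (mul_mem (tvA_mem _ _ _ hyxa) (tvA_mem _ _ _ hxa)) (tvA_mem _ _ _ ha)) ?_
  rw [← Subgroup.mem_comap]
  exact inv_mem (mul_mem (mul_mem (w1 _ hyxa _ _) (w2 _ hxa _ _)) (w1 _ ha _ _))

lemma conj_gen (hn : 3 ≤ n) (hA : TwoSided A) (k l : Fin n) (hkl : k ≠ l) (y : T) (i j : Fin n)
    (hij : i ≠ j) {a : T} (x : T) (ha : a ∈ A) : cj (tv k l hkl y) (zz i j hij a x) ∈ HH A := by
  by_cases hki : k = i
  · subst hki
    by_cases hlj : l = j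
    · subst hlj
      obtain ⟨h, h1, h2⟩ := exists_third hn k l
      exact case7 hA k l h hij h1 h2 x y ha
    · exact case3 hA k j l hij hkl.symm hlj x y ha
  · by_cases hkj : k = j
    · subst hkj
      by_cases hli : l = i
      · subst hli
        have e : cj (tv k l hkl y) (zz l k hij a x) = zz l k hij a (y + x) := by
          unfold zz
          rw [← tv_mul]
          simp only [cj_apply]
          group
        rw [e]
        exact zz_mem _ _ _ _ ha
      · exact case4 hA i k l hij hli hkl.symm x y ha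
    · by_cases hli : l = i
      · subst hli
        exact case5 hA l j k hij hki hkj x y ha
      · by_cases hlj : l = j
        · subst hlj
          exact case6 hA i l k hij hki hkj x y ha
        · have e : cj (tv k l hkl y) (zz i j hij a x) = zz i j hij a x := by
            have e1 : cj (tv k l hkl y) (zz i j hij a x) =
                cj (cj (tv k l hkl y) (tv j i hij.symm x))
                  (cj (tv k l hkl y) (tv i j hij a)) := by
              unfold zz
              simp only [cj_apply]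
              group
            rw [e1, c3 k l j i _ _ hlj (Ne.symm hki), c3 k l i j _ _ hli (Ne.symm hkj)]
            rfl
          rw [e]
          exact zz_mem _ _ _ _ ha

lemma conj_H (hn : 3 ≤ n) (hA : TwoSided A) (e : GLn n T) (he : e ∈ E n T) (g : GLn n T)
    (hg : g ∈ HH A) : cj e g ∈ HH A := by
  have key : ∀ e ∈ E n T, HH A ≤ (HH A).comap (cj e) := by
    intro e he
    induction he using Subgroup.closure_induction_left with
    | one =>
      intro g hg
      rw [Subgroup.mem_comap, cj_apply, one_mul, inv_one, mul_one]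
      exact hg
    | mul_left x hx y hy ih =>
      obtain ⟨k, l, hkl, r, rfl⟩ := hx
      intro g hg
      rw [Subgroup.mem_comap]
      have h1 : cj (tv k l hkl r * y) g = cj (tv k l hkl r) (cj y g) := by
        simp only [cj_apply]
        group
      rw [h1]
      have h2 : HH A ≤ (HH A).comap (cj (tv k l hkl r)) := by
        refine (Subgroup.closure_le _).2 ?_
        rintro _ ⟨i, j, h, a, x, ha, rfl⟩
        exact conj_gen hn hA k l hkl r i j h x ha
      exact h2 (ih hg)
    | inv_mul_cancel x hx y hy ih =>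
      obtain ⟨k, l, hkl, r, rfl⟩ := hx
      intro g hg
      rw [Subgroup.mem_comap, tv_inv]
      have h1 : cj (tv k l hkl (-r) * y) g = cj (tv k l hkl (-r)) (cj y g) := by
        simp only [cj_apply]
        group
      rw [h1]
      have h2 : HH A ≤ (HH A).comap (cj (tv k l hkl (-r))) := by
        refine (Subgroup.closure_le _).2 ?_
        rintro _ ⟨i, j, h, a, x, ha, rfl⟩
        exact conj_gen hn hA k l hkl (-r) i j h x ha
      exact h2 (ih hg)
  exact key e he hg

lemma zz_sq (hn : 3 ≤ n) {I : AddSubgroup T} (hI : TwoSided I) (i j : Fin n) (hij : i ≠ j)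
    {a : T} (x : T) (ha : a ∈ sq I) : zz i j hij a x ∈ EI n (I : Set T) := by
  induction ha using AddSubgroup.closure_induction with
  | mem a h =>
    obtain ⟨b, hb, c, hc, rfl⟩ := h
    obtain ⟨h, hi, hj⟩ := exists_third hn i j
    have h1 : tv i j hij (b * c) = tv i h hi.symm b * tv h j hj c * (tv i h hi.symm b)⁻¹ *
        (tv h j hj c)⁻¹ := by
      rw [← tv_commutator i h j hi.symm hj hij, commutatorElement_def]
    have h2 : tv j h hj.symm (x * b) * tv i h hi.symm b ∈ EI n (I : Set T) :=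
      mul_mem (tv_mem_EI _ _ _ (hI x b hb).1) (tv_mem_EI _ _ _ hb)
    have h3 : tv h i hi (-(c * x)) * tv h j hj c ∈ EI n (I : Set T) :=
      mul_mem (tv_mem_EI _ _ _ (neg_mem (hI x c hc).2)) (tv_mem_EI _ _ _ hc)
    unfold zz
    rw [h1, map_mul, map_mul, map_mul, map_inv, map_inv, c1 j i h hij.symm hi.symm hj.symm,
      c2 h j i hj hij.symm hi]
    exact mul_mem (mul_mem (mul_mem h2 h3) (inv_mem h2)) (inv_mem h3)
  | zero =>
    unfold zz
    rw [tv_zero, map_one]
    exact one_mem _
  | add a b _ _ ha hb =>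
    unfold zz at ha hb ⊢
    rw [← tv_mul, map_mul]
    exact mul_mem ha hb
  | neg a _ ha =>
    unfold zz at ha ⊢
    rw [← tv_inv, map_inv]
    exact inv_mem ha

end Pool.Agent.TH541.J601

namespace Pool.Agent.TH171.EN

open Matrix

theorem conj_EI_sq {T : Type} [Ring T] {n : ℕ} (hn : 3 ≤ n) (I : AddSubgroup T)
    (hI : TwoSided I) (e : GLn n T) (he : e ∈ E n T) (g : GLn n T) (hg : g ∈ EI n (sq I : Set T)) :
    e * g * e⁻¹ ∈ EI n (I : Set T) := by
  have h1 : EI n (sq I : Set T) ≤ Pool.Agent.TH541.J601.HH (sq I) :=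
    EI_le fun i j h r hr => Pool.Agent.TH541.J601.tvA_mem i j h hr
  have h2 : Pool.Agent.TH541.J601.HH (n := n) (sq I) ≤ EI n (I : Set T) := by
    refine (Subgroup.closure_le _).2 ?_
    rintro _ ⟨i, j, h, a, x, ha, rfl⟩
    exact Pool.Agent.TH541.J601.zz_sq hn hI i j h x ha
  exact h2 (Pool.Agent.TH541.J601.conj_H hn (sq_twoSided hI) e he g (h1 hg))

end Pool.Agent.TH171.EN
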