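import Pool.Agent.TH313.HI.Space3

/-! Rapidly increasing sequences on which an operator is small (job HI-A2). -/

set_option autoImplicit false

namespace Pool.Agent.TH541.HA2

open Set Filter Topology
open Pool.Agent.TH313.HI

noncomputable section

/-- iterated averages -/
def Y (u : ℕ → ZT) (N i0 : ℕ) : ℕ → ℕ → ZT
  | 0, m => u (i0 + m)
  | s + 1, m => (2 / (N : ℂ)) • ∑ c ∈ Finset.range N, Y u N i0 s (m * N + c)

theorem sum_range_mul' {E : Type*} [AddCommMonoid E] (f : ℕ → E) (k : ℕ) :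
    ∀ N : ℕ, ∑ c ∈ Finset.range N, ∑ i ∈ Finset.range k, f (c * k + i) = ∑ i ∈ Finset.range (N * k), f i := by
  intro N
  induction N with
  | zero => simp
  | succ N ih =>
    rw [Finset.sum_range_succ, ih, Nat.succ_mul, Finset.sum_range_add]

theorem Y_eq (u : ℕ → ZT) (N i0 : ℕ) : ∀ s m, Y u N i0 s m =
    (2 / (N : ℂ)) ^ s • ∑ i ∈ Finset.range (N ^ s), u (i0 + m * N ^ s + i) := by
  intro s
  induction s with
  | zero =>
    intro m
    simp [Y]
  | succ s ih =>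
    intro m
    have h1 : ∀ c, Y u N i0 s (m * N + c) =
        (2 / (N : ℂ)) ^ s • ∑ i ∈ Finset.range (N ^ s), u (i0 + m * N ^ (s + 1) + (c * N ^ s + i)) := by
      intro c
      rw [ih]
      congr 1
      refine Finset.sum_congr rfl fun i _ => ?_
      congr 1
      ring
    rw [Y]
    simp only [h1]
    rw [← Finset.smul_sum, smul_smul, sum_range_mul' (fun i => u (i0 + m * N ^ (s + 1) + i)) (N ^ s) N,
      ← pow_succ', ← pow_succ' N s]

theorem onLv_sum {ι : Type*} {A B : ℕ} (I : Finset ι) (x : ι → V) (h : ∀ i ∈ I, OnLv A B (x i)) :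
    OnLv A B (∑ i ∈ I, x i) := by
  intro k g hk
  rw [Finset.sum_apply, Finset.sum_apply]
  exact Finset.sum_eq_zero fun i hi => h i hi k g hk

theorem onLv_smul {A B : ℕ} {x : V} (h : OnLv A B x) (c : ℂ) : OnLv A B (c • x) := by
  intro k g hk
  show c • x k g = 0
  rw [h k g hk, smul_zero]

theorem succ_A {x : ℕ → V} {A B : ℕ → ℕ} (h : Succ x A B) : StrictMono A := by
  refine strictMono_nat_of_lt_succ fun l => ?_
  have h1 := h.2.1 l
  have h2 := h.2.2 l (l + 1) (Nat.lt_succ_self l)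
  omega

theorem succ_B {x : ℕ → V} {A B : ℕ → ℕ} (h : Succ x A B) : StrictMono B := by
  refine strictMono_nat_of_lt_succ fun l => ?_
  have h1 := h.2.1 (l + 1)
  have h2 := h.2.2 l (l + 1) (Nat.lt_succ_self l)
  omega

section

variable {u : ℕ → ZT} {A B : ℕ → ℕ}

theorem Y_lv (hs : Succ (fun i => cz (u i)) A B) (N i0 : ℕ) (s m : ℕ) :
    OnLv (A (i0 + m * N ^ s)) (B (i0 + m * N ^ s + (N ^ s - 1))) (cz (Y u N i0 s m)) := by
  rw [Y_eq, map_smul, map_sum]
  refine onLv_smul (onLv_sum _ _ fun i hi => ?_) _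
  rw [Finset.mem_range] at hi
  refine (hs.1 (i0 + m * N ^ s + i)).mono ?_ ?_
  · exact (succ_A hs).monotone (by omega)
  · exact (succ_B hs).monotone (by omega)

theorem Y_succ (hs : Succ (fun i => cz (u i)) A B) {N : ℕ} (hN : 0 < N) (i0 s m : ℕ) :
    Succ (fun c => cz (Y u N i0 s (m + c))) (fun c => A (i0 + (m + c) * N ^ s))
      (fun c => B (i0 + (m + c) * N ^ s + (N ^ s - 1))) := by
  have hp : 0 < N ^ s := pow_pos hN s
  refine ⟨fun c => Y_lv hs N i0 s (m + c), fun c => ?_, fun c c' hcc' => ?_⟩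
  · show A (i0 + (m + c) * N ^ s) ≤ B (i0 + (m + c) * N ^ s + (N ^ s - 1))
    exact (hs.2.1 _).trans ((succ_B hs).monotone (by omega))
  · show B (i0 + (m + c) * N ^ s + (N ^ s - 1)) < A (i0 + (m + c') * N ^ s)
    refine hs.2.2 _ _ ?_
    have h1 : (m + c + 1) * N ^ s ≤ (m + c') * N ^ s := Nat.mul_le_mul_right _ (by omega)
    rw [Nat.succ_mul] at h1
    omega

/-- a functional which almost norms an element -/
theorem exists_ev {z : ZT} {δ : ℝ} (hδ : 0 ≤ δ) (h : δ < ‖z‖) :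
    ∃ t : Tr, t.Wf ∧ ∃ α β, δ ≤ ‖ev t (cut α β (cz z))‖ := by
  by_contra hcon
  push Not at hcon
  have : ‖z‖ ≤ δ := ZT.norm_le hδ fun t ht α β => (hcon t ht α β).le
  linarith

/-- the iterated averages at the last step are large -/
theorem Y_large (hs : Succ (fun i => cz (u i)) A B) (hn : ∀ i, ‖u i‖ = 1) {N : ℕ} (hN : 0 < N) (i0 : ℕ)
    {j : ℕ} (hj : j % 2 = 0) (hj2 : 1 ≤ j) (hNj : N ^ rr j ≤ nn j) : 1 < ‖Y u N i0 (rr j) 0‖ := by
  by_contra hcon
  have hcon' : ‖Y u N i0 (rr j) 0‖ ≤ 1 := not_lt.1 hcon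
  set r := rr j with hr
  have hNc : (N : ℂ) ≠ 0 := by exact_mod_cast hN.ne'
  have hNr : (0 : ℝ) < N := by exact_mod_cast hN
  let x : ZT := ∑ i ∈ Finset.range (N ^ r), u (i0 + i)
  have hx : Y u N i0 r 0 = (2 / (N : ℂ)) ^ r • x := by
    rw [Y_eq]
    simp only [zero_mul, add_zero, x]
  have hxn : ‖x‖ ≤ ((N : ℝ) / 2) ^ r := by
    have h1 : ‖Y u N i0 r 0‖ = ((2 : ℝ) / N) ^ r * ‖x‖ := by
      rw [hx, norm_smul, norm_pow, norm_div, Complex.norm_natCast]
      norm_num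
    rw [h1] at hcon'
    have h2 : (0 : ℝ) < (2 / (N : ℝ)) ^ r := by positivity
    have h3 : ((N : ℝ) / 2) ^ r * (2 / (N : ℝ)) ^ r = 1 := by
      rw [← mul_pow]
      have : (N : ℝ) / 2 * (2 / N) = 1 := by field_simp
      rw [this, one_pow]
    have h4 : (0 : ℝ) < ((N : ℝ) / 2) ^ r := by positivity
    calc ‖x‖ = ((N : ℝ) / 2) ^ r * ((2 / (N : ℝ)) ^ r * ‖x‖) := by rw [← mul_assoc, h3, one_mul]
      _ ≤ ((N : ℝ) / 2) ^ r * 1 := mul_le_mul_of_nonneg_left hcon' h4.le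
      _ = _ := mul_one _
  have hB : Bd (((N : ℝ) / 2) ^ r) (cz x) := (ZT.bd x).mono hxn
  have hcut : ∀ i : Fin (N ^ r), cut (A (i0 + i)) (B (i0 + i)) (cz x) = cz (u (i0 + i)) := by
    intro i
    simp only [x]
    rw [map_sum, map_sum, Finset.sum_eq_single_of_mem (i : ℕ) (Finset.mem_range.2 i.2)]
    · exact (hs.1 (i0 + i)).cut_eq le_rfl le_rfl
    · intro l _ hl
      apply (hs.1 (i0 + l)).cut_zero
      rcases lt_or_gt_of_ne hl with h | h
      · have := hs.2.2 (i0 + l) (i0 + i) (by omega)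
        omega
      · have := hs.2.2 (i0 + i) (i0 + l) (by omega)
        omega
  have hlow := lower hB hj hNj (fun i : Fin (N ^ r) => A (i0 + i)) (fun i : Fin (N ^ r) => B (i0 + i))
    (fun i i' h => hs.2.2 _ _ (by
      have : (i : ℕ) < i' := h
      omega)) (δ := 1 / 2) (by norm_num) (fun i => by
      show ∃ t : Tr, t.Wf ∧ ∃ α β, (1 / 2 : ℝ) ≤ ‖ev t (cut α β (cut (A (i0 + i)) (B (i0 + i)) (cz x)))‖
      rw [hcut i]
      exact exists_ev (by norm_num) (by rw [hn]; norm_num))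
  have h2r : (2 : ℝ) ^ r = (mm j : ℝ) ^ 2 := two_pow_rr' j
  have h5 : ((N ^ r : ℕ) : ℝ) = ((N : ℝ) / 2) ^ r * 2 ^ r := by
    rw [← mul_pow]
    push_cast
    congr 1
    ring
  rw [h5, h2r] at hlow
  have h4 : (0 : ℝ) < ((N : ℝ) / 2) ^ r := by positivity
  have hmj : (4 : ℝ) < mm j := by
    have h6 : mm 0 < mm j := mm_strictMono (by omega)
    have h7 : mm 0 = 4 := rfl
    rw [h7] at h6
    exact_mod_cast h6
  have h8 : ((N : ℝ) / 2) ^ r * ((mm j : ℝ) * (mm j - 4)) ≤ 0 := by nlinarith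
  have h9 : 0 < ((N : ℝ) / 2) ^ r * ((mm j : ℝ) * (mm j - 4)) := by
    have : 0 < (mm j : ℝ) * (mm j - 4) := mul_pos (by linarith) (by linarith)
    positivity
  linarith

/-- averages of `N` successive vectors of norm at most one -/
theorem exists_avg (T : ZT →L[ℂ] WT) (hs : Succ (fun i => cz (u i)) A B) (hn : ∀ i, ‖u i‖ = 1)
    (h0 : Tendsto (fun i => T (u i)) atTop (𝓝 0)) {N : ℕ} (hN : 0 < N) (L : ℕ) {η : ℝ} (hη : 0 < η) :
    ∃ (w : ZT) (a b : ℕ) (y : ℕ → ZT) (α β : ℕ → ℕ), L ≤ a ∧ a ≤ b ∧ OnLv a b (cz w) ∧ ‖w‖ ≤ 1 ∧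
      1 / 2 ≤ ‖w‖ ∧ ‖T w‖ ≤ η ∧ Succ (fun c => cz (y c)) α β ∧ (∀ c, ‖y c‖ ≤ 1) ∧
      w = (1 / (N : ℂ)) • ∑ c ∈ Finset.range N, y c := by
  have hNc : (N : ℂ) ≠ 0 := by exact_mod_cast hN.ne'
  have hNr : (0 : ℝ) < N := by exact_mod_cast hN
  -- the parameters
  let j := 2 * N
  have hj : j % 2 = 0 := by simp only [j]; omega
  have hj1 : 1 ≤ j := by simp only [j]; omega
  have hND : N ≤ 2 * DD j + 2 := by
    have h1 : nn (j - 1) ≤ DD j := nn_le_DD (by omega)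
    have h2 := lt_nn (j - 1)
    simp only [j] at h1 h2 ⊢
    omega
  have hNj : N ^ rr j ≤ nn j := by
    refine (Nat.pow_le_pow_left hND _).trans ?_
    refine le_trans ?_ (nn_ge_DD j)
    refine Nat.le_mul_of_pos_left _ ?_
    have := mm_pos j
    positivity
  set r := rr j with hr
  have hη' : 0 < η / 2 ^ r := by positivity
  obtain ⟨i1, hi1⟩ := Metric.tendsto_atTop.1 h0 _ hη'
  let i0 := max i1 L
  have hi0 : ∀ i, ‖T (u (i0 + i))‖ ≤ η / 2 ^ r := by
    intro i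
    have := hi1 (i0 + i) ((le_max_left i1 L).trans (Nat.le_add_right _ _))
    rw [dist_zero_right] at this
    exact this.le
  have hTY : ∀ s m, ‖T (Y u N i0 s m)‖ ≤ 2 ^ s * (η / 2 ^ r) := by
    intro s m
    rw [Y_eq, map_smul, map_sum, norm_smul, norm_pow, norm_div, Complex.norm_natCast]
    have h1 : ‖∑ i ∈ Finset.range (N ^ s), T (u (i0 + m * N ^ s + i))‖ ≤ (N : ℝ) ^ s * (η / 2 ^ r) := by
      refine (norm_sum_le _ _).trans ?_
      calc ∑ i ∈ Finset.range (N ^ s), ‖T (u (i0 + m * N ^ s + i))‖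
          ≤ ∑ i ∈ Finset.range (N ^ s), η / 2 ^ r := Finset.sum_le_sum fun i _ => by
            rw [add_assoc]
            exact hi0 _
        _ = (N : ℝ) ^ s * (η / 2 ^ r) := by
            rw [Finset.sum_const, Finset.card_range, nsmul_eq_mul]
            push_cast
            ring
    calc (‖(2 : ℂ)‖ / (N : ℝ)) ^ s * ‖∑ i ∈ Finset.range (N ^ s), T (u (i0 + m * N ^ s + i))‖
        ≤ (‖(2 : ℂ)‖ / (N : ℝ)) ^ s * ((N : ℝ) ^ s * (η / 2 ^ r)) := mul_le_mul_of_nonneg_left h1 (by positivity)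
      _ = 2 ^ s * (η / 2 ^ r) := by
          rw [← mul_assoc, ← mul_pow, Complex.norm_ofNat]
          congr 2
          field_simp
  -- the first level at which the averages are large
  have hex : ∃ s, ∃ m, 1 < ‖Y u N i0 s m‖ := ⟨r, 0, Y_large hs hn hN i0 hj hj1 hNj⟩
  classical
  have hfind := Nat.find_spec hex
  have hmin : ∀ s, s < Nat.find hex → ∀ m, ‖Y u N i0 s m‖ ≤ 1 := by
    intro s hs' m
    have := Nat.find_min hex hs'
    push Not at this
    exact this m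
  have hle : Nat.find hex ≤ r := Nat.find_min' hex ⟨0, Y_large hs hn hN i0 hj hj1 hNj⟩
  obtain ⟨m, hm⟩ := hfind
  have hpos : Nat.find hex ≠ 0 := by
    intro h1
    rw [h1] at hm
    have : ‖Y u N i0 0 m‖ = 1 := hn _
    linarith
  obtain ⟨s, hs1⟩ : ∃ s, Nat.find hex = s + 1 := ⟨Nat.find hex - 1, by omega⟩
  rw [hs1] at hm hle
  have hw : (1 / 2 : ℂ) • Y u N i0 (s + 1) m =
      (1 / (N : ℂ)) • ∑ c ∈ Finset.range N, Y u N i0 s (m * N + c) := by
    rw [Y, smul_smul]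
    congr 1
    ring
  have hy : ∀ c, ‖Y u N i0 s (m * N + c)‖ ≤ 1 := fun c => hmin s (by omega) _
  refine ⟨(1 / 2 : ℂ) • Y u N i0 (s + 1) m, A (i0 + m * N ^ (s + 1)),
    B (i0 + m * N ^ (s + 1) + (N ^ (s + 1) - 1)), fun c => Y u N i0 s (m * N + c), _, _, ?_, ?_, ?_, ?_, ?_,
    ?_, Y_succ hs hN i0 s (m * N), hy, hw⟩
  · calc L ≤ i0 := le_max_right _ _
      _ ≤ i0 + m * N ^ (s + 1) := Nat.le_add_right _ _
      _ ≤ A (i0 + m * N ^ (s + 1)) := (succ_A hs).le_apply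
  · exact (hs.2.1 _).trans ((succ_B hs).monotone (Nat.le_add_right _ _))
  · rw [map_smul]
    exact onLv_smul (Y_lv hs N i0 (s + 1) m) _
  · rw [hw, norm_smul, norm_div, norm_one, Complex.norm_natCast]
    have h1 : ‖∑ c ∈ Finset.range N, Y u N i0 s (m * N + c)‖ ≤ N := by
      refine (norm_sum_le _ _).trans ?_
      calc ∑ c ∈ Finset.range N, ‖Y u N i0 s (m * N + c)‖ ≤ ∑ c ∈ Finset.range N, (1 : ℝ) :=
            Finset.sum_le_sum fun c _ => hy c
        _ = N := by simp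
    calc 1 / (N : ℝ) * ‖∑ c ∈ Finset.range N, Y u N i0 s (m * N + c)‖ ≤ 1 / (N : ℝ) * N :=
          mul_le_mul_of_nonneg_left h1 (by positivity)
      _ = 1 := by field_simp
  · rw [norm_smul]
    have : ‖(1 / 2 : ℂ)‖ = 1 / 2 := by norm_num
    rw [this]
    linarith
  · rw [map_smul, norm_smul]
    have : ‖(1 / 2 : ℂ)‖ = 1 / 2 := by norm_num
    rw [this]
    have h1 := hTY (s + 1) m
    have h2 : (2 : ℝ) ^ (s + 1) ≤ 2 ^ r := pow_le_pow_right₀ (by norm_num) hle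
    have h3 : (2 : ℝ) ^ (s + 1) * (η / 2 ^ r) ≤ η := by
      calc (2 : ℝ) ^ (s + 1) * (η / 2 ^ r) ≤ 2 ^ r * (η / 2 ^ r) := mul_le_mul_of_nonneg_right h2 hη'.le
        _ = η := by field_simp
    linarith

/-- small weights on averages -/
theorem avg_low {x : ℕ → V} {α' β' : ℕ → ℕ} (hx : Succ x α' β') (hbd : ∀ c, Bd 1 (x c)) {J : ℕ}
    (t : Tr) (hw : t.Wf) (i : ℕ) (hi : t.wt = i + 1) (hiJ : i < J) (α β : ℕ) :
    ‖ev t (cut α β ((1 / ((nn J * mm J : ℕ) : ℂ)) • ∑ c ∈ Finset.range (nn J * mm J), x c))‖ ≤ 2 / mm i := by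
  cases t with
  | base k g => simp [Tr.wt] at hi
  | node j d c a b t =>
    have hji : j = i := by simpa [Tr.wt] using hi
    subst hji
    set N := nn J * mm J with hNdef
    have hN : 0 < N := Nat.mul_pos (nn_pos J) (mm_pos J)
    have hNr : (0 : ℝ) < N := by exact_mod_cast hN
    have hmj := mm_pos' j
    have hmJ := mm_pos' J
    have hnJ := nn_pos' J
    obtain ⟨J', K, hJ, hJd, hK, hKI, heq⟩ := splitting hx hw (Finset.range N) α β
    rw [map_smul, map_smul, norm_smul, norm_div, norm_one, Complex.norm_natCast, heq]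
    have hdn : (d : ℝ) ≤ nn J := by
      have h1 : d ≤ nn j := hw.1
      exact_mod_cast h1.trans (nn_mono hiJ.le)
    have h1 : ‖∑ l ∈ J', ev (.node j d c a b t) (cut α β (x l))‖ ≤ nn J := by
      refine (norm_sum_le _ _).trans ?_
      calc ∑ l ∈ J', ‖ev (.node j d c a b t) (cut α β (x l))‖ ≤ ∑ l ∈ J', (1 : ℝ) :=
            Finset.sum_le_sum fun l _ => hbd l _ hw α β
        _ = J'.card := by simp
        _ ≤ d := by exact_mod_cast hJd
        _ ≤ nn J := hdn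
    have h2 : ‖∑ i, cc (c i) * ev (t i) (cut (max (a i) α) (min (b i) β) (∑ l ∈ K i, x l))‖ ≤ N := by
      refine (norm_sum_le _ _).trans ?_
      calc ∑ i, ‖cc (c i) * ev (t i) (cut (max (a i) α) (min (b i) β) (∑ l ∈ K i, x l))‖
          ≤ ∑ i, ((K i).card : ℝ) := by
            refine Finset.sum_le_sum fun i _ => ?_
            rw [norm_mul]
            have h3 : ‖ev (t i) (cut (max (a i) α) (min (b i) β) (∑ l ∈ K i, x l))‖ ≤ (K i).card := by
              rw [map_sum, map_sum]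
              refine (norm_sum_le _ _).trans ?_
              calc ∑ l ∈ K i, ‖ev (t i) (cut (max (a i) α) (min (b i) β) (x l))‖ ≤ ∑ l ∈ K i, (1 : ℝ) :=
                    Finset.sum_le_sum fun l _ => hbd l _ (hw.2.1 i) _ _
                _ = (K i).card := by simp
            calc ‖cc (c i)‖ * ‖ev (t i) (cut (max (a i) α) (min (b i) β) (∑ l ∈ K i, x l))‖
                ≤ 1 * ((K i).card : ℝ) := mul_le_mul (hw.2.2.1 i) h3 (norm_nonneg _) zero_le_one
              _ = _ := one_mul _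
        _ ≤ N := by
            have h4 : (∑ i, (K i).card) ≤ N := by
              rw [Finset.card_range] at hKI
              exact hKI
            exact_mod_cast h4
    have h3 : ‖(∑ l ∈ J', ev (.node j d c a b t) (cut α β (x l))) +
        (mm j : ℂ)⁻¹ * ∑ i, cc (c i) * ev (t i) (cut (max (a i) α) (min (b i) β) (∑ l ∈ K i, x l))‖ ≤
        nn J + (mm j : ℝ)⁻¹ * N := by
      refine (norm_add_le _ _).trans (add_le_add h1 ?_)
      rw [norm_mul, norm_inv, Complex.norm_natCast]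
      exact mul_le_mul_of_nonneg_left h2 (by positivity)
    refine (mul_le_mul_of_nonneg_left h3 (by positivity)).trans ?_
    have h4 : (N : ℝ) = nn J * mm J := by rw [hNdef]; push_cast; ring
    have h5 : 1 / (N : ℝ) * (nn J + (mm j : ℝ)⁻¹ * N) = 1 / mm J + 1 / mm j := by
      rw [h4]
      field_simp
    rw [h5]
    have h6 : 1 / (mm J : ℝ) ≤ 1 / mm j := by
      apply one_div_le_one_div_of_le hmj
      exact_mod_cast mm_mono hiJ.le
    have h7 : (2 : ℝ) / mm j = 1 / mm j + 1 / mm j := by ring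
    rw [h7]
    linarith

/-- one step of the recursion -/
theorem exists_block (T : ZT →L[ℂ] WT) (hs : Succ (fun i => cz (u i)) A B) (hn : ∀ i, ‖u i‖ = 1)
    (h0 : Tendsto (fun i => T (u i)) atTop (𝓝 0)) (J L : ℕ) {η : ℝ} (hη : 0 < η) :
    ∃ (w : ZT) (a b : ℕ), L ≤ a ∧ a ≤ b ∧ OnLv a b (cz w) ∧ ‖w‖ ≤ 1 ∧ 1 / 2 ≤ ‖w‖ ∧ ‖T w‖ ≤ η ∧
      ∀ t : Tr, t.Wf → ∀ i, t.wt = i + 1 → i < J → ∀ α β, ‖ev t (cut α β (cz w))‖ ≤ 2 / mm i := by
  obtain ⟨w, a, b, y, α', β', h1, h2, h3, h4, h5, h6, h7, h8, h9⟩ := exists_avg T hs hn h0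
    (N := nn J * mm J) (Nat.mul_pos (nn_pos J) (mm_pos J)) L hη
  refine ⟨w, a, b, h1, h2, h3, h4, h5, h6, fun t ht i hi hiJ α β => ?_⟩
  have h10 : cz w = (1 / ((nn J * mm J : ℕ) : ℂ)) • ∑ c ∈ Finset.range (nn J * mm J), cz (y c) := by
    rw [h9, map_smul, map_sum]
  rw [h10]
  exact avg_low h7 (fun c => (ZT.bd (y c)).mono (h8 c)) t ht i hi hiJ α β

/-- large weights -/
theorem high_est {w : ZT} (hw1 : ‖w‖ ≤ 1) {a b : ℕ} (hlv : OnLv a b (cz w)) (l : ℕ) (t : Tr) (hw : t.Wf)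
    (i : ℕ) (hi : t.wt = i + 1) (hil : l + b + 1 ≤ i) (α β : ℕ) :
    ‖ev t (cut α β (cz w))‖ ≤ (1 / 2) ^ l := by
  cases t with
  | base k g => simp [Tr.wt] at hi
  | node j d c a' b' t =>
    have hji : j = i := by simpa [Tr.wt] using hi
    subst hji
    refine (ev_node_le_sum hlv (fun _ => 1) (fun _ => zero_le_one) (fun k g _ =>
      (norm_cw_le (inc w) k g).trans hw1) hw α β).trans ?_
    rw [Finset.sum_const, nsmul_eq_mul, mul_one, Nat.card_Icc]
    have h1 : ((b + 1 - a : ℕ) : ℝ) ≤ 2 ^ (b + 1) := by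
      have : b + 1 - a ≤ 2 ^ (b + 1) := (Nat.sub_le _ _).trans Nat.lt_two_pow_self.le
      exact_mod_cast this
    have h2 : (2 : ℝ) ^ l * 2 ^ (b + 1) ≤ mm j := by
      have h3 : 2 ^ (l + (b + 1)) ≤ mm j := by
        unfold mm
        refine Nat.pow_le_pow_right (by norm_num) ?_
        have : j + 1 < 2 ^ (j + 1) := Nat.lt_two_pow_self
        omega
      rw [← pow_add]
      exact_mod_cast h3
    have hmj := mm_pos' j
    rw [inv_mul_le_iff₀ hmj, one_div, inv_pow, ← div_eq_mul_inv, le_div_iff₀ (by positivity)]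
    calc ((b + 1 - a : ℕ) : ℝ) * 2 ^ l ≤ 2 ^ (b + 1) * 2 ^ l := mul_le_mul_of_nonneg_right h1 (by positivity)
      _ = 2 ^ l * 2 ^ (b + 1) := mul_comm _ _
      _ ≤ mm j := h2

end

theorem exists_ris (T : ZT →L[ℂ] WT) (u : ℕ → ZT) (A B : ℕ → ℕ) (hs : Succ (fun i => cz (u i)) A B)
    (hn : ∀ i, ‖u i‖ = 1) (h0 : Tendsto (fun i => T (u i)) atTop (𝓝 0)) :
    ∃ (w : ℕ → ZT) (A' B' J : ℕ → ℕ), RIS 2 (fun l => cz (w l)) A' B' J ∧ (∀ l, 1 / 2 ≤ ‖w l‖) ∧
      Tendsto (fun l => T (w l)) atTop (𝓝 0) := by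
  have hstep : ∀ J L l : ℕ, ∃ (w : ZT) (a b : ℕ), L ≤ a ∧ a ≤ b ∧ OnLv a b (cz w) ∧ ‖w‖ ≤ 1 ∧ 1 / 2 ≤ ‖w‖ ∧
      ‖T w‖ ≤ 1 / ((l : ℝ) + 1) ∧
      ∀ t : Tr, t.Wf → ∀ i, t.wt = i + 1 → i < J → ∀ α β, ‖ev t (cut α β (cz w))‖ ≤ 2 / mm i :=
    fun J L l => exists_block T hs hn h0 J L (by positivity)
  choose w a b h1 h2 h3 h4 h5 h6 h7 using hstep
  let st : ℕ → ℕ × ℕ := fun l => Nat.rec (0, 0)
    (fun l p => (max (p.1 + 1) (l + b p.1 p.2 l + 1), b p.1 p.2 l + 1)) l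
  have hst : ∀ l, st (l + 1) = (max ((st l).1 + 1) (l + b (st l).1 (st l).2 l + 1), b (st l).1 (st l).2 l + 1) :=
    fun _ => rfl
  let A' : ℕ → ℕ := fun l => a (st l).1 (st l).2 l
  let B' : ℕ → ℕ := fun l => b (st l).1 (st l).2 l
  have hAB : ∀ l, A' l ≤ B' l := fun l => h2 _ _ _
  have hBA : ∀ l, B' l < A' (l + 1) := by
    intro l
    have h8 := h1 (st (l + 1)).1 (st (l + 1)).2 (l + 1)
    have h9 : (st (l + 1)).2 = B' l + 1 := by rw [hst]
    have h10 : (st (l + 1)).2 ≤ A' (l + 1) := h8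
    omega
  have hA : StrictMono A' := strictMono_nat_of_lt_succ fun l => (hAB l).trans_lt (hBA l)
  have hsucc : ∀ l l', l < l' → B' l < A' l' := fun l l' hll' =>
    (hBA l).trans_le (hA.monotone hll')
  refine ⟨fun l => w (st l).1 (st l).2 l, A', B', fun l => (st l).1, ?_, fun l => h5 _ _ _, ?_⟩
  · refine ⟨by norm_num, ⟨fun l => h3 _ _ _, hAB, hsucc⟩, fun l => ?_, ?_, ?_, ?_⟩
    · exact (ZT.bd _).mono ((h4 _ _ _).trans (by norm_num))
    · refine strictMono_nat_of_lt_succ fun l => ?_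
      show (st l).1 < (st (l + 1)).1
      rw [hst]
      exact lt_of_lt_of_le (Nat.lt_succ_self _) (le_max_left _ _)
    · intro l t ht i hi hiJ α β
      exact h7 _ _ _ t ht i hi hiJ α β
    · intro l t ht i hi hiJ α β
      refine high_est (h4 _ _ _) (h3 (st l).1 (st l).2 l) l t ht i hi ?_ α β
      refine le_trans ?_ hiJ
      show _ ≤ (st (l + 1)).1
      rw [hst]
      exact le_max_right _ _
  · refine squeeze_zero_norm (fun l => h6 _ _ _) ?_
    exact tendsto_one_div_add_atTop_nhds_zero_nat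

end

end Pool.Agent.TH541.HA2
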