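import Pool.Agent.TH598.GV.Defs

set_option autoImplicit false

/-!
Job 3422 (GV-K): from a positive definite block and the index `(0, false)` to a semidefinite block
and any index set.
-/

namespace Pool.Agent.TH541.J3422

open Finset MeasureTheory Pool.Agent.TH598.GV
open scoped ComplexConjugate ComplexOrder

/-- the assumed statement `coord` -/
def Coord : Prop := ∀ {k : ℕ} (H : Ix k → Ix k → Ix k → Ix k → ℂ), HS H → (BB H).PosDef →
    (∀ z w : Ix k → ℂ, 0 ≤ (qf H z w).re) → 0 ≤ (GG H).re

section relabel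

variable {B C : Type} [Fintype B] [DecidableEq B] [Fintype C] [DecidableEq C]

lemma cs_mul (σ τ : Equiv.Perm (B × Bool)) : cs (σ * τ) = cs σ * cs τ := by
  unfold cs
  rw [Equiv.Perm.sign_mul]
  push_cast
  rfl

lemma cs_sq (σ : Equiv.Perm (B × Bool)) : cs σ * cs σ = 1 := by
  unfold cs
  rw [← Int.cast_mul, ← Units.val_mul, Int.units_mul_self]
  simp

/-- permuting the indices -/
lemma GG_perm (π : Equiv.Perm (B × Bool)) (H : B × Bool → B × Bool → B × Bool → B × Bool → ℂ) :
    GG (fun i j i' j' => H (π i) (π j) (π i') (π j')) = GG H := by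
  unfold GG
  have e : ∀ F : Equiv.Perm (B × Bool) → ℂ, ∑ σ, F σ = ∑ σ, F (π * σ) := fun F =>
    (Equiv.sum_comp (Equiv.mulLeft π) F).symm
  rw [e (fun σ => ∑ τ : Equiv.Perm (B × Bool), cs σ * cs τ *
    ∏ b : B, H (σ (b, false)) (σ (b, true)) (τ (b, false)) (τ (b, true)))]
  refine Finset.sum_congr rfl fun σ _ => ?_
  rw [e (fun τ => cs (π * σ) * cs τ *
    ∏ b : B, H ((π * σ) (b, false)) ((π * σ) (b, true)) (τ (b, false)) (τ (b, true)))]
  refine Finset.sum_congr rfl fun τ _ => ?_
  rw [cs_mul, cs_mul]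
  simp only [Equiv.Perm.mul_apply]
  have h := cs_sq π
  linear_combination (-(cs σ * cs τ * ∏ b : B, H (π (σ (b, false))) (π (σ (b, true)))
    (π (τ (b, false))) (π (τ (b, true))))) * h

/-- relabelling `B` -/
lemma GG_relabel (f : C ≃ B) (H : B × Bool → B × Bool → B × Bool → B × Bool → ℂ) :
    GG (fun i j i' j' : C × Bool => H (f.prodCongr (Equiv.refl Bool) i)
      (f.prodCongr (Equiv.refl Bool) j) (f.prodCongr (Equiv.refl Bool) i')
      (f.prodCongr (Equiv.refl Bool) j')) = GG H := by
  set F : C × Bool ≃ B × Bool := f.prodCongr (Equiv.refl Bool) with hF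
  unfold GG
  have e : ∀ G : Equiv.Perm (B × Bool) → ℂ, ∑ σ, G σ = ∑ σ, G (F.permCongr σ) := fun G =>
    (Equiv.sum_comp F.permCongr G).symm
  rw [e (fun σ => ∑ τ : Equiv.Perm (B × Bool), cs σ * cs τ *
    ∏ b : B, H (σ (b, false)) (σ (b, true)) (τ (b, false)) (τ (b, true)))]
  refine Finset.sum_congr rfl fun σ _ => ?_
  rw [e (fun τ => cs (F.permCongr σ) * cs τ *
    ∏ b : B, H ((F.permCongr σ) (b, false)) ((F.permCongr σ) (b, true)) (τ (b, false))
      (τ (b, true)))]
  refine Finset.sum_congr rfl fun τ _ => ?_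
  have hc : ∀ σ : Equiv.Perm (C × Bool), cs (F.permCongr σ) = cs σ := by
    intro σ
    unfold cs
    rw [Equiv.Perm.sign_permCongr]
  rw [hc, hc]
  congr 1
  rw [← Equiv.prod_comp f]
  refine Finset.prod_congr rfl fun b _ => ?_
  have h2 : ∀ (σ : Equiv.Perm (C × Bool)) (x : Bool), (F.permCongr σ) (f b, x) = F (σ (b, x)) := by
    intro σ x
    rw [Equiv.permCongr_apply]
    congr 2
    rw [Equiv.symm_apply_eq]
    rfl
  rw [h2, h2, h2, h2]

end relabel

/-- the curvature tensor of the unit sphere -/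
noncomputable def II {I : Type} [DecidableEq I] : I → I → I → I → ℂ := fun i j i' j' =>
  (if i = i' then 1 else 0) * (if j = j' then 1 else 0) -
    (if i = j' then 1 else 0) * (if j = i' then 1 else 0)

lemma II_HS {I : Type} [DecidableEq I] : HS (II (I := I)) := by
  constructor
  · intro i j k l
    unfold II
    simp only [map_sub, map_mul, apply_ite (starRingEnd ℂ), map_one, map_zero]
    rw [show (if k = i then (1 : ℂ) else 0) = if i = k then 1 else 0 by simp only [eq_comm],
      show (if l = j then (1 : ℂ) else 0) = if j = l then 1 else 0 by simp only [eq_comm],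
      show (if k = j then (1 : ℂ) else 0) = if j = k then 1 else 0 by simp only [eq_comm],
      show (if l = i then (1 : ℂ) else 0) = if i = l then 1 else 0 by simp only [eq_comm]]
    ring
  · intro i j k l
    unfold II
    ring

lemma qf_II {I : Type} [Fintype I] [DecidableEq I] (z w : I → ℂ) :
    0 ≤ (qf (II (I := I)) z w).re := by
  have h : qf (II (I := I)) z w = (∑ i, z i * conj (z i)) * (∑ j, w j * conj (w j)) -
      (∑ i, z i * conj (w i)) * (∑ j, w j * conj (z j)) := by
    unfold qf II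
    have h1 : ∀ i j, (∑ i', ∑ j', ((if i = i' then (1 : ℂ) else 0) * (if j = j' then 1 else 0) -
        (if i = j' then 1 else 0) * (if j = i' then 1 else 0)) *
        (z i * w j * conj (z i') * conj (w j'))) =
        z i * w j * conj (z i) * conj (w j) - z i * w j * conj (z j) * conj (w i) := by
      intro i j
      simp only [sub_mul, Finset.sum_sub_distrib]
      congr 1
      · rw [Finset.sum_eq_single i, Finset.sum_eq_single j]
        · simp
        · intro b _ hb
          simp [Ne.symm hb]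
        · simp
        · intro b _ hb
          simp [Ne.symm hb]
        · simp
      · rw [Finset.sum_eq_single j, Finset.sum_eq_single i]
        · simp
        · intro b _ hb
          simp [Ne.symm hb]
        · simp
        · intro b _ hb
          simp [Ne.symm hb]
        · simp
    simp only [h1, Finset.sum_sub_distrib]
    rw [Finset.sum_mul_sum, Finset.sum_mul_sum]
    congr 1
    · refine Finset.sum_congr rfl fun i _ => Finset.sum_congr rfl fun j _ => by ring
    · refine Finset.sum_congr rfl fun i _ => Finset.sum_congr rfl fun j _ => by ring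
  rw [h]
  have hz : (∑ i, z i * conj (z i)) = ((∑ i, ‖z i‖ ^ 2 : ℝ) : ℂ) := by
    push_cast
    exact Finset.sum_congr rfl fun i _ => by rw [Complex.mul_conj, Complex.normSq_eq_norm_sq]; push_cast; rfl
  have hw : (∑ i, w i * conj (w i)) = ((∑ i, ‖w i‖ ^ 2 : ℝ) : ℂ) := by
    push_cast
    exact Finset.sum_congr rfl fun i _ => by rw [Complex.mul_conj, Complex.normSq_eq_norm_sq]; push_cast; rfl
  have hzw : (∑ i, z i * conj (w i)) * (∑ j, w j * conj (z j)) =
      ((‖∑ i, z i * conj (w i)‖ ^ 2 : ℝ) : ℂ) := by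
    have : (∑ j, w j * conj (z j)) = conj (∑ i, z i * conj (w i)) := by
      rw [map_sum]
      exact Finset.sum_congr rfl fun i _ => by simp [mul_comm]
    rw [this, Complex.mul_conj, Complex.normSq_eq_norm_sq]
  rw [hz, hw, hzw, ← Complex.ofReal_mul, ← Complex.ofReal_sub, Complex.ofReal_re]
  have hcs : ‖∑ i, z i * conj (w i)‖ ^ 2 ≤ (∑ i, ‖z i‖ ^ 2) * (∑ i, ‖w i‖ ^ 2) := by
    have h1 : ‖∑ i, z i * conj (w i)‖ ≤ ∑ i, ‖z i‖ * ‖w i‖ := by
      refine (norm_sum_le _ _).trans (le_of_eq ?_)
      exact Finset.sum_congr rfl fun i _ => by simp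
    calc ‖∑ i, z i * conj (w i)‖ ^ 2 ≤ (∑ i, ‖z i‖ * ‖w i‖) ^ 2 :=
          pow_le_pow_left₀ (norm_nonneg _) h1 2
      _ ≤ (∑ i, ‖z i‖ ^ 2) * (∑ i, ‖w i‖ ^ 2) := Finset.sum_mul_sq_le_sq_mul_sq _ _ _
  linarith

section block

variable {k : ℕ}

/-- rank of an index -/
def rk (i : Ix k) : ℕ := if i.1 = 0 then 0 else 2 * i.1.val + (if i.2 then 1 else 0)

lemma rk_em (j : K k) : rk (em j) = ps j + 2 := by
  unfold rk Pool.Agent.TH598.GV.em ps
  rw [if_neg (Fin.succ_ne_zero _)]
  simp only [Fin.val_succ]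
  ring

lemma rk_e1 : rk (e1 : Ix k) = 0 := by
  unfold rk e1
  simp

lemma pr_lt (s : Sx k) : rk (pr s).1 < rk (pr s).2 := by
  rcases s with j | p
  · show rk (e1 : Ix k) < rk (em j)
    rw [rk_e1, rk_em]
    omega
  · show rk (em p.1.1) < rk (em p.1.2)
    rw [rk_em, rk_em]
    have := p.2
    omega

lemma em_inj {a b : K k} (h : (em a : Ix k) = em b) : a = b := by
  unfold Pool.Agent.TH598.GV.em at h
  have h1 := congrArg Prod.fst h
  have h2 := congrArg Prod.snd h
  exact Prod.ext (Fin.succ_injective _ h1) h2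

lemma em_ne (j : K k) (i : Bool) : (em j : Ix k) ≠ (0, i) := by
  intro h
  exact Fin.succ_ne_zero _ (congrArg Prod.fst h)

lemma pr_inj {s t : Sx k} (h : pr s = pr t) : s = t := by
  rcases s with j | p <;> rcases t with j' | p'
  · have h2 : (em j : Ix k) = em j' := congrArg Prod.snd h
    rw [em_inj h2]
  · have h1 : (e1 : Ix k) = em p'.1.1 := congrArg Prod.fst h
    exact absurd h1.symm (em_ne _ _)
  · have h1 : (em p.1.1 : Ix k) = e1 := congrArg Prod.fst h
    exact absurd h1 (em_ne _ _)
  · have h1 : (em p.1.1 : Ix k) = em p'.1.1 := congrArg Prod.fst h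
    have h2 : (em p.1.2 : Ix k) = em p'.1.2 := congrArg Prod.snd h
    congr 1
    exact Subtype.ext (Prod.ext (em_inj h1) (em_inj h2))

lemma pr_e0 (s : Sx k) : (pr s).1 ≠ e0 ∧ (pr s).2 ≠ e0 := by
  rcases s with j | p
  · refine ⟨?_, em_ne _ _⟩
    show (e1 : Ix k) ≠ e0
    unfold e1 e0
    simp
  · exact ⟨em_ne _ _, em_ne _ _⟩

lemma BB_II : BB (II (I := Ix k)) = 1 := by
  ext s t
  unfold BB II
  by_cases h : s = t
  · subst h
    rw [Matrix.one_apply_eq, if_pos rfl, if_pos rfl]
    have hlt := pr_lt s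
    rw [if_neg (fun h => by rw [h] at hlt; exact lt_irrefl _ hlt)]
    ring
  · rw [Matrix.one_apply_ne h]
    have h1 : ¬ ((pr s).1 = (pr t).1 ∧ (pr s).2 = (pr t).2) := fun hh =>
      h (pr_inj (Prod.ext hh.1 hh.2))
    have h2 : ¬ ((pr s).1 = (pr t).2 ∧ (pr s).2 = (pr t).1) := by
      rintro ⟨ha, hb⟩
      have hs := pr_lt s
      have ht := pr_lt t
      rw [ha, hb] at hs
      exact lt_asymm hs ht
    have e1' : (if (pr s).1 = (pr t).1 then (1 : ℂ) else 0) *
        (if (pr s).2 = (pr t).2 then 1 else 0) = 0 := by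
      by_cases ha : (pr s).1 = (pr t).1
      · rw [if_neg (fun hb => h1 ⟨ha, hb⟩), mul_zero]
      · rw [if_neg ha, zero_mul]
    have e2' : (if (pr s).1 = (pr t).2 then (1 : ℂ) else 0) *
        (if (pr s).2 = (pr t).1 then 1 else 0) = 0 := by
      by_cases ha : (pr s).1 = (pr t).2
      · rw [if_neg (fun hb => h2 ⟨ha, hb⟩), mul_zero]
      · rw [if_neg ha, zero_mul]
    rw [e1', e2', sub_zero]

lemma BB_herm {H : Ix k → Ix k → Ix k → Ix k → ℂ} (hH : HS H) : (BB H).IsHermitian := by
  ext s t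
  rw [Matrix.conjTranspose_apply]
  unfold BB
  rw [hH.herm (pr s).1 (pr s).2 (pr t).1 (pr t).2]
  exact Complex.conj_conj _

/-- the block is positive semidefinite -/
lemma BB_psd {H : Ix k → Ix k → Ix k → Ix k → ℂ} (hH : HS H)
    (hB : ∀ p : Ix k → Ix k → ℂ, (∀ j, p e0 j = 0) → (∀ j, p j e0 = 0) →
      0 ≤ (∑ i, ∑ j, ∑ i', ∑ j', H i j i' j' * (p i j * conj (p i' j'))).re) :
    (BB H).PosSemidef := by
  refine Matrix.PosSemidef.of_dotProduct_mulVec_nonneg (BB_herm hH) fun c => ?_
  set p : Ix k → Ix k → ℂ := fun i j => ∑ s, conj (c s) * (if (i, j) = pr s then 1 else 0) with hp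
  have key : ∑ i, ∑ j, ∑ i', ∑ j', H i j i' j' * (p i j * conj (p i' j')) =
      star c ⬝ᵥ (BB H).mulVec c := by
    have h1 : ∀ F : Ix k → Ix k → ℂ, ∑ i, ∑ j, F i j * p i j =
        ∑ s, conj (c s) * F (pr s).1 (pr s).2 := by
      intro F
      rw [← Fintype.sum_prod_type' (f := fun i j => F i j * p i j)]
      simp only [hp, Finset.mul_sum]
      rw [Finset.sum_comm]
      refine Finset.sum_congr rfl fun s _ => ?_
      rw [Finset.sum_eq_single (pr s)]
      · rw [if_pos rfl]; ring
      · intro b _ hb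
        rw [if_neg hb]; ring
      · simp
    have h2 : ∀ F : Ix k → Ix k → ℂ, ∑ i, ∑ j, F i j * conj (p i j) =
        ∑ s, c s * F (pr s).1 (pr s).2 := by
      intro F
      have h := congrArg conj (h1 (fun i j => conj (F i j)))
      simp only [map_sum, map_mul, Complex.conj_conj] at h
      exact h
    have h3 : ∀ i j, ∑ i', ∑ j', H i j i' j' * (p i j * conj (p i' j')) =
        (∑ t, c t * H i j (pr t).1 (pr t).2) * p i j := by
      intro i j
      have h := h2 (fun i' j' => H i j i' j')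
      rw [← h, Finset.sum_mul]
      refine Finset.sum_congr rfl fun i' _ => ?_
      rw [Finset.sum_mul]
      exact Finset.sum_congr rfl fun j' _ => by ring
    simp only [h3]
    rw [h1 (fun i j => ∑ t, c t * H i j (pr t).1 (pr t).2)]
    unfold dotProduct Matrix.mulVec dotProduct BB
    refine Finset.sum_congr rfl fun s _ => ?_
    congr 1
    exact Finset.sum_congr rfl fun t _ => mul_comm _ _
  have hre := hB p ?_ ?_
  · rw [key] at hre
    rw [Complex.le_def]
    refine ⟨hre, ?_⟩
    -- imaginary part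
    have hh := BB_herm hH
    have him : (star c ⬝ᵥ (BB H).mulVec c).im = 0 := by
      have hs : conj (star c ⬝ᵥ (BB H).mulVec c) = star c ⬝ᵥ (BB H).mulVec c := by
        unfold dotProduct Matrix.mulVec dotProduct
        rw [map_sum]
        simp only [map_mul, map_sum, Finset.mul_sum]
        rw [Finset.sum_comm]
        refine Finset.sum_congr rfl fun t _ => Finset.sum_congr rfl fun s _ => ?_
        have e : conj (BB H s t) = BB H t s := by
          have := congrFun (congrFun hh t) s
          rw [Matrix.conjTranspose_apply] at this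
          exact this
        rw [e]
        simp only [Pi.star_apply, RCLike.star_def, Complex.conj_conj]
        ring
      exact Complex.conj_eq_iff_im.1 hs
    rw [him]
    rfl
  · intro j
    simp only [hp]
    refine Finset.sum_eq_zero fun s _ => ?_
    rw [if_neg, mul_zero]
    intro h
    exact (pr_e0 s).1 (congrArg Prod.fst h).symm
  · intro j
    simp only [hp]
    refine Finset.sum_eq_zero fun s _ => ?_
    rw [if_neg, mul_zero]
    intro h
    exact (pr_e0 s).2 (congrArg Prod.snd h).symm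

/-- the semidefinite case on `Ix k` -/
theorem semi (coord : Coord) (H : Ix k → Ix k → Ix k → Ix k → ℂ) (hH : HS H)
    (hB : ∀ p : Ix k → Ix k → ℂ, (∀ j, p e0 j = 0) → (∀ j, p j e0 = 0) →
      0 ≤ (∑ i, ∑ j, ∑ i', ∑ j', H i j i' j' * (p i j * conj (p i' j'))).re)
    (hK : ∀ z w : Ix k → ℂ, 0 ≤ (qf H z w).re) : 0 ≤ (GG H).re := by
  set He : ℝ → Ix k → Ix k → Ix k → Ix k → ℂ := fun ε i j i' j' =>
    H i j i' j' + (ε : ℂ) * II i j i' j' with hHe
  have hpos : ∀ ε : ℝ, 0 < ε → 0 ≤ (GG (He ε)).re := by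
    intro ε hε
    refine coord (He ε) ⟨?_, ?_⟩ ?_ ?_
    · intro i j i' j'
      simp only [hHe, map_add, map_mul, Complex.conj_ofReal]
      rw [hH.herm, II_HS.herm]
    · intro i j i' j'
      simp only [hHe]
      rw [hH.alt, II_HS.alt]
      ring
    · have hb : BB (He ε) = BB H + ε • (1 : Matrix (Sx k) (Sx k) ℂ) := by
        rw [← BB_II]
        ext s t
        simp only [BB, hHe, Matrix.add_apply, Matrix.smul_apply, Complex.real_smul]
      rw [hb]
      refine Matrix.PosDef.posSemidef_add (BB_psd hH hB) ?_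
      exact Matrix.PosDef.smul Matrix.PosDef.one hε
    · intro z w
      have hq : qf (He ε) z w = qf H z w + (ε : ℂ) * qf II z w := by
        unfold qf
        simp only [hHe, add_mul, Finset.sum_add_distrib, Finset.mul_sum]
        congr 1
        refine Finset.sum_congr rfl fun i _ => Finset.sum_congr rfl fun j _ =>
          Finset.sum_congr rfl fun i' _ => Finset.sum_congr rfl fun j' _ => by ring
      rw [hq, Complex.add_re, Complex.re_ofReal_mul]
      exact add_nonneg (hK z w) (mul_nonneg hε.le (qf_II z w))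
  have hc : Continuous fun ε : ℝ => (GG (He ε)).re := by
    unfold GG
    simp only [hHe]
    fun_prop
  have h0 : (GG (He 0)).re = (GG H).re := by
    congr 2
    funext i j i' j'
    simp [hHe]
  have ht : Filter.Tendsto (fun ε : ℝ => (GG (He ε)).re) (nhdsWithin 0 (Set.Ioi 0))
      (nhds (GG H).re) := by
    rw [← h0]
    exact (hc.tendsto 0).mono_left nhdsWithin_le_nhds
  exact ge_of_tendsto ht (Filter.eventually_of_mem self_mem_nhdsWithin fun ε hε => hpos ε hε)

end block

/-- every index set, semidefinite block -/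
theorem gen_of (coord : Coord) {B : Type} [Fintype B] [DecidableEq B]
    (H : B × Bool → B × Bool → B × Bool → B × Bool → ℂ) (hH : HS H) (i0 : B × Bool)
    (hB : ∀ p : B × Bool → B × Bool → ℂ, (∀ j, p i0 j = 0) → (∀ j, p j i0 = 0) →
      0 ≤ (∑ i, ∑ j, ∑ i', ∑ j', H i j i' j' * (p i j * conj (p i' j'))).re)
    (hK : ∀ z w : B × Bool → ℂ, 0 ≤ (qf H z w).re) : 0 ≤ (GG H).re := by
  have : Nonempty B := ⟨i0.1⟩
  obtain ⟨k, hk⟩ : ∃ k, Fintype.card B = k + 1 :=
    ⟨Fintype.card B - 1, (Nat.succ_pred_eq_of_pos Fintype.card_pos).symm⟩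
  let f : Fin (k + 1) ≃ B := (Fintype.equivFinOfCardEq hk).symm
  set F : Ix k ≃ B × Bool := f.prodCongr (Equiv.refl Bool) with hF
  set π : Equiv.Perm (Ix k) := Equiv.swap (F.symm i0) e0 with hπ
  set G : Ix k ≃ B × Bool := π.trans F with hG
  have hG0 : G e0 = i0 := by
    simp [hG, hπ]
  set H' : Ix k → Ix k → Ix k → Ix k → ℂ := fun i j i' j' => H (G i) (G j) (G i') (G j') with hH'
  have hGG : GG H' = GG H := by
    rw [← GG_relabel f H]
    rw [← GG_perm π (fun i j i' j' : Ix k => H (f.prodCongr (Equiv.refl Bool) i)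
      (f.prodCongr (Equiv.refl Bool) j) (f.prodCongr (Equiv.refl Bool) i')
      (f.prodCongr (Equiv.refl Bool) j'))]
    rfl
  rw [← hGG]
  have hsum : ∀ Φ : B × Bool → B × Bool → B × Bool → B × Bool → ℂ,
      ∑ i, ∑ j, ∑ i', ∑ j', Φ (G i) (G j) (G i') (G j') =
        ∑ i, ∑ j, ∑ i', ∑ j', Φ i j i' j' := by
    intro Φ
    rw [← Equiv.sum_comp G (fun i => ∑ j, ∑ i', ∑ j', Φ i j i' j')]
    refine Finset.sum_congr rfl fun i _ => ?_
    rw [← Equiv.sum_comp G (fun j => ∑ i', ∑ j', Φ (G i) j i' j')]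
    refine Finset.sum_congr rfl fun j _ => ?_
    rw [← Equiv.sum_comp G (fun i' => ∑ j', Φ (G i) (G j) i' j')]
    refine Finset.sum_congr rfl fun i' _ => ?_
    rw [← Equiv.sum_comp G (fun j' => Φ (G i) (G j) (G i') j')]
  refine semi coord H' ⟨fun i j i' j' => hH.herm _ _ _ _, fun i j i' j' => hH.alt _ _ _ _⟩ ?_ ?_
  · intro p hp1 hp2
    have h := hB (fun i j => p (G.symm i) (G.symm j))
      (fun j => by
        show p (G.symm i0) (G.symm j) = 0
        rw [← hG0, Equiv.symm_apply_apply]
        exact hp1 _)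
      (fun j => by
        show p (G.symm j) (G.symm i0) = 0
        rw [← hG0, Equiv.symm_apply_apply]
        exact hp2 _)
    rw [← hsum (fun i j i' j' => H i j i' j' * (p (G.symm i) (G.symm j) *
      conj (p (G.symm i') (G.symm j'))))] at h
    simp only [Equiv.symm_apply_apply] at h
    exact h
  · intro z w
    have h := hK (z ∘ G.symm) (w ∘ G.symm)
    unfold qf at h ⊢
    rw [← hsum (fun i j i' j' => H i j i' j' * ((z ∘ G.symm) i * (w ∘ G.symm) j *
      conj ((z ∘ G.symm) i') * conj ((w ∘ G.symm) j')))] at h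
    simp only [Function.comp_apply, Equiv.symm_apply_apply] at h
    exact h

end Pool.Agent.TH541.J3422
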