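import Pool.Agent.TH378.CW.Base

/-!
# Null lemma for bodies of constant width (job CW-J3 for helper378, by helper541)
-/

set_option autoImplicit false

namespace Pool.Agent.TH541.CWN

open MeasureTheory Metric Pool.Agent.TH378.CW Filter Topology
open scoped Real RealInnerProductSpace

variable {K : Set H}

theorem inner_of_mem (hK : Wid K) {q u : H} (hu : ‖u‖ = 1) (hqu : q - u ∈ K) {x : H} (hx : x ∈ K) :
    ⟪u, x - q⟫ ≤ -‖x - q‖ ^ 2 / 2 := by
  have h1 := hK.diam x hx (q - u) hqu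
  have h2 : x - (q - u) = (x - q) + u := by abel
  rw [h2] at h1
  have h3 : ‖(x - q) + u‖ ^ 2 ≤ 1 := by
    have := norm_nonneg ((x - q) + u)
    nlinarith
  rw [norm_add_sq_real, hu, real_inner_comm] at h3
  linarith

theorem mem_Nc (hK : Wid K) {q u : H} (hu : ‖u‖ = 1) (hqu : q - u ∈ K) : u ∈ Nc K q := by
  intro x hx
  have := inner_of_mem hK hu hqu hx
  have := sq_nonneg ‖x - q‖
  linarith

theorem uniq (hK : Wid K) {q q' u : H} (hu : ‖u‖ = 1) (hq : q ∈ K) (hq' : q' ∈ K)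
    (hn : u ∈ Nc K q) (hqu' : q' - u ∈ K) : q = q' := by
  have h1 := inner_of_mem hK hu hqu' hq
  have h2 := hn q' hq'
  have h3 : ⟪u, q - q'⟫ = -⟪u, q' - q⟫ := by
    rw [← inner_neg_right, neg_sub]
  rw [h3] at h1
  have h4 : ‖q - q'‖ ^ 2 ≤ 0 := by linarith
  have h5 : ‖q - q'‖ = 0 := by
    have := sq_nonneg ‖q - q'‖
    exact pow_eq_zero_iff (two_ne_zero) |>.1 (le_antisymm h4 this)
  exact sub_eq_zero.1 (norm_eq_zero.1 h5)

theorem sub_mem (hK : Wid K) {q u : H} (hu : ‖u‖ = 1) (hq : q ∈ K) (hn : u ∈ Nc K q) :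
    q - u ∈ K := by
  obtain ⟨q', hq', hqu'⟩ := hK.dia u hu
  rw [uniq hK hu hq hq' hn hqu']
  exact hqu'

open Classical in
/-- the support point -/
noncomputable def sp (hK : Wid K) (u : H) : H :=
  if h : ‖u‖ = 1 then (hK.dia u h).choose else 0

theorem sp_mem (hK : Wid K) {u : H} (hu : ‖u‖ = 1) : sp hK u ∈ K := by
  rw [sp, dif_pos hu]
  exact (hK.dia u hu).choose_spec.1

theorem sp_sub_mem (hK : Wid K) {u : H} (hu : ‖u‖ = 1) : sp hK u - u ∈ K := by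
  rw [sp, dif_pos hu]
  exact (hK.dia u hu).choose_spec.2

theorem sp_eq (hK : Wid K) {q u : H} (hu : ‖u‖ = 1) (hq : q ∈ K) (hqu : q - u ∈ K) :
    sp hK u = q :=
  (uniq hK hu hq (sp_mem hK hu) (mem_Nc hK hu hqu) (sp_sub_mem hK hu)).symm

theorem sp_lip (hK : Wid K) {u v : H} (hu : ‖u‖ = 1) (hv : ‖v‖ = 1) :
    ‖sp hK u - sp hK v‖ ≤ ‖u - v‖ := by
  have h1 := inner_of_mem hK hu (sp_sub_mem hK hu) (sp_mem hK hv)
  have h2 := inner_of_mem hK hv (sp_sub_mem hK hv) (sp_mem hK hu)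
  rw [norm_sub_rev (sp hK v) (sp hK u)] at h1
  have h3 : ⟪u, sp hK v - sp hK u⟫ = -⟪u, sp hK u - sp hK v⟫ := by
    rw [← inner_neg_right, neg_sub]
  rw [h3] at h1
  have h4 : ⟪u - v, sp hK u - sp hK v⟫ = ⟪u, sp hK u - sp hK v⟫ - ⟪v, sp hK u - sp hK v⟫ :=
    inner_sub_left _ _ _
  have h5 := real_inner_le_norm (u - v) (sp hK u - sp hK v)
  have h6 : ‖sp hK u - sp hK v‖ ^ 2 ≤ ‖u - v‖ * ‖sp hK u - sp hK v‖ := by linarith
  by_contra hcon
  push Not at hcon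
  have h7 : 0 < ‖sp hK u - sp hK v‖ := lt_of_le_of_lt (norm_nonneg _) hcon
  nlinarith

/-- the radial extension of the support point -/
noncomputable def P (hK : Wid K) (x : H) : H := sp hK (‖x‖⁻¹ • x)

theorem norm_dir {x : H} (hx : x ≠ 0) : ‖(‖x‖⁻¹ • x)‖ = 1 := by
  rw [norm_smul, norm_inv, norm_norm, inv_mul_cancel₀ (norm_ne_zero_iff.2 hx)]

theorem dir_lip {c : ℝ} (hc : 0 < c) {x y : H} (hx : c < ‖x‖) (hy : c < ‖y‖) :
    ‖‖x‖⁻¹ • x - ‖y‖⁻¹ • y‖ ≤ 2 / c * ‖x - y‖ := by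
  have hx0 : 0 < ‖x‖ := hc.trans hx
  have hy0 : 0 < ‖y‖ := hc.trans hy
  have h1 : ‖x‖⁻¹ • x - ‖y‖⁻¹ • y = ‖x‖⁻¹ • (x - y) + (‖x‖⁻¹ - ‖y‖⁻¹) • y := by
    rw [smul_sub, sub_smul]
    abel
  rw [h1]
  refine (norm_add_le _ _).trans ?_
  rw [norm_smul, norm_smul, norm_inv, norm_norm, Real.norm_eq_abs]
  have h2 : |‖x‖⁻¹ - ‖y‖⁻¹| * ‖y‖ = ‖x‖⁻¹ * |‖y‖ - ‖x‖| := by
    have h3 : ‖x‖⁻¹ - ‖y‖⁻¹ = ‖x‖⁻¹ * ‖y‖⁻¹ * (‖y‖ - ‖x‖) := by
      field_simp
    rw [h3, abs_mul, abs_of_pos (by positivity)]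
    field_simp
  rw [h2]
  have h3 : |‖y‖ - ‖x‖| ≤ ‖x - y‖ := by
    rw [norm_sub_rev]
    exact abs_norm_sub_norm_le y x
  have h4 : ‖x‖⁻¹ ≤ c⁻¹ := by
    gcongr
  have h5 : ‖x‖⁻¹ * |‖y‖ - ‖x‖| ≤ c⁻¹ * ‖x - y‖ :=
    mul_le_mul h4 h3 (abs_nonneg _) (by positivity)
  have h6 : ‖x‖⁻¹ * ‖x - y‖ ≤ c⁻¹ * ‖x - y‖ := mul_le_mul_of_nonneg_right h4 (norm_nonneg _)
  calc ‖x‖⁻¹ * ‖x - y‖ + ‖x‖⁻¹ * |‖y‖ - ‖x‖| ≤ c⁻¹ * ‖x - y‖ + c⁻¹ * ‖x - y‖ := add_le_add h6 h5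
    _ = 2 / c * ‖x - y‖ := by ring

theorem P_lip (hK : Wid K) {c : ℝ} (hc : 0 < c) :
    LipschitzOnWith (Real.toNNReal (2 / c)) (P hK) {x | c < ‖x‖} := by
  apply LipschitzOnWith.of_dist_le_mul
  intro x hx y hy
  have hx' : c < ‖x‖ := hx
  have hy' : c < ‖y‖ := hy
  rw [Real.coe_toNNReal _ (by positivity), dist_eq_norm, dist_eq_norm]
  have hx0 : x ≠ 0 := norm_ne_zero_iff.1 (hc.trans hx').ne'
  have hy0 : y ≠ 0 := norm_ne_zero_iff.1 (hc.trans hy').ne'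
  exact (sp_lip hK (norm_dir hx0) (norm_dir hy0)).trans (dir_lip hc hx' hy')

theorem norm_sq_comb {u v : H} (hu : ‖u‖ = 1) (hv : ‖v‖ = 1) (huv : ⟪u, v⟫ = 1 / 2) (t : ℝ) :
    ‖u + t • v‖ ^ 2 = 1 + t + t ^ 2 := by
  rw [norm_add_sq_real, hu, inner_smul_right, huv, norm_smul, hv, Real.norm_eq_abs, mul_one, sq_abs]
  ring

theorem norm_comb {u v : H} (hu : ‖u‖ = 1) (hv : ‖v‖ = 1) (huv : ⟪u, v⟫ = 1 / 2) (t : ℝ) :
    ‖u + t • v‖ = √(1 + t + t ^ 2) := by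
  rw [← norm_sq_comb hu hv huv t, Real.sqrt_sq (norm_nonneg _)]

theorem comb_pos (t : ℝ) : 0 < 1 + t + t ^ 2 := by nlinarith [sq_nonneg (1 + 2 * t)]

theorem not_diff (hK : Wid K) {q u v : H} (hq : q ∈ K) (hun : u ∈ Nc K q) (hvn : v ∈ Nc K q)
    (hu : ‖u‖ = 1) (hv : ‖v‖ = 1) (huv : ⟪u, v⟫ = 1 / 2) {r : ℝ} (hr : 0 < r) :
    ¬ DifferentiableAt ℝ (P hK) (r • u) := by
  intro hd
  have hqu : q - u ∈ K := sub_mem hK hu hq hun
  have hqv : q - v ∈ K := sub_mem hK hv hq hvn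
  have hpos : ∀ t : ℝ, 0 < ‖u + t • v‖ := by
    intro t
    rw [norm_comb hu hv huv]
    exact Real.sqrt_pos.2 (comb_pos t)
  -- the direction of the point on the line
  have hdir : ∀ t : ℝ, ‖r • (u + t • v)‖⁻¹ • (r • (u + t • v)) = ‖u + t • v‖⁻¹ • (u + t • v) := by
    intro t
    rw [norm_smul, Real.norm_eq_abs, abs_of_pos hr, smul_smul]
    congr 1
    have := hpos t
    field_simp
  have hunit : ∀ t : ℝ, ‖(‖u + t • v‖⁻¹ • (u + t • v))‖ = 1 := fun t =>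
    norm_dir (norm_ne_zero_iff.1 (hpos t).ne')
  -- values for nonnegative parameters
  have hright : ∀ t : ℝ, 0 ≤ t → P hK (r • (u + t • v)) = q := by
    intro t ht
    rw [P, hdir]
    have hn : ‖u + t • v‖⁻¹ • (u + t • v) ∈ Nc K q := by
      intro x hx
      rw [inner_smul_left, inner_add_left, inner_smul_left]
      simp only [conj_trivial]
      have h1 := hun x hx
      have h2 := hvn x hx
      have h3 : 0 ≤ ‖u + t • v‖⁻¹ := by positivity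
      have h4 : t * ⟪v, x - q⟫ ≤ 0 := mul_nonpos_of_nonneg_of_nonpos ht h2
      exact mul_nonpos_of_nonneg_of_nonpos h3 (by linarith)
    exact sp_eq hK (hunit t) hq (sub_mem hK (hunit t) hq hn)
  -- normals at the antipodal point
  have hm1 : -u ∈ Nc K (q - u) := by
    apply mem_Nc hK (by rw [norm_neg, hu])
    have : q - u - -u = q := by abel
    rw [this]
    exact hq
  have hm2 : v - u ∈ Nc K (q - u) := by
    apply mem_Nc hK
    · have h1 : ‖v - u‖ ^ 2 = 1 := by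
        rw [norm_sub_sq_real, hv, hu, real_inner_comm, huv]
        norm_num
      have h2 : 0 ≤ ‖v - u‖ := norm_nonneg _
      nlinarith
    · have : q - u - (v - u) = q - v := by abel
      rw [this]
      exact hqv
  have hleft : ∀ t : ℝ, -1 ≤ t → t ≤ 0 →
      P hK (r • (u + t • v)) = q - u + ‖u + t • v‖⁻¹ • (u + t • v) := by
    intro t ht1 ht0
    rw [P, hdir]
    set w := ‖u + t • v‖⁻¹ • (u + t • v) with hw
    have hn : -w ∈ Nc K (q - u) := by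
      intro x hx
      have h1 := hm1 x hx
      have h2 := hm2 x hx
      have h5 : -w = ‖u + t • v‖⁻¹ • ((1 + t) • (-u) + (-t) • (v - u)) := by
        rw [hw, ← smul_neg]
        congr 1
        module
      rw [h5, inner_smul_left, inner_add_left, inner_smul_left, inner_smul_left]
      simp only [conj_trivial]
      have h3 : 0 ≤ ‖u + t • v‖⁻¹ := by positivity
      have h4 : (1 + t) * ⟪-u, x - (q - u)⟫ ≤ 0 :=
        mul_nonpos_of_nonneg_of_nonpos (by linarith) h1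
      have h6 : (-t) * ⟪v - u, x - (q - u)⟫ ≤ 0 :=
        mul_nonpos_of_nonneg_of_nonpos (by linarith) h2
      exact mul_nonpos_of_nonneg_of_nonpos h3 (by linarith)
    have hm : q - u - -w ∈ K := sub_mem hK (by rw [norm_neg]; exact hunit t) hqu hn
    rw [sub_neg_eq_add] at hm
    apply sp_eq hK (hunit t) hm
    have : q - u + w - w = q - u := by abel
    rw [this]
    exact hqu
  -- derivative along the line
  have hline : HasDerivAt (fun t : ℝ => r • (u + t • v)) (r • v) 0 := by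
    have h1 : HasDerivAt (fun t : ℝ => t • v) ((1 : ℝ) • v) 0 := (hasDerivAt_id 0).smul_const v
    rw [one_smul] at h1
    exact (h1.const_add u).const_smul r
  have hd' : DifferentiableAt ℝ (P hK) ((fun t : ℝ => r • (u + t • v)) 0) := by
    simpa using hd
  have hg := hd'.hasFDerivAt.comp_hasDerivAt (0 : ℝ) hline
  set g' := (fderiv ℝ (P hK) ((fun t : ℝ => r • (u + t • v)) 0)) (r • v) with hg'
  have hR : HasDerivWithinAt (P hK ∘ fun t : ℝ => r • (u + t • v)) 0 (Set.Ici 0) 0 := by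
    have h1 : HasDerivWithinAt (fun _ : ℝ => q) 0 (Set.Ici 0) 0 := hasDerivWithinAt_const _ _ _
    exact h1.congr (fun t ht => hright t ht) (hright 0 le_rfl)
  have hL : HasDerivWithinAt (P hK ∘ fun t : ℝ => r • (u + t • v)) (v - (1 / 2 : ℝ) • u)
      (Set.Icc (-1) 0) 0 := by
    have h1 : HasDerivAt (fun t : ℝ => (√(1 + t + t ^ 2))⁻¹) (-(1 / 2)) 0 := by
      have h2 : HasDerivAt (fun t : ℝ => 1 + t + t ^ 2) (1 + ((2 : ℕ) : ℝ) * 0 ^ (2 - 1)) 0 :=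
        ((hasDerivAt_id (0 : ℝ)).const_add 1).add (hasDerivAt_pow 2 (0 : ℝ))
      have h4 := h2.sqrt (by norm_num)
      have h5 := h4.inv (by norm_num)
      exact h5.congr_deriv (by norm_num)
    have h2 : HasDerivAt (fun t : ℝ => u + t • v) v 0 := by
      have h1 : HasDerivAt (fun t : ℝ => t • v) ((1 : ℝ) • v) 0 := (hasDerivAt_id 0).smul_const v
      rw [one_smul] at h1
      exact h1.const_add u
    have h3 := h1.smul h2
    have h4 : HasDerivAt (fun t : ℝ => q - u + (√(1 + t + t ^ 2))⁻¹ • (u + t • v))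
        (v - (1 / 2 : ℝ) • u) 0 := by
      have h5 := h3.const_add (q - u)
      refine h5.congr_deriv ?_
      simp
      module
    refine h4.hasDerivWithinAt.congr (fun t ht => ?_) ?_
    · simp only [Function.comp]
      rw [hleft t ht.1 ht.2, norm_comb hu hv huv]
    · simp only [Function.comp]
      rw [hleft 0 (by norm_num) le_rfl, norm_comb hu hv huv]
  have e1 : g' = 0 := by
    have hud : UniqueDiffWithinAt ℝ (Set.Ici (0 : ℝ)) 0 := uniqueDiffOn_Ici 0 0 (by simp)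
    exact hud.eq_deriv _ hg.hasDerivWithinAt hR
  have e2 : g' = v - (1 / 2 : ℝ) • u := by
    have hud : UniqueDiffWithinAt ℝ (Set.Icc (-1 : ℝ) 0) 0 :=
      uniqueDiffOn_Icc (by norm_num) 0 (by norm_num)
    exact hud.eq_deriv _ hg.hasDerivWithinAt hL
  have e3 : v = (1 / 2 : ℝ) • u := by
    have : v - (1 / 2 : ℝ) • u = 0 := by rw [← e2, e1]
    exact sub_eq_zero.1 this
  have e4 : ‖v‖ = 1 / 2 := by
    rw [e3, norm_smul, hu]
    norm_num
  rw [hv] at e4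
  norm_num at e4

/-- the null lemma -/
theorem null_E {K : Set H} (hK : Wid K) :
    volume {x : H | ∃ q ∈ K, ∃ u ∈ Nc K q, ∃ v ∈ Nc K q, ∃ r : ℝ, 0 < r ∧ x = r • u ∧
      ‖u‖ = 1 ∧ ‖v‖ = 1 ∧ ⟪u, v⟫ = 1 / 2} = 0 := by
  set E := {x : H | ∃ q ∈ K, ∃ u ∈ Nc K q, ∃ v ∈ Nc K q, ∃ r : ℝ, 0 < r ∧ x = r • u ∧
      ‖u‖ = 1 ∧ ‖v‖ = 1 ∧ ⟪u, v⟫ = 1 / 2} with hE
  have hsub : E ⊆ ⋃ n : ℕ, {x : H | 1 / ((n : ℝ) + 1) < ‖x‖ ∧ ¬ DifferentiableAt ℝ (P hK) x} := by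
    rintro x ⟨q, hq, u, hun, v, hvn, r, hr, rfl, hu, hv, huv⟩
    obtain ⟨n, hn⟩ := exists_nat_one_div_lt hr
    refine Set.mem_iUnion.2 ⟨n, ?_, not_diff hK hq hun hvn hu hv huv hr⟩
    rw [norm_smul, hu, mul_one, Real.norm_eq_abs, abs_of_pos hr]
    exact hn
  refine measure_mono_null hsub (measure_iUnion_null fun n => ?_)
  have hc : (0 : ℝ) < 1 / ((n : ℝ) + 1) := by positivity
  have hae := (P_lip hK hc).ae_differentiableWithinAt_of_mem (μ := volume)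
  have hopen : IsOpen {x : H | 1 / ((n : ℝ) + 1) < ‖x‖} :=
    isOpen_lt continuous_const continuous_norm
  rw [← compl_mem_ae_iff]
  filter_upwards [hae] with x hx
  simp only [Set.mem_compl_iff, Set.mem_ofPred_eq, not_and, not_not]
  intro hxc
  exact (hx hxc).differentiableAt (hopen.mem_nhds hxc)

end Pool.Agent.TH541.CWN
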