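import Pool.Agent.TH378.CW.Base

/-!
# Planar lemma (job CW-J4 for helper378, by helper541)
-/

set_option autoImplicit false

namespace Pool.Agent.TH541.CWP

open MeasureTheory Metric Pool.Agent.TH378.CW Filter Topology
open scoped Real RealInnerProductSpace

theorem exists_normal {C : Set H} (hC : Cone60 C) (hne : interior C = ∅) {p : H} (hp : p ∈ C) :
    ∃ w : H, ‖w‖ = 1 ∧ ∀ x ∈ C, ⟪w, x⟫ = 0 := by
  have h0 : (0 : H) ∈ C := by simpa using hC.smul p hp 0 le_rfl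
  have h1 : affineSpan ℝ C ≠ ⊤ := fun h => by
    have := hC.cvx.interior_nonempty_iff_affineSpan_eq_top.2 h
    rw [hne] at this
    exact Set.not_nonempty_empty this
  have h2 : vectorSpan ℝ C ≠ ⊤ := fun h =>
    h1 ((AffineSubspace.affineSpan_eq_top_iff_vectorSpan_eq_top_of_nonempty ℝ H H ⟨p, hp⟩).2 h)
  have h3 : (vectorSpan ℝ C)ᗮ ≠ ⊥ := fun h => h2 (Submodule.orthogonal_eq_bot_iff.1 h)
  obtain ⟨v, hv, hv0⟩ := Submodule.exists_mem_ne_zero_of_ne_bot h3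
  refine ⟨‖v‖⁻¹ • v, ?_, ?_⟩
  · rw [norm_smul, norm_inv, norm_norm, inv_mul_cancel₀ (norm_ne_zero_iff.2 hv0)]
  · intro x hx
    have h4 : x -ᵥ (0 : H) ∈ vectorSpan ℝ C := vsub_mem_vectorSpan ℝ hx h0
    rw [vsub_eq_sub, sub_zero] at h4
    have h5 : ⟪v, x⟫ = 0 := by
      rw [real_inner_comm]
      exact (Submodule.mem_orthogonal _ _).1 hv x h4
    rw [inner_smul_left, h5, mul_zero]

/-- the plane orthogonal to two vectors -/
theorem mem_V {z w x : H} (hz : ⟪z, x⟫ = 0) (hw : ⟪w, x⟫ = 0) :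
    x ∈ (Submodule.span ℝ (Set.range ![z, w]))ᗮ := by
  rw [Submodule.mem_orthogonal]
  intro u hu
  induction hu using Submodule.span_induction with
  | mem y hy =>
    obtain ⟨i, rfl⟩ := hy
    fin_cases i
    · exact hz
    · exact hw
  | zero => exact inner_zero_left _
  | add y y' _ _ h h' => rw [inner_add_left, h, h', add_zero]
  | smul a y _ h => rw [inner_smul_left, h, mul_zero]

theorem finrank_V {z w : H} (hz : z ≠ 0) (hw : w ≠ 0) (hzw : ⟪z, w⟫ = 0) :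
    Module.finrank ℝ (Submodule.span ℝ (Set.range ![z, w]))ᗮ = 2 := by
  have hli : LinearIndependent ℝ ![z, w] := by
    rw [LinearIndependent.pair_iff]
    intro s t hst
    have h1 : s * ⟪z, z⟫ = 0 := by
      have : ⟪z, s • z + t • w⟫ = 0 := by rw [hst, inner_zero_right]
      rwa [inner_add_right, inner_smul_right, inner_smul_right, hzw, mul_zero, add_zero] at this
    have h2 : t * ⟪w, w⟫ = 0 := by
      have : ⟪w, s • z + t • w⟫ = 0 := by rw [hst, inner_zero_right]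
      rwa [inner_add_right, inner_smul_right, inner_smul_right, real_inner_comm, hzw, mul_zero,
        zero_add] at this
    have h3 : ⟪z, z⟫ ≠ 0 := inner_self_ne_zero.2 hz
    have h4 : ⟪w, w⟫ ≠ 0 := inner_self_ne_zero.2 hw
    exact ⟨(mul_eq_zero.1 h1).resolve_right h3, (mul_eq_zero.1 h2).resolve_right h4⟩
  have h1 := finrank_span_eq_card hli
  apply Submodule.finrank_add_finrank_orthogonal'
  rw [h1]
  simp [Quaternion.finrank_eq_four]

theorem contact (p : Fin 4 → H) :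
    ∃ (z : H) (ι : Type) (_ : Fintype ι) (q : ι → H) (μ : ι → ℝ), (∀ j, ∃ i, q j = p i) ∧
      AffineIndependent ℝ q ∧ (∀ j, 0 < μ j) ∧ ∑ j, μ j = 1 ∧ ∑ j, μ j • q j = z ∧
      (∀ i, ‖z‖ ^ 2 ≤ ⟪p i, z⟫) ∧ (∀ j, ⟪q j, z⟫ = ‖z‖ ^ 2) := by
  have hcp : IsCompact (convexHull ℝ (Set.range p)) := (Set.finite_range p).isCompact_convexHull ℝ
  obtain ⟨z, hz, hmin⟩ := exists_norm_eq_iInf_of_complete_convex
    ((Set.range_nonempty p).convexHull) hcp.isComplete (convex_convexHull ℝ _) (0 : H)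
  rw [norm_eq_iInf_iff_real_inner_le_zero (convex_convexHull ℝ _) hz] at hmin
  have hge : ∀ i, ‖z‖ ^ 2 ≤ ⟪p i, z⟫ := by
    intro i
    have h1 := hmin (p i) (subset_convexHull ℝ _ ⟨i, rfl⟩)
    rw [zero_sub, inner_neg_left, inner_sub_right, real_inner_self_eq_norm_sq,
      real_inner_comm] at h1
    linarith
  obtain ⟨ι, hι, q, μ, hq, hai, hμ, hμ1, hμz⟩ := eq_pos_convex_span_of_mem_convexHull hz
  have hq' : ∀ j, ∃ i, q j = p i := by
    intro j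
    obtain ⟨i, hi⟩ := hq ⟨j, rfl⟩
    exact ⟨i, hi.symm⟩
  refine ⟨z, ι, hι, q, μ, hq', hai, hμ, hμ1, hμz, hge, ?_⟩
  have h1 : ∑ j, μ j * (⟪q j, z⟫ - ‖z‖ ^ 2) = 0 := by
    have h2 : ∑ j, μ j * ⟪q j, z⟫ = ‖z‖ ^ 2 := by
      rw [← real_inner_self_eq_norm_sq]
      conv_rhs => rw [← hμz]
      rw [sum_inner]
      simp only [inner_smul_left, conj_trivial]
      rw [hμz]
    simp only [mul_sub, Finset.sum_sub_distrib, ← Finset.sum_mul, hμ1, h2]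
    ring
  have h3 : ∀ j ∈ Finset.univ, 0 ≤ μ j * (⟪q j, z⟫ - ‖z‖ ^ 2) := by
    intro j _
    obtain ⟨i, hi⟩ := hq' j
    have := hge i
    rw [hi]
    exact mul_nonneg (hμ j).le (by linarith)
  have h4 := (Finset.sum_eq_zero_iff_of_nonneg h3).1 h1
  intro j
  have h5 := h4 j (Finset.mem_univ j)
  have h6 := (mul_eq_zero.1 h5).resolve_left (hμ j).ne'
  linarith

/-- the contact points in the plane -/
theorem contact3 (p : Fin 4 → H) (w : H) (hp1 : ∀ i, ‖p i‖ = 1)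
    (hang : ∀ i j, 1 / 2 ≤ ⟪p i, p j⟫) (hw1 : ‖w‖ = 1) (hpw : ∀ i, ⟪w, p i⟫ = 0)
    (hN : ∀ z : H, (∀ i, ‖z‖ ^ 2 ≤ ⟪p i, z⟫) → ⟪w, z⟫ = 0 → ‖z‖ ^ 2 ≤ 2 / 3) :
    ∃ (z : H) (ι : Type) (_ : Fintype ι) (q : ι → H), Fintype.card ι = 3 ∧
      (∀ j, ∃ i, q j = p i) ∧ (∀ i, ‖z‖ ^ 2 ≤ ⟪p i, z⟫) ∧ ‖z‖ ^ 2 = 2 / 3 ∧ ⟪w, z⟫ = 0 ∧
      (∀ j l, j ≠ l → ⟪q j, q l⟫ = 1 / 2) ∧ ∑ j, q j = (3 : ℝ) • z ∧
      (∀ y : H, ⟪w, y⟫ = 0 → (∀ j, ⟪q j, y⟫ = 0) → y = 0) := by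
  classical
  obtain ⟨z, ι, hι, q, μ, hq, hai, hμ, hμ1, hμz, hge, hqz⟩ := contact p
  have hq1 : ∀ j, ‖q j‖ = 1 := by
    intro j
    obtain ⟨i, hi⟩ := hq j
    rw [hi, hp1]
  have hqa : ∀ j l, 1 / 2 ≤ ⟪q j, q l⟫ := by
    intro j l
    obtain ⟨i, hi⟩ := hq j
    obtain ⟨i', hi'⟩ := hq l
    rw [hi, hi']
    exact hang i i'
  have hqw : ∀ j, ⟪w, q j⟫ = 0 := by
    intro j
    obtain ⟨i, hi⟩ := hq j
    rw [hi, hpw]
  have hwz : ⟪w, z⟫ = 0 := by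
    rw [← hμz, inner_sum]
    apply Finset.sum_eq_zero
    intro j _
    rw [inner_smul_right, hqw, mul_zero]
  have hN1 : ‖z‖ ^ 2 ≤ 2 / 3 := hN z hge hwz
  -- bound for the weights
  have hsum : ∀ j, ∑ l, μ l * (⟪q j, q l⟫ - 1 / 2) = ‖z‖ ^ 2 - 1 / 2 := by
    intro j
    have h1 : ∑ l, μ l * ⟪q j, q l⟫ = ‖z‖ ^ 2 := by
      rw [← hqz j, ← hμz, inner_sum]
      simp only [inner_smul_right]
    simp only [mul_sub, Finset.sum_sub_distrib, ← Finset.sum_mul, hμ1, h1]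
    ring
  have hterm : ∀ j l, 0 ≤ μ l * (⟪q j, q l⟫ - 1 / 2) := fun j l =>
    mul_nonneg (hμ l).le (by linarith [hqa j l])
  have hself : ∀ j, μ j * (⟪q j, q j⟫ - 1 / 2) = μ j / 2 := by
    intro j
    rw [real_inner_self_eq_norm_sq, hq1]
    ring
  have hmu : ∀ j, μ j / 2 ≤ ‖z‖ ^ 2 - 1 / 2 := by
    intro j
    rw [← hsum j, ← hself j]
    exact Finset.single_le_sum (f := fun l => μ l * (⟪q j, q l⟫ - 1 / 2))
      (fun l _ => hterm j l) (Finset.mem_univ j)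
  have hNpos : 1 / 2 ≤ ‖z‖ ^ 2 := by
    have hne : Nonempty ι := by
      by_contra h
      rw [not_nonempty_iff] at h
      simp at hμ1
    obtain ⟨j⟩ := hne
    have := hmu j
    have := hμ j
    linarith
  have hz0 : z ≠ 0 := by
    intro h
    rw [h, norm_zero] at hNpos
    norm_num at hNpos
  have hw0 : w ≠ 0 := by
    intro h
    rw [h, norm_zero] at hw1
    norm_num at hw1
  have hzw : ⟪z, w⟫ = 0 := by rw [real_inner_comm]; exact hwz
  have hfV := finrank_V hz0 hw0 hzw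
  set V := (Submodule.span ℝ (Set.range ![z, w]))ᗮ with hV
  have hle : vectorSpan ℝ (Set.range q) ≤ V := by
    rw [vectorSpan_def, Submodule.span_le]
    rintro x ⟨a, ⟨j, rfl⟩, b, ⟨l, rfl⟩, rfl⟩
    apply mem_V
    · change ⟪z, q j - q l⟫ = 0
      rw [inner_sub_right, real_inner_comm, hqz, real_inner_comm, hqz, sub_self]
    · change ⟪w, q j - q l⟫ = 0
      rw [inner_sub_right, hqw, hqw, sub_self]
  have hcard : Fintype.card ι ≤ 3 := by
    have h1 := hai.card_le_finrank_succ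
    have h2 := Submodule.finrank_mono hle
    omega
  -- the norm is determined
  have hone : (1 : ℝ) ≤ 3 * (2 * ‖z‖ ^ 2 - 1) := by
    have h1 : (∑ j, μ j) ≤ ∑ _j : ι, (2 * ‖z‖ ^ 2 - 1) :=
      Finset.sum_le_sum fun j _ => by linarith [hmu j]
    rw [hμ1, Finset.sum_const, Finset.card_univ, nsmul_eq_mul] at h1
    have h2 : (Fintype.card ι : ℝ) ≤ 3 := by exact_mod_cast hcard
    have h3 : (Fintype.card ι : ℝ) * (2 * ‖z‖ ^ 2 - 1) ≤ 3 * (2 * ‖z‖ ^ 2 - 1) :=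
      mul_le_mul_of_nonneg_right h2 (by linarith)
    linarith
  have hN2 : ‖z‖ ^ 2 = 2 / 3 := by linarith
  have hmu3 : ∀ j, μ j ≤ 1 / 3 := by
    intro j
    have := hmu j
    linarith
  have hcard3 : Fintype.card ι = 3 := by
    have h1 : (∑ j, μ j) ≤ ∑ _j : ι, (1 / 3 : ℝ) := Finset.sum_le_sum fun j _ => hmu3 j
    rw [hμ1, Finset.sum_const, Finset.card_univ, nsmul_eq_mul] at h1
    have h2 : (3 : ℝ) ≤ Fintype.card ι := by linarith
    have h3 : 3 ≤ Fintype.card ι := by exact_mod_cast h2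
    omega
  have hmueq : ∀ j, μ j = 1 / 3 := by
    have h1 : ∑ j, (1 / 3 - μ j) = 0 := by
      rw [Finset.sum_sub_distrib, hμ1, Finset.sum_const, Finset.card_univ, hcard3]
      norm_num
    have h2 := (Finset.sum_eq_zero_iff_of_nonneg (fun j _ => by linarith [hmu3 j])).1 h1
    intro j
    have := h2 j (Finset.mem_univ j)
    linarith
  refine ⟨z, ι, hι, q, hcard3, hq, hge, hN2, hwz, ?_, ?_, ?_⟩
  · intro j l hjl
    have h1 := hsum j
    rw [← Finset.add_sum_erase _ _ (Finset.mem_univ j), hself j, hmueq j, hN2] at h1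
    have h2 : ∑ l ∈ Finset.univ.erase j, μ l * (⟪q j, q l⟫ - 1 / 2) = 0 := by linarith
    have h3 := (Finset.sum_eq_zero_iff_of_nonneg (fun l _ => hterm j l)).1 h2 l
      (Finset.mem_erase.2 ⟨hjl.symm, Finset.mem_univ l⟩)
    have h4 := (mul_eq_zero.1 h3).resolve_left (hμ l).ne'
    linarith
  · rw [← hμz, Finset.smul_sum]
    apply Finset.sum_congr rfl
    intro j _
    rw [hmueq j, smul_smul]
    norm_num
  · intro y hwy hqy
    have hzy : ⟪z, y⟫ = 0 := by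
      rw [← hμz, sum_inner]
      apply Finset.sum_eq_zero
      intro j _
      rw [inner_smul_left, hqy, mul_zero]
    have hyV : y ∈ V := mem_V hzy hwy
    have heq : vectorSpan ℝ (Set.range q) = V := by
      apply Submodule.eq_of_le_of_finrank_eq hle
      rw [hfV, hai.finrank_vectorSpan (n := 2) hcard3]
    rw [← heq] at hyV
    have h1 : ∀ x ∈ vectorSpan ℝ (Set.range q), ⟪x, y⟫ = 0 := by
      intro x hx
      rw [vectorSpan_def] at hx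
      induction hx using Submodule.span_induction with
      | mem x hx =>
        obtain ⟨a, ⟨j, rfl⟩, b, ⟨l, rfl⟩, rfl⟩ := hx
        change ⟪q j - q l, y⟫ = 0
        rw [inner_sub_left, hqy, hqy, sub_self]
      | zero => exact inner_zero_left _
      | add x x' _ _ h h' => rw [inner_add_left, h, h', add_zero]
      | smul a x _ h => rw [inner_smul_left, h, mul_zero]
    exact inner_self_eq_zero.1 (h1 y hyV)

/-- a vector of the cone at the right height is one of the contact points -/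
theorem eq_contact {ι : Type} [Fintype ι] (q : ι → H) (z w : H) (hcard : Fintype.card ι = 3)
    (hq1 : ∀ j, ‖q j‖ = 1) (hqq : ∀ j l, j ≠ l → ⟪q j, q l⟫ = 1 / 2)
    (hqs : ∑ j, q j = (3 : ℝ) • z) (hqw : ∀ j, ⟪w, q j⟫ = 0)
    (hspan : ∀ y : H, ⟪w, y⟫ = 0 → (∀ j, ⟪q j, y⟫ = 0) → y = 0)
    (r : H) (hr1 : ‖r‖ = 1) (hrw : ⟪w, r⟫ = 0) (hrq : ∀ j, 1 / 2 ≤ ⟪q j, r⟫)
    (hrz : ⟪z, r⟫ = 2 / 3) : ∃ j, r = q j := by
  classical
  set x : ι → ℝ := fun j => 2 * ⟪q j, r⟫ - 1 with hx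
  have hx0 : ∀ j, 0 ≤ x j := by
    intro j
    simp only [hx]
    linarith [hrq j]
  have hsumr : ∑ j, ⟪q j, r⟫ = 2 := by
    rw [← sum_inner, hqs, inner_smul_left, hrz]
    norm_num
  have hx1 : ∑ j, x j = 1 := by
    simp only [hx, Finset.sum_sub_distrib, ← Finset.mul_sum, hsumr, Finset.sum_const,
      Finset.card_univ, hcard]
    norm_num
  have hgram : ∀ l, ∑ j, x j * ⟪q l, q j⟫ = ⟪q l, r⟫ := by
    intro l
    have h1 : ∀ j, x j * ⟪q l, q j⟫ = x j * (1 / 2) + if j = l then x l * (1 / 2) else 0 := by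
      intro j
      by_cases h : j = l
      · subst h
        rw [real_inner_self_eq_norm_sq, hq1, if_pos rfl]
        ring
      · rw [hqq l j (Ne.symm h), if_neg h, add_zero]
    rw [Finset.sum_congr rfl fun j _ => h1 j, Finset.sum_add_distrib, ← Finset.sum_mul, hx1,
      Finset.sum_ite_eq' Finset.univ l]
    simp only [Finset.mem_univ, if_true, hx]
    ring
  have hr : r = ∑ j, x j • q j := by
    have h1 : r - ∑ j, x j • q j = 0 := by
      apply hspan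
      · rw [inner_sub_right, hrw, inner_sum]
        simp [inner_smul_right, hqw]
      · intro l
        rw [inner_sub_right, inner_sum]
        simp only [inner_smul_right]
        rw [hgram l, sub_self]
    exact sub_eq_zero.1 h1
  have hnorm : ∑ j, x j * ⟪q j, r⟫ = 1 := by
    have h1 : ⟪r, r⟫ = 1 := by rw [real_inner_self_eq_norm_sq, hr1]; norm_num
    have h2 : ⟪r, r⟫ = ∑ j, x j * ⟪q j, r⟫ := by
      have h3 : ⟪r, r⟫ = ⟪∑ j, x j • q j, r⟫ := by rw [← hr]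
      rw [h3, sum_inner]
      simp only [inner_smul_left, conj_trivial]
    rw [← h2, h1]
  have hxx : ∑ j, x j * (1 - x j) = 0 := by
    have h1 : ∀ j, x j * (1 - x j) = 2 * x j - 2 * (x j * ⟪q j, r⟫) := by
      intro j
      simp only [hx]
      ring
    rw [Finset.sum_congr rfl fun j _ => h1 j, Finset.sum_sub_distrib, ← Finset.mul_sum,
      ← Finset.mul_sum, hx1, hnorm]
    ring
  have hxle : ∀ j, x j ≤ 1 := by
    intro j
    rw [← hx1]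
    exact Finset.single_le_sum (fun i _ => hx0 i) (Finset.mem_univ j)
  have hx01 : ∀ j, x j = 0 ∨ x j = 1 := by
    intro j
    have h1 := (Finset.sum_eq_zero_iff_of_nonneg (fun j _ =>
      mul_nonneg (hx0 j) (by linarith [hxle j]))).1 hxx j (Finset.mem_univ j)
    rcases mul_eq_zero.1 h1 with h | h
    · exact Or.inl h
    · exact Or.inr (by linarith)
  obtain ⟨j, hj⟩ : ∃ j, x j = 1 := by
    by_contra hcon
    push Not at hcon
    have : ∑ j, x j = 0 := Finset.sum_eq_zero fun j _ => (hx01 j).resolve_right (hcon j)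
    rw [hx1] at this
    exact one_ne_zero this
  have hother : ∀ l, l ≠ j → x l = 0 := by
    intro l hl
    rcases hx01 l with h | h
    · exact h
    · have h1 : x l + x j ≤ ∑ i, x i := by
        rw [← Finset.sum_pair hl]
        exact Finset.sum_le_sum_of_subset_of_nonneg (Finset.subset_univ _) fun i _ _ => hx0 i
      rw [hx1, h, hj] at h1
      norm_num at h1
  refine ⟨j, ?_⟩
  rw [hr, Finset.sum_eq_single j]
  · rw [hj, one_smul]
  · intro l _ hl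
    rw [hother l hl, zero_smul]
  · intro h
    exact absurd (Finset.mem_univ j) h

theorem key (z w p e : H) (hp : ‖p‖ = 1) (hw : ‖w‖ = 1) (he : ‖e‖ = 1) (hpe : ⟪p, e⟫ = 0)
    (hwz : ⟪w, z⟫ = 0) (hwp : ⟪w, p⟫ = 0) :
    ⟪z, e⟫ ^ 2 ≤ (‖z‖ ^ 2 - ⟪p, z⟫ ^ 2) * (1 - ⟪w, e⟫ ^ 2) := by
  have h1 := real_inner_mul_inner_self_le (z - ⟪p, z⟫ • p) (e - ⟪w, e⟫ • w)
  have hzp : ⟪z, p⟫ = ⟪p, z⟫ := real_inner_comm _ _
  have hew : ⟪e, w⟫ = ⟪w, e⟫ := real_inner_comm _ _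
  have hzw : ⟪z, w⟫ = 0 := by rw [real_inner_comm]; exact hwz
  have hpw : ⟪p, w⟫ = 0 := by rw [real_inner_comm]; exact hwp
  have hpp : ⟪p, p⟫ = 1 := by rw [real_inner_self_eq_norm_sq, hp]; norm_num
  have hww : ⟪w, w⟫ = 1 := by rw [real_inner_self_eq_norm_sq, hw]; norm_num
  have hee : ⟪e, e⟫ = 1 := by rw [real_inner_self_eq_norm_sq, he]; norm_num
  simp only [inner_sub_left, inner_sub_right, inner_smul_left, inner_smul_right, conj_trivial,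
    hzp, hew, hzw, hpw, hpp, hww, hee, hpe, real_inner_self_eq_norm_sq z] at h1
  nlinarith

/-- the equality case of `key` -/
theorem key_eq (z w r e : H) (hr : ‖r‖ = 1) (hw : ‖w‖ = 1) (he : ‖e‖ = 1) (hre : ⟪r, e⟫ = 0)
    (hwz : ⟪w, z⟫ = 0) (hwr : ⟪w, r⟫ = 0) (hz : ‖z‖ ^ 2 = 2 / 3) (hrz : ⟪r, z⟫ = 2 / 3)
    (hez : ⟪z, e⟫ ^ 2 = 2 / 9 * (1 - ⟪w, e⟫ ^ 2)) :
    e = ⟪w, e⟫ • w + (9 / 2 * ⟪z, e⟫) • (z - (2 / 3 : ℝ) • r) := by
  have hzr : ⟪z, r⟫ = 2 / 3 := by rw [real_inner_comm]; exact hrz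
  have hew : ⟪e, w⟫ = ⟪w, e⟫ := real_inner_comm _ _
  have hze : ⟪e, z⟫ = ⟪z, e⟫ := real_inner_comm _ _
  have her : ⟪e, r⟫ = 0 := by rw [real_inner_comm]; exact hre
  have hzw : ⟪z, w⟫ = 0 := by rw [real_inner_comm]; exact hwz
  have hrw : ⟪r, w⟫ = 0 := by rw [real_inner_comm]; exact hwr
  have hrr : ⟪r, r⟫ = 1 := by rw [real_inner_self_eq_norm_sq, hr]; norm_num
  have hww : ⟪w, w⟫ = 1 := by rw [real_inner_self_eq_norm_sq, hw]; norm_num
  have hee : ⟪e, e⟫ = 1 := by rw [real_inner_self_eq_norm_sq, he]; norm_num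
  have hzz : ⟪z, z⟫ = 2 / 3 := by rw [real_inner_self_eq_norm_sq, hz]
  have h1 : ⟪e - (⟪w, e⟫ • w + (9 / 2 * ⟪z, e⟫) • (z - (2 / 3 : ℝ) • r)),
      e - (⟪w, e⟫ • w + (9 / 2 * ⟪z, e⟫) • (z - (2 / 3 : ℝ) • r))⟫ = 0 := by
    simp only [inner_sub_left, inner_sub_right, inner_add_left, inner_add_right, inner_smul_left,
      inner_smul_right, conj_trivial, hzr, hew, hze, her, hzw, hrw, hrr, hww, hee, hre, hwz, hwr,
      hrz, hzz]
    nlinarith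
  exact sub_eq_zero.1 (inner_self_eq_zero.1 h1)

theorem compl_pair : ∀ i j : Fin 4, i ≠ j → ∃ k l : Fin 4, k ≠ l ∧ k ≠ i ∧ k ≠ j ∧ l ≠ i ∧ l ≠ j ∧
    (Finset.univ : Finset (Fin 4)) = {i, j, k, l} := by decide

/-- the shape of the vector -/
theorem final {C : Set H} (e : Fin 4 → H) (he : Orthonormal ℝ e)
    (hexp : ∀ x : H, ∑ i, ⟪e i, x⟫ • e i = x) {z r v : H} {i j k l : Fin 4} (hij : i ≠ j)
    (hkl : k ≠ l) (hki : k ≠ i) (hkj : k ≠ j) (hli : l ≠ i) (hlj : l ≠ j)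
    (huniv : (Finset.univ : Finset (Fin 4)) = {i, j, k, l})
    (hrC : r ∈ C) (hr1 : ‖r‖ = 1) (hri : ⟪e i, r⟫ = 0) (hrj : ⟪e j, r⟫ = 0)
    (hzk : ⟪z, e k⟫ ^ 2 = 2 / 9) (hzl : ⟪z, e l⟫ ^ 2 = 2 / 9) (hrz : ⟪z, r⟫ = 2 / 3)
    (hvC : v ∈ C) (hv1 : ‖v‖ = 1) (hrv : ⟪r, v⟫ = 1 / 2) :
    ∃ k l : Fin 4, k ≠ l ∧ ∃ ε δ : ℝ, (ε = 1 ∨ ε = -1) ∧ (δ = 1 ∨ δ = -1) ∧
      (√2)⁻¹ • (ε • e k + δ • e l) ∈ C ∧
      ∃ v ∈ C, ‖v‖ = 1 ∧ ⟪(√2)⁻¹ • (ε • e k + δ • e l), v⟫ = 1 / 2 := by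
  set α := ⟪e k, r⟫ with hα
  set β := ⟪e l, r⟫ with hβ
  have hr : r = α • e k + β • e l := by
    have h1 := hexp r
    rw [huniv, Finset.sum_insert, Finset.sum_insert, Finset.sum_pair hkl, hri, hrj] at h1
    · rw [zero_smul, zero_smul, zero_add, zero_add] at h1
      exact h1.symm
    · simp only [Finset.mem_insert, Finset.mem_singleton, not_or]
      exact ⟨hkj.symm, hlj.symm⟩
    · simp only [Finset.mem_insert, Finset.mem_singleton, not_or]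
      exact ⟨hij, hki.symm, hli.symm⟩
  have hkk : ⟪e k, e k⟫ = 1 := by rw [real_inner_self_eq_norm_sq, he.1 k]; norm_num
  have hll : ⟪e l, e l⟫ = 1 := by rw [real_inner_self_eq_norm_sq, he.1 l]; norm_num
  have hkl0 : ⟪e k, e l⟫ = 0 := he.2 hkl
  have hlk0 : ⟪e l, e k⟫ = 0 := he.2 hkl.symm
  have hab : α ^ 2 + β ^ 2 = 1 := by
    have h1 : ⟪r, r⟫ = 1 := by rw [real_inner_self_eq_norm_sq, hr1]; norm_num
    rw [hr] at h1
    simp only [inner_add_left, inner_add_right, inner_smul_left, inner_smul_right, conj_trivial,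
      hkk, hll, hkl0, hlk0] at h1
    nlinarith
  have hz2 : α * ⟪z, e k⟫ + β * ⟪z, e l⟫ = 2 / 3 := by
    rw [← hrz]
    conv_rhs => rw [hr]
    rw [inner_add_right, inner_smul_right, inner_smul_right]
  have h3 : (α * ⟪z, e l⟫ - β * ⟪z, e k⟫) ^ 2 = 0 := by
    have h4 : (α * ⟪z, e l⟫ - β * ⟪z, e k⟫) ^ 2 = (α ^ 2 + β ^ 2) * (⟪z, e k⟫ ^ 2 + ⟪z, e l⟫ ^ 2)
        - (α * ⟪z, e k⟫ + β * ⟪z, e l⟫) ^ 2 := by ring
    rw [h4, hab, hzk, hzl, hz2]
    norm_num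
  have h4 : α * ⟪z, e l⟫ = β * ⟪z, e k⟫ := by
    have := pow_eq_zero_iff (two_ne_zero) |>.1 h3
    linarith
  have h5 : α ^ 2 = β ^ 2 := by
    have h6 : α ^ 2 * ⟪z, e l⟫ ^ 2 = β ^ 2 * ⟪z, e k⟫ ^ 2 := by
      rw [← mul_pow, h4, mul_pow]
    rw [hzk, hzl] at h6
    linarith
  have hs2 : √2 ^ 2 = 2 := Real.sq_sqrt (by norm_num)
  have hs0 : √2 ≠ 0 := by positivity
  have hε : √2 * α = 1 ∨ √2 * α = -1 := by
    apply sq_eq_one_iff.1
    rw [mul_pow, hs2]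
    linarith
  have hδ : √2 * β = 1 ∨ √2 * β = -1 := by
    apply sq_eq_one_iff.1
    rw [mul_pow, hs2]
    linarith
  have hrr : (√2)⁻¹ • ((√2 * α) • e k + (√2 * β) • e l) = r := by
    rw [hr, smul_add, smul_smul, smul_smul, ← mul_assoc, ← mul_assoc, inv_mul_cancel₀ hs0, one_mul,
      one_mul]
  refine ⟨k, l, hkl, √2 * α, √2 * β, hε, hδ, ?_, v, hvC, hv1, ?_⟩
  · rw [hrr]
    exact hrC
  · rw [hrr]
    exact hrv

/-- The planar lemma. -/
theorem planar {C : Set H} (hC : Cone60 C) (hne : interior C = ∅) (e : Fin 4 → H)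
    (he : Orthonormal ℝ e) (hb : Bad C e) :
    ∃ k l : Fin 4, k ≠ l ∧ ∃ ε δ : ℝ, (ε = 1 ∨ ε = -1) ∧ (δ = 1 ∨ δ = -1) ∧
      (√2)⁻¹ • (ε • e k + δ • e l) ∈ C ∧
      ∃ v ∈ C, ‖v‖ = 1 ∧ ⟪(√2)⁻¹ • (ε • e k + δ • e l), v⟫ = 1 / 2 := by
  classical
  choose p hpC hp1 hpe using hb
  obtain ⟨w, hw1, hw⟩ := exists_normal hC hne (hpC 0)
  have hang : ∀ i j, 1 / 2 ≤ ⟪p i, p j⟫ := fun i j =>
    hC.ang _ (hpC i) _ (hpC j) (hp1 i) (hp1 j)
  have hpw : ∀ i, ⟪w, p i⟫ = 0 := fun i => hw _ (hpC i)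
  have hspan : ⊤ ≤ Submodule.span ℝ (Set.range e) := by
    rw [he.linearIndependent.span_eq_top_of_card_eq_finrank' (by
      simp [Quaternion.finrank_eq_four])]
  have hexp : ∀ x : H, ∑ i, ⟪e i, x⟫ • e i = x := by
    intro x
    have := (OrthonormalBasis.mk he hspan).sum_repr' x
    simpa using this
  have hpars : ∀ x : H, ∑ i, ⟪x, e i⟫ ^ 2 = ‖x‖ ^ 2 := by
    intro x
    have h1 : ⟪x, x⟫ = ∑ i, ⟪x, e i⟫ ^ 2 := by
      conv_lhs => rw [← hexp x]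
      rw [hexp x, ← hexp x, hexp x]
      have h2 : ⟪∑ i, ⟪e i, x⟫ • e i, x⟫ = ∑ i, ⟪x, e i⟫ ^ 2 := by
        rw [sum_inner]
        apply Finset.sum_congr rfl
        intro i _
        rw [inner_smul_left, conj_trivial, real_inner_comm, sq]
      rw [hexp x] at h2
      exact h2
    rw [← h1, real_inner_self_eq_norm_sq]
  have hbsum : ∑ i, ⟪w, e i⟫ ^ 2 = 1 := by rw [hpars, hw1]; norm_num
  have hb1 : ∀ i, ⟪w, e i⟫ ^ 2 ≤ 1 := by
    intro i
    rw [← hbsum]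
    exact Finset.single_le_sum (f := fun i => ⟪w, e i⟫ ^ 2) (fun i _ => sq_nonneg _)
      (Finset.mem_univ i)
  have hsum3 : ∑ i, (1 - ⟪w, e i⟫ ^ 2) = 3 := by
    rw [Finset.sum_sub_distrib, hbsum]
    norm_num
  have hkey : ∀ z : H, (∀ i, ‖z‖ ^ 2 ≤ ⟪p i, z⟫) → ⟪w, z⟫ = 0 → ∀ i,
      ⟪z, e i⟫ ^ 2 ≤ (‖z‖ ^ 2 - ⟪p i, z⟫ ^ 2) * (1 - ⟪w, e i⟫ ^ 2) := fun z _ hwz i =>
    key z w (p i) (e i) (hp1 i) hw1 (he.1 i) (hpe i) hwz (hpw i)
  have hkey2 : ∀ z : H, (∀ i, ‖z‖ ^ 2 ≤ ⟪p i, z⟫) → ⟪w, z⟫ = 0 → ∀ i,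
      ⟪z, e i⟫ ^ 2 ≤ (‖z‖ ^ 2 - (‖z‖ ^ 2) ^ 2) * (1 - ⟪w, e i⟫ ^ 2) := by
    intro z hz hwz i
    refine (hkey z hz hwz i).trans (mul_le_mul_of_nonneg_right ?_ (by linarith [hb1 i]))
    have h1 := hz i
    have h2 : (0 : ℝ) ≤ ‖z‖ ^ 2 := by positivity
    nlinarith
  have hN : ∀ z : H, (∀ i, ‖z‖ ^ 2 ≤ ⟪p i, z⟫) → ⟪w, z⟫ = 0 → ‖z‖ ^ 2 ≤ 2 / 3 := by
    intro z hz hwz
    have h1 : ∑ i, ⟪z, e i⟫ ^ 2 ≤ ∑ i, (‖z‖ ^ 2 - (‖z‖ ^ 2) ^ 2) * (1 - ⟪w, e i⟫ ^ 2) :=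
      Finset.sum_le_sum fun i _ => hkey2 z hz hwz i
    rw [hpars, ← Finset.mul_sum, hsum3] at h1
    have h2 : (0 : ℝ) ≤ ‖z‖ ^ 2 := by positivity
    by_contra hcon
    push Not at hcon
    nlinarith
  obtain ⟨z, ι, hι, q, hcard, hq, hge, hz, hwz, hqq, hqs, hqspan⟩ :=
    contact3 p w hp1 hang hw1 hpw hN
  have hq1 : ∀ j, ‖q j‖ = 1 := by
    intro j
    obtain ⟨i, hi⟩ := hq j
    rw [hi, hp1]
  have hqC : ∀ j, q j ∈ C := by
    intro j
    obtain ⟨i, hi⟩ := hq j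
    rw [hi]
    exact hpC i
  have hqw : ∀ j, ⟪w, q j⟫ = 0 := fun j => hw _ (hqC j)
  -- equality everywhere
  have hzi : ∀ i, ⟪z, e i⟫ ^ 2 = 2 / 9 * (1 - ⟪w, e i⟫ ^ 2) := by
    have h1 : ∀ i, ⟪z, e i⟫ ^ 2 ≤ 2 / 9 * (1 - ⟪w, e i⟫ ^ 2) := by
      intro i
      have := hkey2 z hge hwz i
      rw [hz] at this
      norm_num at this
      exact this
    have h2 : ∑ i, (2 / 9 * (1 - ⟪w, e i⟫ ^ 2) - ⟪z, e i⟫ ^ 2) = 0 := by
      rw [Finset.sum_sub_distrib, ← Finset.mul_sum, hsum3, hpars, hz]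
      norm_num
    have h3 := (Finset.sum_eq_zero_iff_of_nonneg (fun i _ => by linarith [h1 i])).1 h2
    intro i
    have := h3 i (Finset.mem_univ i)
    linarith
  have hPi : ∀ i, ⟪w, e i⟫ ^ 2 < 1 → ⟪z, p i⟫ = 2 / 3 := by
    intro i hi
    have h1 := hkey z hge hwz i
    rw [hzi i, hz] at h1
    have h2 : 2 / 9 ≤ 2 / 3 - ⟪p i, z⟫ ^ 2 := le_of_mul_le_mul_right h1 (by linarith)
    have h3 := hge i
    rw [hz] at h3
    rw [real_inner_comm]
    nlinarith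
  have hpq : ∀ i, ⟪w, e i⟫ ^ 2 < 1 → ∃ j, p i = q j := fun i hi =>
    eq_contact q z w hcard hq1 hqq hqs hqw hqspan (p i) (hp1 i) (hpw i)
      (fun j => hC.ang _ (hqC j) _ (hpC i) (hq1 j) (hp1 i)) (hPi i hi)
  have hv : ∀ j, ∃ l, ⟪q j, q l⟫ = 1 / 2 := by
    intro j
    obtain ⟨l, hl⟩ := Fintype.exists_ne_of_one_lt_card (by rw [hcard]; norm_num) j
    exact ⟨l, hqq j l hl.symm⟩
  by_cases hcase : ∃ i, ⟪w, e i⟫ ^ 2 = 1
  · obtain ⟨i, hi⟩ := hcase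
    have hother : ∀ m, m ≠ i → ⟪w, e m⟫ ^ 2 = 0 := by
      intro m hm
      have h1 : ⟪w, e m⟫ ^ 2 + ⟪w, e i⟫ ^ 2 ≤ ∑ a, ⟪w, e a⟫ ^ 2 := by
        rw [← Finset.sum_pair (f := fun a => ⟪w, e a⟫ ^ 2) hm]
        exact Finset.sum_le_sum_of_subset_of_nonneg (Finset.subset_univ _) fun a _ _ => sq_nonneg _
      rw [hbsum, hi] at h1
      have h2 := sq_nonneg ⟪w, e m⟫
      linarith
    have hei : e i = ⟪w, e i⟫ • w := by
      have hww : ⟪w, w⟫ = 1 := by rw [real_inner_self_eq_norm_sq, hw1]; norm_num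
      have hee : ⟪e i, e i⟫ = 1 := by rw [real_inner_self_eq_norm_sq, he.1 i]; norm_num
      have h1 : ⟪e i - ⟪w, e i⟫ • w, e i - ⟪w, e i⟫ • w⟫ = 0 := by
        simp only [inner_sub_left, inner_sub_right, inner_smul_left, inner_smul_right, conj_trivial,
          hww, hee, real_inner_comm w (e i)]
        nlinarith
      exact sub_eq_zero.1 (inner_self_eq_zero.1 h1)
    obtain ⟨j, hj⟩ : ∃ j : Fin 4, j ≠ i := exists_ne i
    obtain ⟨k, l, hkl, hki, hkj, hli, hlj, huniv⟩ := compl_pair i j hj.symm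
    have hjlt : ⟪w, e j⟫ ^ 2 < 1 := by rw [hother j hj]; norm_num
    obtain ⟨m, hm⟩ := hpq j hjlt
    obtain ⟨m', hm'⟩ := hv m
    refine final (r := p j) (v := q m') (z := z) e he hexp hj.symm hkl hki hkj hli hlj huniv
      (hpC j) (hp1 j) ?_ ?_ ?_ ?_ (hPi j hjlt) (hqC m') (hq1 m') ?_
    · rw [hei, inner_smul_left, hpw, mul_zero]
    · rw [real_inner_comm]
      exact hpe j
    · rw [hzi k, hother k hki]
      norm_num
    · rw [hzi l, hother l hli]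
      norm_num
    · rw [hm]
      exact hm'
  · push Not at hcase
    have hlt : ∀ i, ⟪w, e i⟫ ^ 2 < 1 := fun i => lt_of_le_of_ne (hb1 i) (hcase i)
    choose m hm using fun i => hpq i (hlt i)
    obtain ⟨i, j, hij, hmm⟩ := Fintype.exists_ne_map_eq_of_card_lt m (by rw [hcard]; simp)
    obtain ⟨k, l, hkl, hki, hkj, hli, hlj, huniv⟩ := compl_pair i j hij
    obtain ⟨m', hm'⟩ := hv (m i)
    have hpij : p i = p j := by rw [hm i, hm j, hmm]
    have hrz : ⟪p i, z⟫ = 2 / 3 := by rw [real_inner_comm]; exact hPi i (hlt i)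
    have hrj : ⟪p i, e j⟫ = 0 := by rw [hpij]; exact hpe j
    have ei := key_eq z w (p i) (e i) (hp1 i) hw1 (he.1 i) (hpe i) hwz (hpw i) hz hrz (hzi i)
    have ej := key_eq z w (p i) (e j) (hp1 i) hw1 (he.1 j) hrj hwz (hpw i) hz hrz (hzi j)
    have hcomb : ⟪z, e j⟫ • e i - ⟪z, e i⟫ • e j
        = (⟪z, e j⟫ * ⟪w, e i⟫ - ⟪z, e i⟫ * ⟪w, e j⟫) • w := by
      have hgen : ∀ (a b x y : ℝ) (u v t : H), u = x • w + (9 / 2 * a) • t →
          v = y • w + (9 / 2 * b) • t → b • u - a • v = (b * x - a * y) • w := by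
        intro a b x y u v t h1 h2
        rw [h1, h2]
        module
      exact hgen _ _ _ _ _ _ _ ei ej
    have hne0 : ⟪z, e j⟫ * ⟪w, e i⟫ - ⟪z, e i⟫ * ⟪w, e j⟫ ≠ 0 := by
      intro h0
      rw [h0, zero_smul] at hcomb
      have h1 : ⟪e i, ⟪z, e j⟫ • e i - ⟪z, e i⟫ • e j⟫ = 0 := by rw [hcomb, inner_zero_right]
      have hee : ⟪e i, e i⟫ = 1 := by rw [real_inner_self_eq_norm_sq, he.1 i]; norm_num
      rw [inner_sub_right, inner_smul_right, inner_smul_right, hee, he.2 hij, mul_one, mul_zero,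
        sub_zero] at h1
      have h2 := hzi j
      rw [h1] at h2
      have := hlt j
      nlinarith
    have hwm : ∀ a, a ≠ i → a ≠ j → ⟪w, e a⟫ = 0 := by
      intro a hai haj
      have h1 : ⟪⟪z, e j⟫ • e i - ⟪z, e i⟫ • e j, e a⟫ = 0 := by
        rw [inner_sub_left, inner_smul_left, inner_smul_left, he.2 hai.symm, he.2 haj.symm,
          mul_zero, mul_zero, sub_zero]
      rw [hcomb, inner_smul_left, conj_trivial] at h1
      exact (mul_eq_zero.1 h1).resolve_left hne0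
    refine final (r := p i) (v := q m') (z := z) e he hexp hij hkl hki hkj hli hlj huniv
      (hpC i) (hp1 i) ?_ ?_ ?_ ?_ (hPi i (hlt i)) (hqC m') (hq1 m') ?_
    · rw [real_inner_comm]
      exact hpe i
    · rw [real_inner_comm]
      exact hrj
    · rw [hzi k, hwm k hki hkj]
      norm_num
    · rw [hzi l, hwm l hli hlj]
      norm_num
    · rw [hm i]
      exact hm'

end Pool.Agent.TH541.CWP
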