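import Pool.Agent.TH748.MU.Defs
import Pool.Agent.Helper227.ENJ.P_repF_pair
import Pool.Agent.Helper227.ENJ.P_repF_primrec
import Pool.Agent.Helper227.ENJ.P_repF_comp2
import Pool.Agent.Helper227.ENJ.P_beta_exists
import Pool.Agent.Helper227.ENJ.P_beta_unique
import Pool.Agent.Helper227.ENJ.P_std_below
import Pool.Agent.TH541.TN.Blk

set_option autoImplicit false

open FirstOrder FirstOrder.Language
open Pool.Agent.Helper227 Pool.Agent.Helper227.EN
open Pool.Agent.TH748.MU

namespace Pool.Agent.TH541.TN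

/-- Partial truth definitions for prenex formulas with `n` blocks, on standard Gödel numbers. -/
theorem tn_def {M : Type} [LA.Structure M] [CommSemiring M] [LinearOrder M]
    [IsStrictOrderedRing M] [CanonicallyOrderedAdd M] (hc : Compat M)
    (hA : Pool.Agent.TH752.AR.Ari LA M) (n : ℕ) :
    ∃ S : M → Prop, Pool.Agent.TH752.AR.Dfn LA (Set.univ : Set M) (fun v => S (v 0)) ∧
      ∀ x : ℕ, S (x : M) ↔ ∃ φ : LA.Sentence, Hier true n φ ∧ M ⊨ φ ∧ gf φ = x := by
  refine ⟨fun x => W n true 0 0 0 x, ?_, fun x => ?_⟩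
  · exact rel4 (R := W n true) (dfn_W hA n true) (Pool.Agent.TH752.AR.DF.par 0)
      (Pool.Agent.TH752.AR.DF.par 0) (Pool.Agent.TH752.AR.DF.par 0) (Pool.Agent.TH752.AR.DF.var 0)
  · have h := W_iff hc hA n true (0 : M) 0 0 x
    rw [Nat.cast_zero] at h
    refine h.trans ?_
    have key : ∀ φ : LA.Sentence, R (fun i => TN.bv (0 : M) 0 (i : M)) (k := 0) φ ↔ M ⊨ φ := by
      intro φ
      show BoundedFormula.Realize φ _ _ ↔ BoundedFormula.Realize φ _ _
      refine iff_of_eq ?_
      congr 1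
      exact Subsingleton.elim _ _
    constructor
    · rintro ⟨φ, h1, h2, h3⟩
      exact ⟨φ, h1, (key φ).1 h3, h2⟩
    · rintro ⟨φ, h1, h2, h3⟩
      exact ⟨φ, h1, h3, (key φ).2 h2⟩

end Pool.Agent.TH541.TN
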